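import Pool.Agent.H1.HP.Defs

/-!
# Basic facts on the hierarchical preferential attachment model
-/

set_option autoImplicit false

namespace Pool.Agent.H1.HP

open Finset

variable {K : ℕ} [NeZero K]

theorem label_succ_of_lt (n : ℕ) (l : Lab K n) (k : Fin K) (v : ℕ) (hv : v < n) :
    label (n + 1) ((l, k) : Lab K (n + 1)) v = label n l v := by
  show (if v = n then k else label n l v) = _
  rw [if_neg (by omega)]

theorem label_succ_self (n : ℕ) (l : Lab K n) (k : Fin K) : label (n + 1) ((l, k) : Lab K (n + 1)) n = k := by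
  show (if n = n then k else label n l n) = _
  rw [if_pos rfl]

theorem deg_succ (n : ℕ) (h : Hist n) (t : Fin (n + 1)) (v : ℕ) :
    deg (n + 1) ((h, t) : Hist (n + 1)) v =
      deg n h v + (if v = n then 1 else 0) + (if v = (t : ℕ) then 1 else 0) := rfl

/-- the recursion for sums over the nodes weighted with the degrees -/
theorem sum_deg_mul (n : ℕ) (h : Hist n) (t : Fin (n + 1)) (φ : ℕ → ℝ) :
    ∑ v ∈ range (n + 1), (deg (n + 1) ((h, t) : Hist (n + 1)) v : ℝ) * φ v =
      ∑ v ∈ range n, (deg n h v : ℝ) * φ v + φ n + φ t := by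
  have h1 : ∀ v, (deg (n + 1) ((h, t) : Hist (n + 1)) v : ℝ) * φ v =
      (deg n h v : ℝ) * φ v + (if v = n then φ v else 0) + (if v = (t : ℕ) then φ v else 0) := by
    intro v
    rw [deg_succ]
    push_cast
    split_ifs <;> ring
  rw [sum_congr rfl fun v _ => h1 v, sum_add_distrib, sum_add_distrib, sum_range_succ, deg_eq_zero n h n le_rfl,
    sum_ite_eq', sum_ite_eq', if_pos (mem_range.2 (by omega)), if_pos (mem_range.2 t.isLt)]
  simp

/-- the summed degree of the nodes weighted with a function of the label -/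
noncomputable def tot (n : ℕ) (h : Hist n) (l : Lab K n) (f : Fin K → ℝ) : ℝ :=
  ∑ v ∈ range n, (deg n h v : ℝ) * f (label n l v)

theorem tot_succ (n : ℕ) (h : Hist n) (l : Lab K n) (t : Fin (n + 1)) (k : Fin K) (f : Fin K → ℝ) :
    tot (n + 1) ((h, t) : Hist (n + 1)) ((l, k) : Lab K (n + 1)) f =
      tot n h l f + f (label (n + 1) ((l, k) : Lab K (n + 1)) t) + f k := by
  unfold tot
  rw [sum_deg_mul n h t (fun v => f (label (n + 1) ((l, k) : Lab K (n + 1)) v)), label_succ_self]
  have : ∑ v ∈ range n, (deg n h v : ℝ) * f (label (n + 1) ((l, k) : Lab K (n + 1)) v) =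
      ∑ v ∈ range n, (deg n h v : ℝ) * f (label n l v) := by
    refine sum_congr rfl fun v hv => ?_
    rw [label_succ_of_lt n l k v (mem_range.1 hv)]
  rw [this]
  ring

theorem sum_total (n : ℕ) (h : Hist n) (l : Lab K n) (f : Fin K → ℝ) :
    ∑ j, f j * (total n h l j : ℝ) = tot n h l f := by
  unfold total tot
  have h1 : ∀ j, f j * ((∑ v ∈ range n, if label n l v = j then deg n h v else 0 : ℕ) : ℝ) =
      ∑ v ∈ range n, (if label n l v = j then (deg n h v : ℝ) * f j else 0) := by
    intro j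
    rw [Nat.cast_sum, mul_sum]
    refine sum_congr rfl fun v _ => ?_
    split_ifs
    · ring
    · simp
  rw [sum_congr rfl fun j _ => h1 j, sum_comm]
  refine sum_congr rfl fun v _ => ?_
  rw [sum_ite_eq, if_pos (mem_univ _)]

theorem den_eq (θ : Param K) (n : ℕ) (h : Hist n) (l : Lab K n) (k : Fin K) :
    den θ n h l k = θ.γ k k + tot n h l (θ.γ k) := by
  unfold den
  rw [sum_total]

theorem tot_const (n : ℕ) (h : Hist n) (l : Lab K n) (c : ℝ) : tot n h l (fun _ => c) = 2 * n * c := by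
  unfold tot
  rw [← sum_mul, ← Nat.cast_sum, sum_deg]
  push_cast
  ring

theorem tot_nonneg (n : ℕ) (h : Hist n) (l : Lab K n) (f : Fin K → ℝ) (hf : ∀ k, 0 ≤ f k) : 0 ≤ tot n h l f :=
  sum_nonneg fun v _ => mul_nonneg (Nat.cast_nonneg _) (hf _)

theorem tot_mono (n : ℕ) (h : Hist n) (l : Lab K n) (f g : Fin K → ℝ) (hf : ∀ k, f k ≤ g k) :
    tot n h l f ≤ tot n h l g :=
  sum_le_sum fun v _ => mul_le_mul_of_nonneg_left (hf _) (Nat.cast_nonneg _)

theorem den_pos {θ : Param K} (hθ : θ.Valid) (n : ℕ) (h : Hist n) (l : Lab K n) (k : Fin K) :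
    0 < den θ n h l k := by
  rw [den_eq]
  have := tot_nonneg n h l (θ.γ k) fun j => (hθ.pos k j).le
  linarith [hθ.pos k k]

/-- the transition probability to the label `k` and the target `t` -/
noncomputable def trans (θ : Param K) (n : ℕ) (h : Hist n) (l : Lab K n) (t : ℕ) (k : Fin K) : ℝ :=
  θ.π k * (θ.γ k (if t = n then k else label n l t) * (if t = n then 1 else (deg n h t : ℝ)) / den θ n h l k)

theorem joint_succ (θ : Param K) (n : ℕ) (h : Hist n) (l : Lab K n) (t : Fin (n + 1)) (k : Fin K) :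
    joint θ (n + 1) ((h, t) : Hist (n + 1)) ((l, k) : Lab K (n + 1)) = joint θ n h l * trans θ n h l t k := rfl

theorem trans_nonneg {θ : Param K} (hθ : θ.Valid) (n : ℕ) (h : Hist n) (l : Lab K n) (t : ℕ) (k : Fin K) :
    0 ≤ trans θ n h l t k := by
  unfold trans
  refine mul_nonneg (hθ.nonneg k) (div_nonneg (mul_nonneg (hθ.pos _ _).le ?_) (den_pos hθ n h l k).le)
  split_ifs
  · exact zero_le_one
  · exact Nat.cast_nonneg _

/-- summation over the targets of the new node -/
theorem sum_targets (n : ℕ) (F : ℕ → ℝ) : ∑ t : Fin (n + 1), F t = ∑ v ∈ range n, F v + F n := by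
  rw [Fin.sum_univ_eq_sum_range (fun v => F v) (n + 1), sum_range_succ]

/-- a sum over the targets with the transition probabilities -/
theorem sum_trans (θ : Param K) (n : ℕ) (h : Hist n) (l : Lab K n) (k : Fin K) (φ : ℕ → ℝ) :
    ∑ t : Fin (n + 1), trans θ n h l t k * φ t =
      θ.π k / den θ n h l k * (∑ v ∈ range n, (deg n h v : ℝ) * (θ.γ k (label n l v) * φ v) + θ.γ k k * φ n) := by
  rw [sum_targets n (fun t => trans θ n h l t k * φ t), mul_add, mul_sum]
  congr 1
  · refine sum_congr rfl fun v hv => ?_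
    unfold trans
    rw [mem_range] at hv
    rw [if_neg (by omega), if_neg (by omega)]
    ring
  · unfold trans
    rw [if_pos rfl, if_pos rfl]
    ring

theorem sum_trans_one {θ : Param K} (hθ : θ.Valid) (n : ℕ) (h : Hist n) (l : Lab K n) (k : Fin K) :
    ∑ t : Fin (n + 1), trans θ n h l t k = θ.π k := by
  have h1 := sum_trans θ n h l k (fun _ => 1)
  simp only [mul_one] at h1
  rw [h1]
  have h2 : ∑ v ∈ range n, (deg n h v : ℝ) * θ.γ k (label n l v) + θ.γ k k = den θ n h l k := by
    rw [den_eq]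
    unfold tot
    ring
  rw [h2]
  field_simp [(den_pos hθ n h l k).ne']

/-- the expectation of a function of the history and the labels of `n` nodes -/
noncomputable def Ex (θ : Param K) (n : ℕ) (F : Hist n → Lab K n → ℝ) : ℝ := ∑ h, ∑ l, joint θ n h l * F h l

theorem Ex_succ (θ : Param K) (n : ℕ) (F : Hist (n + 1) → Lab K (n + 1) → ℝ) :
    Ex θ (n + 1) F = Ex θ n fun h l => ∑ t : Fin (n + 1), ∑ k, trans θ n h l t k * F (h, t) (l, k) := by
  unfold Ex
  rw [sum_hist_succ]
  refine sum_congr rfl fun h _ => ?_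
  have h1 : ∀ t : Fin (n + 1), ∑ l : Lab K (n + 1), joint θ (n + 1) ((h, t) : Hist (n + 1)) l *
      F ((h, t) : Hist (n + 1)) l =
      ∑ l : Lab K n, joint θ n h l * ∑ k, trans θ n h l t k * F (h, t) (l, k) := by
    intro t
    rw [sum_lab_succ]
    refine sum_congr rfl fun l _ => ?_
    rw [mul_sum]
    refine sum_congr rfl fun k _ => ?_
    rw [joint_succ]
    ring
  rw [sum_congr rfl fun t _ => h1 t, sum_comm]
  refine sum_congr rfl fun l _ => ?_
  rw [mul_sum]

theorem joint_nonneg {θ : Param K} (hθ : θ.Valid) (n : ℕ) (h : Hist n) (l : Lab K n) : 0 ≤ joint θ n h l := by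
  induction n with
  | zero => exact zero_le_one
  | succ n ih => exact mul_nonneg (ih h.1 l.1) (trans_nonneg hθ n h.1 l.1 h.2 l.2)

theorem Ex_mono {θ : Param K} (hθ : θ.Valid) {n : ℕ} {F F' : Hist n → Lab K n → ℝ} (hF : ∀ h l, F h l ≤ F' h l) :
    Ex θ n F ≤ Ex θ n F' :=
  sum_le_sum fun h _ => sum_le_sum fun l _ => mul_le_mul_of_nonneg_left (hF h l) (joint_nonneg hθ n h l)

theorem Ex_add (θ : Param K) {n : ℕ} (F F' : Hist n → Lab K n → ℝ) :
    Ex θ n (fun h l => F h l + F' h l) = Ex θ n F + Ex θ n F' := by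
  unfold Ex
  rw [← sum_add_distrib]
  refine sum_congr rfl fun h _ => ?_
  rw [← sum_add_distrib]
  exact sum_congr rfl fun l _ => by ring

theorem Ex_const_mul (θ : Param K) {n : ℕ} (c : ℝ) (F : Hist n → Lab K n → ℝ) :
    Ex θ n (fun h l => c * F h l) = c * Ex θ n F := by
  unfold Ex
  rw [mul_sum]
  refine sum_congr rfl fun h _ => ?_
  rw [mul_sum]
  exact sum_congr rfl fun l _ => by ring

theorem Ex_sub (θ : Param K) {n : ℕ} (F F' : Hist n → Lab K n → ℝ) :
    Ex θ n (fun h l => F h l - F' h l) = Ex θ n F - Ex θ n F' := by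
  have h := Ex_add θ F (fun h l => (-1) * F' h l)
  rw [Ex_const_mul] at h
  have e : Ex θ n (fun h l => F h l - F' h l) = Ex θ n (fun h l => F h l + (-1) * F' h l) := by
    congr 1
    funext h l
    ring
  rw [e, h]
  ring

theorem Ex_one {θ : Param K} (hθ : θ.Valid) (n : ℕ) : Ex θ n (fun _ _ => 1) = 1 := by
  induction n with
  | zero =>
    unfold Ex
    show ∑ _h : Unit, ∑ _l : Unit, (1 : ℝ) * 1 = 1
    simp
  | succ n ih =>
    rw [Ex_succ]
    have : (fun (h : Hist n) (l : Lab K n) => ∑ t : Fin (n + 1), ∑ k, trans θ n h l t k * 1) = fun _ _ => (1 : ℝ) := by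
      funext h l
      simp only [mul_one]
      rw [sum_comm, sum_congr rfl fun k _ => sum_trans_one hθ n h l k, hθ.sum_eq_one]
    rw [this, ih]

theorem Ex_const {θ : Param K} (hθ : θ.Valid) (n : ℕ) (c : ℝ) : Ex θ n (fun _ _ => c) = c := by
  have h := Ex_const_mul θ (n := n) c (fun _ _ => 1)
  simp only [mul_one] at h
  rw [h, Ex_one hθ, mul_one]

theorem law_nonneg {θ : Param K} (hθ : θ.Valid) (n : ℕ) (h : Hist n) : 0 ≤ law θ n h :=
  sum_nonneg fun l _ => joint_nonneg hθ n h l

theorem sum_law {θ : Param K} (hθ : θ.Valid) (n : ℕ) : ∑ h, law θ n h = 1 := by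
  have h := Ex_one hθ n
  unfold Ex at h
  simp only [mul_one] at h
  exact h

/-- the expectation of a function of the history -/
theorem Ex_hist (θ : Param K) (n : ℕ) (F : Hist n → ℝ) : Ex θ n (fun h _ => F h) = ∑ h, law θ n h * F h := by
  unfold Ex law
  exact sum_congr rfl fun h _ => by rw [sum_mul]

end Pool.Agent.H1.HP
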