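import Pool.Agent.H1.HP.OneStep
import Pool.Agent.H1.HP.Basic

/-!
# The second moment of the likelihood ratio
-/

set_option autoImplicit false

namespace Pool.Agent.H1.HP

open Finset

namespace Bal

variable (B : Bal)

/-- the parameters of the balanced model -/
noncomputable def param : Param 2 := ⟨B.p, fun i j => 1 + B.t * B.f i * B.f j⟩

/-- the excess of the loops -/
noncomputable def th : ℝ := B.t * B.s

variable {B}

theorem ff_abs (i j : Fin 2) : |B.t * B.f i * B.f j| ≤ 1 / 100 := B.small (B.f_le j) i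

theorem gamma_pos (i j : Fin 2) : 0 < 1 + B.t * B.f i * B.f j := by
  have := (abs_le.1 (B.ff_abs i j)).1
  linarith

theorem valid : B.param.Valid where
  nonneg j := (B.p_pos j).le
  sum_eq_one := by
    rw [Fin.sum_univ_two]
    exact B.p_sum
  symm i j := by
    show 1 + B.t * B.f i * B.f j = 1 + B.t * B.f j * B.f i
    ring
  pos i j := B.gamma_pos i j

theorem th_nonneg : 0 ≤ B.th := mul_nonneg B.t_pos.le B.s_nonneg

theorem th_le : B.th ≤ 1 / 1000 := by
  unfold th
  have h1 := B.t_le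
  have h2 := B.s_le
  have h3 := B.s_nonneg
  have := mul_le_mul h1 h2 h3 (by norm_num)
  linarith

end Bal

/-- the normalisation `z_n` -/
noncomputable def zz (th : ℝ) (n : ℕ) : ℝ := 2 * n + 1 + th

/-- the law of the history in the reference model -/
noncomputable def QQ (th : ℝ) : (n : ℕ) → Hist n → ℝ
  | 0, _ => 1
  | (n + 1), h => QQ th n h.1 * ((if (h.2 : ℕ) = n then 1 + th else (deg n h.1 h.2 : ℝ)) / zz th n)

theorem zz_pos {th : ℝ} (hth : 0 ≤ th) (n : ℕ) : 0 < zz th n := by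
  unfold zz
  positivity

theorem zz_ge {th : ℝ} (hth : 0 ≤ th) (n : ℕ) : 1 ≤ zz th n := by
  unfold zz
  have : (0 : ℝ) ≤ n := Nat.cast_nonneg n
  linarith

theorem QQ_pos {th : ℝ} (hth : 0 ≤ th) (n : ℕ) (h : Hist n) : 0 < QQ th n h := by
  induction n with
  | zero => exact zero_lt_one
  | succ n ih =>
    show 0 < QQ th n h.1 * ((if (h.2 : ℕ) = n then 1 + th else (deg n h.1 h.2 : ℝ)) / zz th n)
    refine mul_pos (ih h.1) (div_pos ?_ (zz_pos hth n))
    split_ifs with h1
    · linarith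
    · have h2 : (h.2 : ℕ) < n := by
        have := h.2.isLt
        omega
      exact_mod_cast deg_pos n h.1 h.2 h2

/-- the weight of the target `t` in the reference model -/
noncomputable def mu (th : ℝ) (n : ℕ) (h : Hist n) (t : ℕ) : ℝ :=
  (if t = n then 1 + th else (deg n h t : ℝ)) / zz th n

theorem mu_nonneg {th : ℝ} (hth : 0 ≤ th) (n : ℕ) (h : Hist n) (t : ℕ) : 0 ≤ mu th n h t := by
  unfold mu
  refine div_nonneg ?_ (zz_pos hth n).le
  split_ifs
  · linarith
  · exact Nat.cast_nonneg _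

theorem sum_mu_mul (th : ℝ) (n : ℕ) (h : Hist n) (φ : ℕ → ℝ) :
    ∑ t : Fin (n + 1), mu th n h t * φ t = (∑ v ∈ range n, (deg n h v : ℝ) * φ v + (1 + th) * φ n) / zz th n := by
  rw [sum_targets n (fun t => mu th n h t * φ t), add_div, sum_div]
  congr 1
  · refine sum_congr rfl fun v hv => ?_
    rw [mem_range] at hv
    unfold mu
    rw [if_neg (by omega)]
    ring
  · unfold mu
    rw [if_pos rfl]
    ring

theorem sum_mu {th : ℝ} (hth : 0 ≤ th) (n : ℕ) (h : Hist n) : ∑ t : Fin (n + 1), mu th n h t = 1 := by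
  have h1 := sum_mu_mul th n h (fun _ => 1)
  simp only [mul_one] at h1
  rw [h1, ← Nat.cast_sum, sum_deg]
  have : ((2 * n : ℕ) : ℝ) + (1 + th) = zz th n := by
    unfold zz
    push_cast
    ring
  rw [this, div_self (zz_pos hth n).ne']

theorem sum_QQ {th : ℝ} (hth : 0 ≤ th) (n : ℕ) : ∑ h, QQ th n h = 1 := by
  induction n with
  | zero =>
    show ∑ _h : Unit, (1 : ℝ) = 1
    simp
  | succ n ih =>
    rw [sum_hist_succ]
    have h1 : ∀ h : Hist n, ∑ t : Fin (n + 1), QQ th (n + 1) ((h, t) : Hist (n + 1)) = QQ th n h := by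
      intro h
      have : ∀ t : Fin (n + 1), QQ th (n + 1) ((h, t) : Hist (n + 1)) = QQ th n h * mu th n h t := fun t => rfl
      rw [sum_congr rfl fun t _ => this t, ← mul_sum, sum_mu hth, mul_one]
    rw [sum_congr rfl fun h _ => h1 h, ih]

section

variable (B : Bal)

/-- `F + m` -/
noncomputable def GG (n : ℕ) (h : Hist n) (l : Lab 2 n) : ℝ := tot n h l B.f + B.m

/-- `W + m ^ 2 / (1 + th)` -/
noncomputable def WW (n : ℕ) (h : Hist n) (l l' : Lab 2 n) : ℝ :=
  ∑ v ∈ range n, (deg n h v : ℝ) * (B.f (label n l v) * B.f (label n l' v)) + B.m ^ 2 / (1 + B.th)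

/-- the value of the target `t` -/
noncomputable def xx (n : ℕ) (l : Lab 2 n) (t : ℕ) : ℝ := if t = n then B.m / (1 + B.th) else B.f (label n l t)

variable {B}

theorem xx_abs (n : ℕ) (l : Lab 2 n) (t : ℕ) : |xx B n l t| ≤ 2 := by
  unfold xx
  split_ifs
  · rw [abs_div, abs_of_pos (by linarith [B.th_nonneg] : 0 < 1 + B.th), div_le_iff₀ (by linarith [B.th_nonneg])]
    have := B.m_le
    have := B.th_nonneg
    linarith
  · exact B.f_le _

theorem sum_mu_xx (n : ℕ) (h : Hist n) (l : Lab 2 n) :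
    ∑ t : Fin (n + 1), mu B.th n h t * xx B n l t = GG B n h l / zz B.th n := by
  rw [sum_mu_mul B.th n h (fun t => xx B n l t)]
  congr 1
  unfold GG tot
  congr 1
  · refine sum_congr rfl fun v hv => ?_
    rw [mem_range] at hv
    unfold xx
    rw [if_neg (by omega)]
  · unfold xx
    rw [if_pos rfl]
    have : (1 + B.th) ≠ 0 := by linarith [B.th_nonneg]
    field_simp

theorem sum_mu_xx_xx (n : ℕ) (h : Hist n) (l l' : Lab 2 n) :
    ∑ t : Fin (n + 1), mu B.th n h t * (xx B n l t * xx B n l' t) = WW B n h l l' / zz B.th n := by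
  rw [sum_mu_mul B.th n h (fun t => xx B n l t * xx B n l' t)]
  congr 1
  unfold WW
  congr 1
  · refine sum_congr rfl fun v hv => ?_
    rw [mem_range] at hv
    unfold xx
    rw [if_neg (by omega), if_neg (by omega)]
  · unfold xx
    rw [if_pos rfl, if_pos rfl]
    have : (1 + B.th) ≠ 0 := by linarith [B.th_nonneg]
    field_simp

theorem GG_abs (n : ℕ) (h : Hist n) (l : Lab 2 n) : |GG B n h l / zz B.th n| ≤ 2 := by
  rw [← sum_mu_xx]
  exact wsum_abs (μ := fun t : Fin (n + 1) => mu B.th n h t) (fun t => mu_nonneg B.th_nonneg n h t)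
    (sum_mu B.th_nonneg n h) fun t => xx_abs n l t

theorem den_bal (n : ℕ) (h : Hist n) (l : Lab 2 n) (k : Fin 2) :
    den B.param n h l k = zz B.th n * (1 + B.t * B.f k * (GG B n h l / zz B.th n)) := by
  have hz := (zz_pos B.th_nonneg n).ne'
  rw [den_eq]
  have h1 : tot n h l (B.param.γ k) = 2 * n + B.t * B.f k * tot n h l B.f := by
    unfold tot Bal.param
    have : ∀ v, (deg n h v : ℝ) * (1 + B.t * B.f k * B.f (label n l v)) =
        (deg n h v : ℝ) + B.t * B.f k * ((deg n h v : ℝ) * B.f (label n l v)) := fun v => by ring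
    simp only [this]
    rw [sum_add_distrib, ← mul_sum, ← Nat.cast_sum, sum_deg]
    push_cast
    ring
  rw [h1]
  have h2 : zz B.th n * (1 + B.t * B.f k * (GG B n h l / zz B.th n)) =
      zz B.th n + B.t * B.f k * GG B n h l := by
    field_simp
  rw [h2]
  unfold GG zz Bal.th
  show 1 + B.t * B.f k * B.f k + _ = _
  linear_combination B.t * B.ff k

theorem trans_bal (n : ℕ) (h : Hist n) (l : Lab 2 n) (t : ℕ) (k : Fin 2) :
    trans B.param n h l t k = mu B.th n h t * B.r (GG B n h l / zz B.th n) (xx B n l t) k := by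
  unfold trans
  rw [den_bal]
  have hz := (zz_pos B.th_nonneg n).ne'
  have hth : (1 + B.th) ≠ 0 := by linarith [B.th_nonneg]
  have hd : (1 + B.t * B.f k * (GG B n h l / zz B.th n)) ≠ 0 := by
    have := B.den_ge (GG_abs (B := B) n h l) k
    linarith
  unfold mu xx Bal.r
  by_cases ht : t = n
  · rw [if_pos ht, if_pos ht, if_pos ht, if_pos ht]
    show B.p k * ((1 + B.t * B.f k * B.f k) * 1 / _) = _
    have h1 : 1 + B.t * B.f k * B.f k = (1 + B.th) * (1 + B.t * B.f k * (B.m / (1 + B.th))) := by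
      have : (1 + B.th) * (1 + B.t * B.f k * (B.m / (1 + B.th))) = (1 + B.th) + B.t * B.f k * B.m := by
        field_simp
      rw [this]
      unfold Bal.th
      linear_combination B.t * B.ff k
    rw [h1]
    generalize (1 + B.t * B.f k * (B.m / (1 + B.th))) = c at *
    generalize (1 + B.t * B.f k * (GG B n h l / zz B.th n)) = d at *
    field_simp
  · rw [if_neg ht, if_neg ht, if_neg ht, if_neg ht]
    show B.p k * ((1 + B.t * B.f k * B.f (label n l t)) * (deg n h t : ℝ) / _) = _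
    generalize (1 + B.t * B.f k * B.f (label n l t)) = c at *
    generalize (1 + B.t * B.f k * (GG B n h l / zz B.th n)) = d at *
    field_simp

variable (B)

/-- the weight of two replicas -/
noncomputable def VV (n : ℕ) (h : Hist n) (l l' : Lab 2 n) : ℝ :=
  joint B.param n h l * joint B.param n h l' / QQ B.th n h

/-- the exponent -/
noncomputable def EE (lam : ℝ) (n : ℕ) (h : Hist n) (l l' : Lab 2 n) : ℝ :=
  lam * (|GG B n h l| ^ 3 + |GG B n h l'| ^ 3 + |WW B n h l l'| ^ 3) / zz B.th n ^ 2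

variable {B}

theorem VV_nonneg (n : ℕ) (h : Hist n) (l l' : Lab 2 n) : 0 ≤ VV B n h l l' :=
  div_nonneg (mul_nonneg (joint_nonneg B.valid n h l) (joint_nonneg B.valid n h l')) (QQ_pos B.th_nonneg n h).le

theorem VV_succ (n : ℕ) (h : Hist n) (l l' : Lab 2 n) (t : Fin (n + 1)) (k k' : Fin 2) :
    VV B (n + 1) ((h, t) : Hist (n + 1)) ((l, k) : Lab 2 (n + 1)) ((l', k') : Lab 2 (n + 1)) =
      VV B n h l l' * wt B (fun t : Fin (n + 1) => mu B.th n h t) (fun t => xx B n l t) (fun t => xx B n l' t)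
        (GG B n h l / zz B.th n) (GG B n h l' / zz B.th n) t k k' := by
  unfold VV
  rw [joint_succ, joint_succ, trans_bal, trans_bal]
  have hQ : QQ B.th (n + 1) ((h, t) : Hist (n + 1)) = QQ B.th n h * mu B.th n h t := rfl
  rw [hQ]
  have hQ0 := (QQ_pos B.th_nonneg n h).ne'
  have hm : mu B.th n h t ≠ 0 := by
    intro h0
    have := QQ_pos B.th_nonneg (n + 1) ((h, t) : Hist (n + 1))
    rw [hQ, h0, mul_zero] at this
    exact lt_irrefl _ this
  unfold wt
  field_simp

theorem GG_succ (n : ℕ) (h : Hist n) (l : Lab 2 n) (t : Fin (n + 1)) (k : Fin 2) :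
    GG B (n + 1) ((h, t) : Hist (n + 1)) ((l, k) : Lab 2 (n + 1)) =
      GG B n h l + (xx B n l t + B.f k + (if (t : ℕ) = n then 1 else 0) * (B.f k - xx B n l t)) := by
  unfold GG
  rw [tot_succ]
  by_cases ht : (t : ℕ) = n
  · rw [if_pos ht, ht, label_succ_self]
    ring
  · rw [if_neg ht, label_succ_of_lt n l k t (by have := t.isLt; omega)]
    unfold xx
    rw [if_neg ht]
    ring

theorem WW_succ (n : ℕ) (h : Hist n) (l l' : Lab 2 n) (t : Fin (n + 1)) (k k' : Fin 2) :
    WW B (n + 1) ((h, t) : Hist (n + 1)) ((l, k) : Lab 2 (n + 1)) ((l', k') : Lab 2 (n + 1)) =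
      WW B n h l l' + (xx B n l t * xx B n l' t + B.f k * B.f k' +
        (if (t : ℕ) = n then 1 else 0) * (B.f k * B.f k' - xx B n l t * xx B n l' t)) := by
  unfold WW
  rw [sum_deg_mul n h t (fun v => B.f (label (n + 1) ((l, k) : Lab 2 (n + 1)) v) *
    B.f (label (n + 1) ((l', k') : Lab 2 (n + 1)) v)), label_succ_self, label_succ_self]
  have h1 : ∑ v ∈ range n, (deg n h v : ℝ) * (B.f (label (n + 1) ((l, k) : Lab 2 (n + 1)) v) *
      B.f (label (n + 1) ((l', k') : Lab 2 (n + 1)) v)) =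
      ∑ v ∈ range n, (deg n h v : ℝ) * (B.f (label n l v) * B.f (label n l' v)) := by
    refine sum_congr rfl fun v hv => ?_
    rw [label_succ_of_lt n l k v (mem_range.1 hv), label_succ_of_lt n l' k' v (mem_range.1 hv)]
  rw [h1]
  by_cases ht : (t : ℕ) = n
  · rw [if_pos ht, ht, label_succ_self, label_succ_self]
    ring
  · rw [if_neg ht, label_succ_of_lt n l k t (by have := t.isLt; omega),
      label_succ_of_lt n l' k' t (by have := t.isLt; omega)]
    unfold xx
    rw [if_neg ht, if_neg ht]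
    ring

variable (B) in
/-- the exponential functional -/
noncomputable def Phi (lam : ℝ) (n : ℕ) : ℝ := ∑ h, ∑ l, ∑ l', VV B n h l l' * Real.exp (EE B lam n h l l')

theorem Phi_succ {lam : ℝ} (hlam : lam = 1 / 10 ^ 10) (n : ℕ) :
    Phi B lam (n + 1) ≤ (1 + 25000000 * lam * (1 / (zz B.th n + 2) ^ 2 * Real.sqrt (zz B.th n))) * Phi B lam n := by
  unfold Phi
  rw [sum_hist_succ, mul_sum]
  refine sum_le_sum fun h _ => ?_
  have h1 : ∑ t : Fin (n + 1), ∑ l : Lab 2 (n + 1), ∑ l' : Lab 2 (n + 1),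
      VV B (n + 1) ((h, t) : Hist (n + 1)) l l' * Real.exp (EE B lam (n + 1) ((h, t) : Hist (n + 1)) l l') =
      ∑ l : Lab 2 n, ∑ l' : Lab 2 n, ∑ t : Fin (n + 1), ∑ k, ∑ k',
        VV B (n + 1) ((h, t) : Hist (n + 1)) ((l, k) : Lab 2 (n + 1)) ((l', k') : Lab 2 (n + 1)) *
        Real.exp (EE B lam (n + 1) ((h, t) : Hist (n + 1)) ((l, k) : Lab 2 (n + 1)) ((l', k') : Lab 2 (n + 1))) := by
    have h2 : ∀ t : Fin (n + 1), ∑ l : Lab 2 (n + 1), ∑ l' : Lab 2 (n + 1),
        VV B (n + 1) ((h, t) : Hist (n + 1)) l l' * Real.exp (EE B lam (n + 1) ((h, t) : Hist (n + 1)) l l') =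
        ∑ l : Lab 2 n, ∑ l' : Lab 2 n, ∑ k, ∑ k',
        VV B (n + 1) ((h, t) : Hist (n + 1)) ((l, k) : Lab 2 (n + 1)) ((l', k') : Lab 2 (n + 1)) *
        Real.exp (EE B lam (n + 1) ((h, t) : Hist (n + 1)) ((l, k) : Lab 2 (n + 1)) ((l', k') : Lab 2 (n + 1))) := by
      intro t
      rw [sum_lab_succ]
      refine sum_congr rfl fun l _ => ?_
      have h3 : ∀ k : Fin 2, ∑ l' : Lab 2 (n + 1),
          VV B (n + 1) ((h, t) : Hist (n + 1)) ((l, k) : Lab 2 (n + 1)) l' *
          Real.exp (EE B lam (n + 1) ((h, t) : Hist (n + 1)) ((l, k) : Lab 2 (n + 1)) l') =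
          ∑ l' : Lab 2 n, ∑ k', VV B (n + 1) ((h, t) : Hist (n + 1)) ((l, k) : Lab 2 (n + 1))
            ((l', k') : Lab 2 (n + 1)) * Real.exp (EE B lam (n + 1) ((h, t) : Hist (n + 1))
            ((l, k) : Lab 2 (n + 1)) ((l', k') : Lab 2 (n + 1))) := fun k => sum_lab_succ n _
      rw [sum_congr rfl fun k _ => h3 k, sum_comm]
    rw [sum_congr rfl fun t _ => h2 t, sum_comm]
    refine sum_congr rfl fun l _ => ?_
    rw [sum_comm]
  rw [h1, mul_sum]
  refine sum_le_sum fun l _ => ?_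
  rw [mul_sum]
  refine sum_le_sum fun l' _ => ?_
  have hz0 := zz_pos B.th_nonneg n
  have hz1 := zz_ge B.th_nonneg n
  have hsum := one_step B (fun t : Fin (n + 1) => mu B.th n h t) (fun t => xx B n l t) (fun t => xx B n l' t)
    (fun t => if (t : ℕ) = n then 1 else 0) (GG B n h l / zz B.th n) (GG B n h l' / zz B.th n)
    (WW B n h l l' / zz B.th n) (zz B.th n) (Real.sqrt (zz B.th n)) lam (fun t => mu_nonneg B.th_nonneg n h t)
    (sum_mu B.th_nonneg n h) (fun t => xx_abs n l t) (fun t => xx_abs n l' t) (sum_mu_xx n h l) (sum_mu_xx n h l')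
    (sum_mu_xx_xx n h l l') (fun t => by positivity) (fun t => by split_ifs <;> norm_num)
    (by
      rw [sum_mu_mul B.th n h (fun t => if t = n then 1 else 0)]
      have e1 : ∑ v ∈ range n, (deg n h v : ℝ) * (if v = n then 1 else 0) = 0 := by
        refine sum_eq_zero fun v hv => ?_
        rw [mem_range] at hv
        rw [if_neg (by omega), mul_zero]
      rw [e1, if_pos rfl]
      refine div_le_div_of_nonneg_right ?_ hz0.le
      linarith [B.th_le])
    (by rw [Real.one_le_sqrt]; exact hz1) (by rw [Real.sq_sqrt hz0.le]) hlam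
  have hpt : ∀ (t : Fin (n + 1)) (k k' : Fin 2),
      VV B (n + 1) ((h, t) : Hist (n + 1)) ((l, k) : Lab 2 (n + 1)) ((l', k') : Lab 2 (n + 1)) *
        Real.exp (EE B lam (n + 1) ((h, t) : Hist (n + 1)) ((l, k) : Lab 2 (n + 1)) ((l', k') : Lab 2 (n + 1))) =
      (VV B n h l l' * Real.exp (EE B lam n h l l')) *
      (wt B (fun t : Fin (n + 1) => mu B.th n h t) (fun t => xx B n l t) (fun t => xx B n l' t)
        (GG B n h l / zz B.th n) (GG B n h l' / zz B.th n) t k k' *
      Real.exp (lam * (|zz B.th n * (GG B n h l / zz B.th n) + (xx B n l t + B.f k +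
          (if (t : ℕ) = n then 1 else 0) * (B.f k - xx B n l t))| ^ 3 +
        |zz B.th n * (GG B n h l' / zz B.th n) + (xx B n l' t + B.f k' +
          (if (t : ℕ) = n then 1 else 0) * (B.f k' - xx B n l' t))| ^ 3 +
        |zz B.th n * (WW B n h l l' / zz B.th n) + (xx B n l t * xx B n l' t + B.f k * B.f k' +
          (if (t : ℕ) = n then 1 else 0) * (B.f k * B.f k' - xx B n l t * xx B n l' t))| ^ 3) /
          (zz B.th n + 2) ^ 2 -
        lam * (|zz B.th n * (GG B n h l / zz B.th n)| ^ 3 + |zz B.th n * (GG B n h l' / zz B.th n)| ^ 3 +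
          |zz B.th n * (WW B n h l l' / zz B.th n)| ^ 3) / zz B.th n ^ 2)) := by
    intro t k k'
    have c1 : ∀ u : ℝ, zz B.th n * (u / zz B.th n) = u := fun u => by field_simp
    rw [c1, c1, c1, ← GG_succ, ← GG_succ, ← WW_succ, VV_succ]
    have hzs : zz B.th n + 2 = zz B.th (n + 1) := by
      unfold zz
      push_cast
      ring
    rw [hzs]
    have hE1 : lam * (|GG B n h l| ^ 3 + |GG B n h l'| ^ 3 + |WW B n h l l'| ^ 3) / zz B.th n ^ 2 =
      EE B lam n h l l' := rfl
    have hE2 : lam * (|GG B (n + 1) ((h, t) : Hist (n + 1)) ((l, k) : Lab 2 (n + 1))| ^ 3 +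
        |GG B (n + 1) ((h, t) : Hist (n + 1)) ((l', k') : Lab 2 (n + 1))| ^ 3 +
        |WW B (n + 1) ((h, t) : Hist (n + 1)) ((l, k) : Lab 2 (n + 1)) ((l', k') : Lab 2 (n + 1))| ^ 3) /
        zz B.th (n + 1) ^ 2 = EE B lam (n + 1) ((h, t) : Hist (n + 1)) ((l, k) : Lab 2 (n + 1))
          ((l', k') : Lab 2 (n + 1)) := rfl
    rw [hE1, hE2, Real.exp_sub]
    have := (Real.exp_pos (EE B lam n h l l')).ne'
    field_simp
  have e1 : ∑ t : Fin (n + 1), ∑ k, ∑ k',
        VV B (n + 1) ((h, t) : Hist (n + 1)) ((l, k) : Lab 2 (n + 1)) ((l', k') : Lab 2 (n + 1)) *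
        Real.exp (EE B lam (n + 1) ((h, t) : Hist (n + 1)) ((l, k) : Lab 2 (n + 1)) ((l', k') : Lab 2 (n + 1))) =
      ∑ t : Fin (n + 1), ∑ k, ∑ k', (VV B n h l l' * Real.exp (EE B lam n h l l')) *
      (wt B (fun t : Fin (n + 1) => mu B.th n h t) (fun t => xx B n l t) (fun t => xx B n l' t)
        (GG B n h l / zz B.th n) (GG B n h l' / zz B.th n) t k k' *
      Real.exp (lam * (|zz B.th n * (GG B n h l / zz B.th n) + (xx B n l t + B.f k +
          (if (t : ℕ) = n then 1 else 0) * (B.f k - xx B n l t))| ^ 3 +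
        |zz B.th n * (GG B n h l' / zz B.th n) + (xx B n l' t + B.f k' +
          (if (t : ℕ) = n then 1 else 0) * (B.f k' - xx B n l' t))| ^ 3 +
        |zz B.th n * (WW B n h l l' / zz B.th n) + (xx B n l t * xx B n l' t + B.f k * B.f k' +
          (if (t : ℕ) = n then 1 else 0) * (B.f k * B.f k' - xx B n l t * xx B n l' t))| ^ 3) /
          (zz B.th n + 2) ^ 2 -
        lam * (|zz B.th n * (GG B n h l / zz B.th n)| ^ 3 + |zz B.th n * (GG B n h l' / zz B.th n)| ^ 3 +
          |zz B.th n * (WW B n h l l' / zz B.th n)| ^ 3) / zz B.th n ^ 2)) :=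
    sum_congr rfl fun t _ => sum_congr rfl fun k _ => sum_congr rfl fun k' _ => hpt t k k'
  rw [e1, sum3_mul, mul_comm (1 + 25000000 * lam * (1 / (zz B.th n + 2) ^ 2 * Real.sqrt (zz B.th n)))]
  exact mul_le_mul_of_nonneg_left hsum (mul_nonneg (VV_nonneg n h l l') (Real.exp_pos _).le)

end

end Pool.Agent.H1.HP
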