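import Pool.Agent.H1.HP.Model

/-!
# The hierarchical preferential attachment model: first facts
-/

set_option autoImplicit false

namespace Pool.Agent.H1.HP

open Finset

section basic

variable {K : ℕ} [NeZero K]

theorem sum_hist_succ (n : ℕ) (F : Hist (n + 1) → ℝ) :
    ∑ h, F h = ∑ h : Hist n, ∑ t : Fin (n + 1), F (h, t) := by
  exact Fintype.sum_prod_type F

omit [NeZero K] in
theorem sum_lab_succ (n : ℕ) (F : Lab K (n + 1) → ℝ) :
    ∑ l, F l = ∑ l : Lab K n, ∑ k : Fin K, F (l, k) := by
  exact Fintype.sum_prod_type F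

theorem deg_eq_zero (n : ℕ) (h : Hist n) (v : ℕ) (hv : n ≤ v) : deg n h v = 0 := by
  induction n with
  | zero => rfl
  | succ n ih =>
    have h1 := ih h.1 (by omega)
    have h2 := h.2.isLt
    show deg n h.1 v + (if v = n then 1 else 0) + (if v = (h.2 : ℕ) then 1 else 0) = 0
    rw [h1, if_neg (by omega), if_neg (by omega)]

theorem deg_pos (n : ℕ) (h : Hist n) (v : ℕ) (hv : v < n) : 1 ≤ deg n h v := by
  induction n with
  | zero => omega
  | succ n ih =>
    show 1 ≤ deg n h.1 v + (if v = n then 1 else 0) + (if v = (h.2 : ℕ) then 1 else 0)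
    by_cases h1 : v = n
    · rw [if_pos h1]; omega
    · have := ih h.1 (by omega)
      omega

theorem sum_deg (n : ℕ) (h : Hist n) : ∑ v ∈ range n, deg n h v = 2 * n := by
  induction n with
  | zero => rfl
  | succ n ih =>
    have h1 : ∑ v ∈ range (n + 1), deg (n + 1) h v = ∑ v ∈ range (n + 1), deg n h.1 v +
        ∑ v ∈ range (n + 1), (if v = n then 1 else 0) + ∑ v ∈ range (n + 1), (if v = (h.2 : ℕ) then 1 else 0) := by
      rw [← sum_add_distrib, ← sum_add_distrib]
      rfl
    rw [h1, sum_range_succ, ih h.1, deg_eq_zero n h.1 n le_rfl, sum_ite_eq', sum_ite_eq',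
      if_pos (mem_range.2 (by omega)), if_pos (mem_range.2 h.2.isLt)]
    ring

theorem steps_eq (θ : Param K) (n : ℕ) (h : Hist n) (l : Lab K n) : L θ n h l = joint θ n h l := by
  induction n with
  | zero => simp [L, steps, joint]
  | succ n ih =>
    have h0 := ih h.1 l.1
    unfold L at h0 ⊢
    have hs : steps θ (n + 1) h l = steps θ n h.1 l.1 *
      (θ.π l.2 * θ.γ l.2 (label (n + 1) l h.2) / den θ n h.1 l.1 l.2) := rfl
    have hj : joint θ (n + 1) h l = joint θ n h.1 l.1 * (θ.π l.2 * (θ.γ l.2 (label (n + 1) l h.2) *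
      (if (h.2 : ℕ) = n then 1 else (deg n h.1 h.2 : ℝ)) / den θ n h.1 l.1 l.2)) := rfl
    have hp : ∏ v ∈ range (n + 1), ((deg (n + 1) h v - 1).factorial : ℝ) =
        (∏ v ∈ range n, ((deg n h.1 v - 1).factorial : ℝ)) *
          (if (h.2 : ℕ) = n then 1 else (deg n h.1 h.2 : ℝ)) := by
      rw [prod_range_succ]
      have hn : deg (n + 1) h n = 1 + (if n = (h.2 : ℕ) then 1 else 0) := by
        show deg n h.1 n + (if n = n then 1 else 0) + (if n = (h.2 : ℕ) then 1 else 0) = _
        rw [deg_eq_zero n h.1 n le_rfl, if_pos rfl]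
      by_cases ht : (h.2 : ℕ) = n
      · rw [if_pos ht]
        have e1 : ∏ v ∈ range n, ((deg (n + 1) h v - 1).factorial : ℝ) =
            ∏ v ∈ range n, ((deg n h.1 v - 1).factorial : ℝ) := by
          refine prod_congr rfl fun v hv => ?_
          rw [mem_range] at hv
          have : deg (n + 1) h v = deg n h.1 v := by
            show deg n h.1 v + (if v = n then 1 else 0) + (if v = (h.2 : ℕ) then 1 else 0) = _
            rw [if_neg (by omega), if_neg (by omega)]
            rfl
          rw [this]
        rw [e1, hn, if_pos ht.symm]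
        simp
      · rw [if_neg ht]
        have htn : (h.2 : ℕ) < n := by have := h.2.isLt; omega
        have e2 : (deg (n + 1) h n - 1).factorial = 1 := by
          rw [hn, if_neg (fun h => ht h.symm)]
          rfl
        rw [e2, Nat.cast_one, mul_one]
        rw [← mul_prod_erase (range n) _ (mem_range.2 htn), ← mul_prod_erase (range n) (fun v =>
          ((deg n h.1 v - 1).factorial : ℝ)) (mem_range.2 htn)]
        have e3 : deg (n + 1) h (h.2 : ℕ) = deg n h.1 h.2 + 1 := by
          show deg n h.1 h.2 + (if (h.2 : ℕ) = n then 1 else 0) + (if (h.2 : ℕ) = (h.2 : ℕ) then 1 else 0) = _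
          rw [if_neg ht, if_pos rfl]
        have e4 : ∏ v ∈ (range n).erase (h.2 : ℕ), ((deg (n + 1) h v - 1).factorial : ℝ) =
            ∏ v ∈ (range n).erase (h.2 : ℕ), ((deg n h.1 v - 1).factorial : ℝ) := by
          refine prod_congr rfl fun v hv => ?_
          rw [mem_erase, mem_range] at hv
          have : deg (n + 1) h v = deg n h.1 v := by
            show deg n h.1 v + (if v = n then 1 else 0) + (if v = (h.2 : ℕ) then 1 else 0) = _
            rw [if_neg (by omega), if_neg hv.1]
            rfl
          rw [this]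
        have e5 : ((deg (n + 1) h (h.2 : ℕ) - 1).factorial : ℝ) =
            ((deg n h.1 h.2 - 1).factorial : ℝ) * (deg n h.1 h.2 : ℝ) := by
          rw [e3]
          obtain ⟨m, hm⟩ : ∃ m, deg n h.1 h.2 = m + 1 := ⟨deg n h.1 h.2 - 1, by
            have := deg_pos n h.1 h.2 htn
            omega⟩
          rw [hm]
          simp only [Nat.add_sub_cancel]
          rw [Nat.factorial_succ]
          push_cast
          ring
        rw [e4, e5]
        ring
    rw [hp, hs, hj, ← h0]
    ring

theorem G_eq_law (θ : Param K) (n : ℕ) (h : Hist n) : G θ n h = law θ n h :=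
  sum_congr rfl fun l _ => steps_eq θ n h l

end basic

end Pool.Agent.H1.HP
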