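import Mathlib

/-!
# Elementary inequalities for the two replica process
-/

set_option autoImplicit false

namespace Pool.Agent.H1.HP

theorem cube_add (Y d : ℝ) : |Y + d| ^ 3 ≤ |Y| ^ 3 + 3 * Y * |Y| * d + 3 * |Y| * d ^ 2 + |d| ^ 3 := by
  rcases le_total 0 Y with hY | hY <;> rcases le_total 0 d with hd | hd <;> rcases le_total 0 (Y + d) with h | h
  · rw [abs_of_nonneg hY, abs_of_nonneg hd, abs_of_nonneg h]
    nlinarith
  · rw [abs_of_nonneg hY, abs_of_nonneg hd, abs_of_nonpos h]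
    have : Y = 0 := by linarith
    have : d = 0 := by linarith
    subst_vars
    simp
  · rw [abs_of_nonneg hY, abs_of_nonpos hd, abs_of_nonneg h]
    nlinarith [pow_nonneg (neg_nonneg.2 hd) 3]
  · rw [abs_of_nonneg hY, abs_of_nonpos hd, abs_of_nonpos h]
    nlinarith [pow_nonneg hY 3, mul_nonneg hY (neg_nonneg.2 hd), pow_nonneg (neg_nonneg.2 hd) 3,
      mul_nonneg (mul_nonneg hY hY) (neg_nonneg.2 h)]
  · rw [abs_of_nonpos hY, abs_of_nonneg hd, abs_of_nonneg h]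
    nlinarith [pow_nonneg (neg_nonneg.2 hY) 3, mul_nonneg hd (neg_nonneg.2 hY), pow_nonneg hd 3,
      mul_nonneg (mul_nonneg (neg_nonneg.2 hY) (neg_nonneg.2 hY)) h]
  · rw [abs_of_nonpos hY, abs_of_nonneg hd, abs_of_nonpos h]
    nlinarith [pow_nonneg hd 3]
  · rw [abs_of_nonpos hY, abs_of_nonpos hd, abs_of_nonneg h]
    have : Y = 0 := by linarith
    have : d = 0 := by linarith
    subst_vars
    simp
  · rw [abs_of_nonpos hY, abs_of_nonpos hd, abs_of_nonpos h]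
    nlinarith

theorem sq_sum_mul_le {a b c : ℝ} (ha : 0 ≤ a) (hb : 0 ≤ b) (hc : 0 ≤ c) :
    (a ^ 2 + b ^ 2 + c ^ 2) * (a + b + c) ≤ 3 * (a ^ 3 + b ^ 3 + c ^ 3) := by
  nlinarith [mul_nonneg (add_nonneg ha hb) (sq_nonneg (a - b)), mul_nonneg (add_nonneg hb hc) (sq_nonneg (b - c)),
    mul_nonneg (add_nonneg ha hc) (sq_nonneg (a - c))]

theorem prod_three_le {a b c : ℝ} (ha : 0 ≤ a) (hb : 0 ≤ b) (hc : 0 ≤ c) :
    a * b * c ≤ (a ^ 3 + b ^ 3 + c ^ 3) / 3 := by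
  nlinarith [mul_nonneg (add_nonneg (add_nonneg ha hb) hc)
    (add_nonneg (add_nonneg (sq_nonneg (a - b)) (sq_nonneg (b - c))) (sq_nonneg (a - c)))]

theorem young1 {a : ℝ} (ha : 0 ≤ a) : 60 * a ^ 2 ≤ a ^ 3 / 16 + 8192000 := by
  nlinarith [mul_nonneg (add_nonneg ha (by norm_num : (0:ℝ) ≤ 320)) (sq_nonneg (a - 640))]

theorem young2 {a q : ℝ} (ha : 0 ≤ a) (hq : 1 ≤ q) : 220 * a ≤ a ^ 3 / (16 * q ^ 2) + 5200 * q := by
  have hq0 : 0 < q := by linarith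
  rw [← sub_nonneg]
  have e : a ^ 3 / (16 * q ^ 2) + 5200 * q - 220 * a =
      (a ^ 3 + 83200 * q ^ 3 - 3520 * a * q ^ 2) / (16 * q ^ 2) := by
    field_simp
    ring
  rw [e]
  refine div_nonneg ?_ (by positivity)
  nlinarith [mul_nonneg (add_nonneg ha (by linarith : 0 ≤ 68 * q)) (sq_nonneg (a - 34 * q)),
    mul_nonneg ha (sq_nonneg q), pow_pos hq0 3, mul_nonneg (sq_nonneg (a - 35 * q)) hq0.le]

theorem S_le {a b c z : ℝ} (ha : 0 ≤ a) (hb : 0 ≤ b) (hc : 0 ≤ c) (haz : a ≤ 4 * z) (hbz : b ≤ 4 * z)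
    (hcz : c ≤ 4 * z) : a ^ 3 + b ^ 3 + c ^ 3 ≤ 192 * z ^ 3 := by
  have h1 := pow_le_pow_left₀ ha haz 3
  have h2 := pow_le_pow_left₀ hb hbz 3
  have h3 := pow_le_pow_left₀ hc hcz 3
  have e : (4 * z) ^ 3 = 64 * z ^ 3 := by ring
  rw [e] at h1 h2 h3
  linarith

theorem t4_le {t : ℝ} (ht0 : 0 ≤ t) (ht : t ≤ 1 / 10000) : t ^ 4 ≤ 1 / 10 ^ 16 := by
  have := pow_le_pow_left₀ ht0 ht 4
  norm_num at this ⊢
  linarith

theorem t2_le {t : ℝ} (ht0 : 0 ≤ t) (ht : t ≤ 1 / 10000) : t ^ 2 ≤ 1 / 10 ^ 8 := by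
  have := pow_le_pow_left₀ ht0 ht 2
  norm_num at this ⊢
  linarith

theorem eta_le {t z S : ℝ} (ht0 : 0 ≤ t) (ht : t ≤ 1 / 10000) (hz : 0 < z) (hS0 : 0 ≤ S) (hS : S ≤ 192 * z ^ 3) :
    50 * t ^ 4 * S / z ^ 3 ≤ 1 / 1000 := by
  have hz3 : 0 < z ^ 3 := by positivity
  rw [div_le_iff₀ hz3]
  have h1 : 50 * t ^ 4 * S ≤ 50 * (1 / 10 ^ 16) * (192 * z ^ 3) := by
    refine mul_le_mul ?_ hS hS0 (by norm_num)
    have := t4_le ht0 ht
    linarith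
  have h3 : 50 * (1 / 10 ^ 16) * (192 * z ^ 3) ≤ 1 / 1000 * z ^ 3 := by
    have e : 50 * (1 / 10 ^ 16) * (192 * z ^ 3) = (9600 / 10 ^ 16) * z ^ 3 := by ring
    rw [e]
    exact mul_le_mul_of_nonneg_right (by norm_num) hz3.le
  linarith

theorem eta_le' {t z S y lam : ℝ} (ht0 : 0 ≤ t) (ht : t ≤ 1 / 10000) (hz : 0 < z) (hS0 : 0 ≤ S)
    (hlam : lam = 1 / 10 ^ 10) (hy : 0 < y) (hy2 : 1 ≤ 9 * y * z ^ 2) :
    50 * t ^ 4 * S / z ^ 3 ≤ lam * y * ((1 / 10) * (S / z)) := by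
  have hs : 0 ≤ S / z := div_nonneg hS0 hz.le
  have h1 : 50 * t ^ 4 * S / z ^ 3 = 50 * t ^ 4 * (S / z) / z ^ 2 := by
    field_simp
  rw [h1, div_le_iff₀ (by positivity), hlam]
  have h3 : 50 * t ^ 4 * (S / z) ≤ 50 * (1 / 10 ^ 16) * (S / z) := by
    refine mul_le_mul_of_nonneg_right ?_ hs
    have := t4_le ht0 ht
    linarith
  have h4 : 50 * (1 / 10 ^ 16) * (S / z) ≤ 50 * (1 / 10 ^ 16) * (S / z) * (9 * y * z ^ 2) :=
    le_mul_of_one_le_right (by positivity) hy2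
  have h5 : 50 * (1 / 10 ^ 16) * (S / z) * (9 * y * z ^ 2) ≤ 1 / 10 ^ 10 * y * (1 / 10 * (S / z)) * z ^ 2 := by
    have e1 : 50 * (1 / 10 ^ 16) * (S / z) * (9 * y * z ^ 2) = (450 / 10 ^ 16) * ((S / z) * (y * z ^ 2)) := by ring
    have e2 : 1 / 10 ^ 10 * y * (1 / 10 * (S / z)) * z ^ 2 = (1 / 10 ^ 11) * ((S / z) * (y * z ^ 2)) := by ring
    rw [e1, e2]
    exact mul_le_mul_of_nonneg_right (by norm_num) (by positivity)
  linarith

theorem EU_le {a b c z q t E1 EU : ℝ} (ha : 0 ≤ a) (hb : 0 ≤ b) (hc : 0 ≤ c)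
    (hq : 1 ≤ q) (hz : z = q ^ 2) (hz1 : 1 ≤ z)
    (ht0 : 0 ≤ t) (ht : t ≤ 1 / 10000) (hE1u : E1 ≤ 1001 / 1000) (hE1l : 999 / 1000 ≤ E1)
    (hEU : EU ≤ 3 * (a ^ 3 + b ^ 3 + c ^ 3) / z + 3 * (a ^ 2 + b ^ 2 + c ^ 2) *
      (150 * t ^ 2 * (a + b + c) + 20) / z + E1 * (192 * (a + b + c) + 1536) -
      (4 * z + 4) / z ^ 2 * (a ^ 3 + b ^ 3 + c ^ 3) * E1) :
    EU ≤ - (3 / 4) * ((a ^ 3 + b ^ 3 + c ^ 3) / z) + 24600000 * q := by
  have hz0 : 0 < z := by linarith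
  have m1 := sq_sum_mul_le ha hb hc
  have y1 := young1 ha
  have y2 := young1 hb
  have y3 := young1 hc
  have n1 := young2 ha hq
  have n2 := young2 hb hq
  have n3 := young2 hc hq
  have e : (a ^ 3 + b ^ 3 + c ^ 3) / z / 16 = a ^ 3 / (16 * q ^ 2) + b ^ 3 / (16 * q ^ 2) + c ^ 3 / (16 * q ^ 2) := by
    rw [hz]
    field_simp
  have hS0 : 0 ≤ a ^ 3 + b ^ 3 + c ^ 3 := by positivity
  have hT0 : 0 ≤ a + b + c := by positivity
  have hR0 : 0 ≤ a ^ 2 + b ^ 2 + c ^ 2 := by positivity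
  have m2 : 60 * (a ^ 2 + b ^ 2 + c ^ 2) ≤ (a ^ 3 + b ^ 3 + c ^ 3) / 16 + 24576000 := by linarith
  have m2' : 220 * (a + b + c) ≤ (a ^ 3 + b ^ 3 + c ^ 3) / z / 16 + 15600 * q := by linarith
  clear y1 y2 y3 n1 n2 n3 e
  generalize a ^ 3 + b ^ 3 + c ^ 3 = S at *
  generalize a ^ 2 + b ^ 2 + c ^ 2 = R at *
  generalize a + b + c = T at *
  set s1 := S / z with hs1
  have hs10 : 0 ≤ s1 := div_nonneg hS0 hz0.le
  have hSz : S = s1 * z := by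
    rw [hs1]
    field_simp
  have k1 : 3 * S / z = 3 * s1 := by rw [hs1]; ring
  have k2 : 3 * R * (150 * t ^ 2 * T + 20) / z ≤ s1 / 1000 + s1 / 16 + 24576000 := by
    have m3 : 3 * R * (150 * t ^ 2 * T + 20) ≤ S / 1000 + S / 16 + 24576000 := by
      have : 3 * R * (150 * t ^ 2 * T) ≤ S / 1000 := by
        have e1 : 3 * R * (150 * t ^ 2 * T) = 450 * t ^ 2 * (R * T) := by ring
        rw [e1]
        have e2 : 450 * t ^ 2 * (R * T) ≤ 450 * (1 / 10 ^ 8) * (3 * S) := by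
          refine mul_le_mul ?_ m1 (by positivity) (by norm_num)
          have := t2_le ht0 ht
          linarith
        linarith
      linarith
    rw [div_le_iff₀ hz0]
    have m4 : (s1 / 1000 + s1 / 16 + 24576000) * z = S / 1000 + S / 16 + 24576000 * z := by
      rw [hSz]
      ring
    rw [m4]
    linarith
  have k3 : E1 * (192 * T + 1536) ≤ s1 / 16 + 15600 * q + 1700 := by
    have m1 : E1 * (192 * T + 1536) ≤ 1001 / 1000 * (192 * T + 1536) :=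
      mul_le_mul_of_nonneg_right hE1u (by positivity)
    linarith
  have k4 : 999 / 250 * s1 ≤ (4 * z + 4) / z ^ 2 * S * E1 := by
    have m1 : 4 * s1 ≤ (4 * z + 4) / z ^ 2 * S := by
      have e3 : (4 * z + 4) / z ^ 2 * S = 4 * s1 + 4 * s1 / z := by
        rw [hSz]
        field_simp
      rw [e3]
      have : 0 ≤ 4 * s1 / z := by positivity
      linarith
    calc 999 / 250 * s1 = 4 * s1 * (999 / 1000) := by ring
      _ ≤ (4 * z + 4) / z ^ 2 * S * E1 := mul_le_mul m1 hE1l (by norm_num) (by positivity)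
  linarith

theorem EU2_le {a b c z E1 EU2 : ℝ} (ha : 0 ≤ a) (hb : 0 ≤ b) (hc : 0 ≤ c)
    (hz1 : 1 ≤ z) (haz : a ≤ 4 * z) (hbz : b ≤ 4 * z) (hcz : c ≤ 4 * z)
    (hE1u : E1 ≤ 1001 / 1000) (hE1l : 999 / 1000 ≤ E1)
    (hEU2 : EU2 ≤ E1 * (3 * ((24 * (a ^ 2 + b ^ 2 + c ^ 2)) ^ 2 + (192 * (a + b + c) + 1536) ^ 2 +
      ((4 * z + 4) / z ^ 2 * (a ^ 3 + b ^ 3 + c ^ 3)) ^ 2))) :
    EU2 ≤ 722000 * z * (a ^ 3 + b ^ 3 + c ^ 3) + 16300000 := by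
  have hz0 : 0 < z := by linarith
  have hS192 := S_le ha hb hc haz hbz hcz
  have k1 : (24 * (a ^ 2 + b ^ 2 + c ^ 2)) ^ 2 ≤ 6912 * z * (a ^ 3 + b ^ 3 + c ^ 3) := by
    have m1 : (a ^ 2 + b ^ 2 + c ^ 2) ^ 2 ≤ 3 * (a ^ 4 + b ^ 4 + c ^ 4) := by
      have h1 := sq_nonneg (a ^ 2 - b ^ 2)
      have h2 := sq_nonneg (b ^ 2 - c ^ 2)
      have h3 := sq_nonneg (a ^ 2 - c ^ 2)
      linarith
    have m2 : ∀ u : ℝ, 0 ≤ u → u ≤ 4 * z → u ^ 4 ≤ 4 * z * u ^ 3 := by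
      intro u hu hu'
      have : 0 ≤ u ^ 3 := by positivity
      calc u ^ 4 = u * u ^ 3 := by ring
        _ ≤ 4 * z * u ^ 3 := mul_le_mul_of_nonneg_right hu' this
    have m3 := m2 a ha haz
    have m4 := m2 b hb hbz
    have m5 := m2 c hc hcz
    have e : 6912 * z * (a ^ 3 + b ^ 3 + c ^ 3) =
        576 * (3 * (4 * z * a ^ 3 + 4 * z * b ^ 3 + 4 * z * c ^ 3)) := by ring
    rw [e]
    calc (24 * (a ^ 2 + b ^ 2 + c ^ 2)) ^ 2 = 576 * (a ^ 2 + b ^ 2 + c ^ 2) ^ 2 := by ring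
      _ ≤ 576 * (3 * (a ^ 4 + b ^ 4 + c ^ 4)) := by linarith
      _ ≤ _ := by linarith
  have k2 : (192 * (a + b + c) + 1536) ^ 2 ≤ 221184 * z * (a ^ 3 + b ^ 3 + c ^ 3) + 5400000 := by
    have m1 : (a + b + c) ^ 2 ≤ 3 * (a ^ 2 + b ^ 2 + c ^ 2) := by
      have h1 := sq_nonneg (a - b)
      have h2 := sq_nonneg (b - c)
      have h3 := sq_nonneg (a - c)
      linarith
    have m2 : ∀ u : ℝ, 0 ≤ u → u ^ 2 ≤ u ^ 3 + 1 := by
      intro u hu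
      nlinarith [mul_nonneg hu (sq_nonneg (u - 1)), sq_nonneg (u - 1)]
    have m3 : a ^ 2 + b ^ 2 + c ^ 2 ≤ a ^ 3 + b ^ 3 + c ^ 3 + 3 := by
      have h1 := m2 a ha
      have h2 := m2 b hb
      have h3 := m2 c hc
      linarith
    have hS0 : 0 ≤ a ^ 3 + b ^ 3 + c ^ 3 := by positivity
    have m4 : a ^ 3 + b ^ 3 + c ^ 3 ≤ z * (a ^ 3 + b ^ 3 + c ^ 3) := le_mul_of_one_le_left hS0 hz1
    have m5 := sq_nonneg (192 * (a + b + c) - 1536)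
    have e : (192 * (a + b + c) + 1536) ^ 2 =
        2 * (192 * 192 * (a + b + c) ^ 2 + 1536 ^ 2) - (192 * (a + b + c) - 1536) ^ 2 := by ring
    rw [e]
    linarith
  have hS0 : 0 ≤ a ^ 3 + b ^ 3 + c ^ 3 := by positivity
  generalize (24 * (a ^ 2 + b ^ 2 + c ^ 2)) ^ 2 = P at *
  generalize (192 * (a + b + c) + 1536) ^ 2 = Q at *
  generalize a ^ 3 + b ^ 3 + c ^ 3 = S at *
  have k3 : ((4 * z + 4) / z ^ 2 * S) ^ 2 ≤ 12288 * z * S := by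
    have m1 : (4 * z + 4) / z ^ 2 * S ≤ 8 * (S / z) := by
      have e1 : 8 * (S / z) - (4 * z + 4) / z ^ 2 * S = 4 * (S / z ^ 2) * (z - 1) := by
        field_simp
        ring
      have e2 : 0 ≤ 4 * (S / z ^ 2) * (z - 1) := mul_nonneg (by positivity) (by linarith)
      linarith
    have m0 : 0 ≤ (4 * z + 4) / z ^ 2 * S := by positivity
    have m2 : ((4 * z + 4) / z ^ 2 * S) ^ 2 ≤ (8 * (S / z)) ^ 2 := pow_le_pow_left₀ m0 m1 2
    have m3 : (8 * (S / z)) ^ 2 = 64 * (S * (S / z ^ 2)) := by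
      field_simp
      ring
    have m4 : S / z ^ 2 ≤ 192 * z := by
      rw [div_le_iff₀ (by positivity)]
      calc S ≤ 192 * z ^ 3 := hS192
        _ = _ := by ring
    have m5 : S * (S / z ^ 2) ≤ S * (192 * z) := mul_le_mul_of_nonneg_left m4 hS0
    linarith
  have k4 : 3 * (P + Q + ((4 * z + 4) / z ^ 2 * S) ^ 2) ≤ 3 * (240384 * z * S + 5400000) := by linarith
  have k5 : 0 ≤ 3 * (240384 * z * S + 5400000) := by positivity
  have k6 : 0 ≤ z * S := by positivity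
  calc EU2 ≤ _ := hEU2
    _ ≤ E1 * (3 * (240384 * z * S + 5400000)) := mul_le_mul_of_nonneg_left k4 (by linarith)
    _ ≤ 1001 / 1000 * (3 * (240384 * z * S + 5400000)) := mul_le_mul_of_nonneg_right hE1u k5
    _ ≤ _ := by linarith

/-- the elementary core of the one step inequality -/
theorem final_ineq {a b c z q y lam t E1 EU EU2 : ℝ} (ha : 0 ≤ a) (hb : 0 ≤ b) (hc : 0 ≤ c)
    (hq : 1 ≤ q) (hz : z = q ^ 2) (haz : a ≤ 4 * z) (hbz : b ≤ 4 * z) (hcz : c ≤ 4 * z)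
    (hy : 0 < y) (hy1 : y * z ^ 2 ≤ 1) (hy2 : 1 ≤ 9 * y * z ^ 2)
    (ht0 : 0 ≤ t) (ht : t ≤ 1 / 10000) (hlam : lam = 1 / 10 ^ 10)
    (hE1 : |E1 - 1| ≤ 50 * t ^ 4 * (a ^ 3 + b ^ 3 + c ^ 3) / z ^ 3)
    (hEU : EU ≤ 3 * (a ^ 3 + b ^ 3 + c ^ 3) / z + 3 * (a ^ 2 + b ^ 2 + c ^ 2) *
      (150 * t ^ 2 * (a + b + c) + 20) / z + E1 * (192 * (a + b + c) + 1536) -
      (4 * z + 4) / z ^ 2 * (a ^ 3 + b ^ 3 + c ^ 3) * E1)
    (hEU2 : EU2 ≤ E1 * (3 * ((24 * (a ^ 2 + b ^ 2 + c ^ 2)) ^ 2 + (192 * (a + b + c) + 1536) ^ 2 +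
      ((4 * z + 4) / z ^ 2 * (a ^ 3 + b ^ 3 + c ^ 3)) ^ 2))) :
    E1 + lam * y * EU + lam ^ 2 * y ^ 2 * EU2 ≤ 1 + 25000000 * lam * (y * q) := by
  have hz1 : 1 ≤ z := by
    rw [hz]
    nlinarith
  have hz0 : 0 < z := by linarith
  have hS192 := S_le ha hb hc haz hbz hcz
  have hS0 : 0 ≤ a ^ 3 + b ^ 3 + c ^ 3 := by positivity
  have hη := eta_le ht0 ht hz0 hS0 hS192
  have hη' := eta_le' ht0 ht hz0 hS0 hlam hy hy2
  have hE := abs_le.1 hE1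
  have hE1u : E1 ≤ 1001 / 1000 := by linarith [hE.2]
  have hE1l : 999 / 1000 ≤ E1 := by linarith [hE.1]
  have hEU' := EU_le ha hb hc hq hz hz1 ht0 ht hE1u hE1l hEU
  have hEU2' := EU2_le ha hb hc hz1 haz hbz hcz hE1u hE1l hEU2
  have hE1y : E1 ≤ 1 + lam * y * ((1 / 10) * ((a ^ 3 + b ^ 3 + c ^ 3) / z)) := by linarith [hE.2]
  clear hE1 hEU hEU2 hη hη' hE hS192
  generalize a ^ 3 + b ^ 3 + c ^ 3 = S at *
  have hl0 : 0 < lam := by
    rw [hlam]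
    positivity
  have hly : 0 < lam * y := mul_pos hl0 hy
  set s1 := S / z with hs1
  have hs10 : 0 ≤ s1 := div_nonneg hS0 hz0.le
  have hSz : S = s1 * z := by
    rw [hs1]
    field_simp
  have c1 : lam * y * EU ≤ lam * y * (- (3 / 4) * s1 + 24600000 * q) := mul_le_mul_of_nonneg_left hEU' hly.le
  have c2 : lam ^ 2 * y ^ 2 * EU2 ≤ lam * y * ((1 / 1000) * s1 + 1) := by
    have m1 : lam ^ 2 * y ^ 2 * EU2 ≤ lam ^ 2 * y ^ 2 * (722000 * z * S + 16300000) :=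
      mul_le_mul_of_nonneg_left hEU2' (by positivity)
    have m2 : lam ^ 2 * y ^ 2 * (722000 * z * S + 16300000) =
        lam * y * (lam * (722000 * (y * z ^ 2) * s1 + 16300000 * y)) := by
      rw [hSz]
      ring
    have m3 : lam * (722000 * (y * z ^ 2) * s1 + 16300000 * y) ≤ (1 / 1000) * s1 + 1 := by
      have n1 : (y * z ^ 2) * s1 ≤ 1 * s1 := mul_le_mul_of_nonneg_right hy1 hs10
      have n2 : y ≤ 1 := by
        have h1 : 1 ≤ z ^ 2 := one_le_pow₀ hz1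
        have h2 : y * 1 ≤ y * z ^ 2 := mul_le_mul_of_nonneg_left h1 hy.le
        linarith
      have n3 : lam * (722000 * (y * z ^ 2) * s1 + 16300000 * y) ≤ lam * (722000 * s1 + 16300000) := by
        refine mul_le_mul_of_nonneg_left ?_ hl0.le
        linarith
      have n4 : lam * (722000 * s1 + 16300000) = (722000 / 10 ^ 10) * s1 + 16300000 / 10 ^ 10 := by
        rw [hlam]
        ring
      have n5 : (722000 / 10 ^ 10) * s1 ≤ (1 / 1000) * s1 := mul_le_mul_of_nonneg_right (by norm_num) hs10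
      have n6 : (16300000 : ℝ) / 10 ^ 10 ≤ 1 := by norm_num
      linarith
    rw [m2] at m1
    exact m1.trans (mul_le_mul_of_nonneg_left m3 hly.le)
  have c3 : lam * y * ((1 / 10) * s1) + lam * y * (- (3 / 4) * s1 + 24600000 * q) +
      lam * y * ((1 / 1000) * s1 + 1) ≤ 25000000 * lam * (y * q) := by
    have e : 25000000 * lam * (y * q) = lam * y * (25000000 * q) := by ring
    rw [e, ← mul_add, ← mul_add]
    refine mul_le_mul_of_nonneg_left ?_ hly.le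
    linarith
  linarith

end Pool.Agent.H1.HP
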