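import Pool.Agent.H1.HP.Step
import Pool.Agent.H1.HP.Final

/-!
# Drift of the two replica process
-/

set_option autoImplicit false

namespace Pool.Agent.H1.HP

open Finset

theorem sum4 (r r' f : Fin 2 → ℝ) (α β γ δ : ℝ) :
    ∑ k, ∑ k', r k * r' k' * (α + β * f k + γ * f k' + δ * (f k * f k')) =
      α * ((r 0 + r 1) * (r' 0 + r' 1)) + β * ((r 0 * f 0 + r 1 * f 1) * (r' 0 + r' 1)) +
      γ * ((r 0 + r 1) * (r' 0 * f 0 + r' 1 * f 1)) +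
      δ * ((r 0 * f 0 + r 1 * f 1) * (r' 0 * f 0 + r' 1 * f 1)) := by
  simp only [Fin.sum_univ_two]
  ring

section

variable (B : Bal) {ι : Type*} [Fintype ι] (μ x x' e : ι → ℝ) (ψ ψ' ω : ℝ)

/-- the weights -/
noncomputable def wt (a : ι) (k k' : Fin 2) : ℝ := μ a * (B.r ψ (x a) k * B.r ψ' (x' a) k')

variable {μ x x' e ψ ψ' ω}
variable (hμ0 : ∀ a, 0 ≤ μ a) (hμ1 : ∑ a, μ a = 1) (hx : ∀ a, |x a| ≤ 2) (hx' : ∀ a, |x' a| ≤ 2)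
  (hψ : ∑ a, μ a * x a = ψ) (hψ' : ∑ a, μ a * x' a = ψ') (hω : ∑ a, μ a * (x a * x' a) = ω)
  (he0 : ∀ a, 0 ≤ e a)

include hμ0 hμ1 hx hψ in
theorem psi_le : |ψ| ≤ 2 := by
  rw [← hψ]
  exact wsum_abs hμ0 hμ1 hx

include hμ0 hμ1 hx hx' hω in
theorem omega_le : |ω| ≤ 4 := by
  rw [← hω]
  refine wsum_abs hμ0 hμ1 fun a => ?_
  rw [abs_mul]
  have := mul_le_mul (hx a) (hx' a) (abs_nonneg _) (by norm_num)
  linarith

theorem sum_wt (α β γ δ : ι → ℝ) (h1 : |ψ| ≤ 2) (h2 : |ψ'| ≤ 2) :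
    ∑ a, ∑ k, ∑ k', wt B μ x x' ψ ψ' a k k' * (α a + β a * B.f k + γ a * B.f k' + δ a * (B.f k * B.f k')) =
      ∑ a, μ a * (α a * (B.g ψ (x a) * B.g ψ' (x' a)) + β a * (B.h ψ (x a) * B.g ψ' (x' a)) +
        γ a * (B.g ψ (x a) * B.h ψ' (x' a)) + δ a * (B.h ψ (x a) * B.h ψ' (x' a))) := by
  refine sum_congr rfl fun a _ => ?_
  have h := sum4 (B.r ψ (x a)) (B.r ψ' (x' a)) B.f (α a) (β a) (γ a) (δ a)
  rw [B.sum_r h1, B.sum_r h2, B.sum_rf h1, B.sum_rf h2] at h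
  rw [← h, mul_sum]
  refine sum_congr rfl fun k _ => ?_
  rw [mul_sum]
  refine sum_congr rfl fun k' _ => ?_
  unfold wt
  ring

include hμ1 hψ in
theorem sum_h : ∑ a, μ a * B.h ψ (x a) = 0 := by
  unfold Bal.h
  have : ∀ a, μ a * (B.t * B.C ψ * (x a - ψ)) = B.t * B.C ψ * (μ a * x a) - B.t * B.C ψ * ψ * μ a := fun a => by ring
  rw [sum_congr rfl fun a _ => this a, sum_sub_distrib, ← mul_sum, ← mul_sum, hψ, hμ1]
  ring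

include hμ1 hψ in
theorem sum_g_sub : ∑ a, μ a * (B.g ψ (x a) - 1) = 0 := by
  have : ∀ a, μ a * (B.g ψ (x a) - 1) = (- B.t * ψ) * (μ a * B.h ψ (x a)) := by
    intro a
    unfold Bal.g Bal.h
    ring
  rw [sum_congr rfl fun a _ => this a, ← mul_sum, sum_h B hμ1 hψ, mul_zero]

include hμ0 hμ1 hx hx' hψ hψ' hω in
theorem mass_bound : |∑ a, ∑ k, ∑ k', wt B μ x x' ψ ψ' a k k' - 1| ≤
    50 * B.t ^ 4 * (|ψ| ^ 3 + |ψ'| ^ 3 + |ω| ^ 3) := by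
  have h1 := psi_le hμ0 hμ1 hx hψ
  have h2 := psi_le hμ0 hμ1 hx' hψ'
  have e1 := sum_wt B (μ := μ) (x := x) (x' := x') (fun _ => 1) (fun _ => 0) (fun _ => 0) (fun _ => 0) h1 h2
  simp only [zero_mul, add_zero, mul_one, one_mul] at e1
  rw [e1]
  have e2 : ∑ a, μ a * (B.g ψ (x a) * B.g ψ' (x' a)) - 1 =
      B.t ^ 4 * ψ * ψ' * B.C ψ * B.C ψ' * (ω - ψ * ψ') := by
    have h3 : ∀ a, μ a * (B.g ψ (x a) * B.g ψ' (x' a)) = μ a * (B.g ψ (x a) - 1) + μ a * (B.g ψ' (x' a) - 1) +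
        μ a + (B.t ^ 4 * ψ * ψ' * B.C ψ * B.C ψ') * (μ a * (x a * x' a)) -
        (B.t ^ 4 * ψ * ψ' * B.C ψ * B.C ψ') * ψ' * (μ a * x a) -
        (B.t ^ 4 * ψ * ψ' * B.C ψ * B.C ψ') * ψ * (μ a * x' a) +
        (B.t ^ 4 * ψ * ψ' * B.C ψ * B.C ψ') * ψ * ψ' * μ a := by
      intro a
      unfold Bal.g
      ring
    rw [sum_congr rfl fun a _ => h3 a, sum_add_distrib, sum_sub_distrib, sum_sub_distrib, sum_add_distrib,
      sum_add_distrib, sum_add_distrib, sum_g_sub B hμ1 hψ, sum_g_sub B hμ1 hψ', ← mul_sum, ← mul_sum, ← mul_sum,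
      ← mul_sum, hψ, hψ', hω, hμ1]
    ring
  rw [e2, abs_mul, abs_mul, abs_mul, abs_mul, abs_mul, abs_of_nonneg (B.C_nonneg h1), abs_of_nonneg (B.C_nonneg h2),
    abs_of_nonneg (by positivity : 0 ≤ B.t ^ 4)]
  have hC : B.C ψ * B.C ψ' ≤ 5 * 5 := mul_le_mul (B.C_le h1) (B.C_le h2) (B.C_nonneg h2) (by norm_num)
  have hC0 : 0 ≤ B.C ψ * B.C ψ' := mul_nonneg (B.C_nonneg h1) (B.C_nonneg h2)
  have ht4 : 0 ≤ B.t ^ 4 := by positivity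
  have h4 : |ω - ψ * ψ'| ≤ |ω| + |ψ| * |ψ'| := by
    rw [← abs_mul]
    exact abs_sub _ _
  have h5 : |ψ| * |ψ'| * |ω - ψ * ψ'| ≤ 2 * (|ψ| ^ 3 + |ψ'| ^ 3 + |ω| ^ 3) := by
    have k1 := prod_three_le (abs_nonneg ψ) (abs_nonneg ψ') (abs_nonneg ω)
    have k2 : |ψ| ^ 2 * |ψ'| ^ 2 ≤ |ψ| ^ 3 + |ψ'| ^ 3 := by
      have m1 : |ψ| ^ 4 ≤ 2 * |ψ| ^ 3 := by
        have : 0 ≤ |ψ| ^ 3 := by positivity
        nlinarith
      have m2 : |ψ'| ^ 4 ≤ 2 * |ψ'| ^ 3 := by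
        have : 0 ≤ |ψ'| ^ 3 := by positivity
        nlinarith
      nlinarith [sq_nonneg (|ψ| ^ 2 - |ψ'| ^ 2)]
    have k3 : |ψ| * |ψ'| * |ω - ψ * ψ'| ≤ |ψ| * |ψ'| * (|ω| + |ψ| * |ψ'|) :=
      mul_le_mul_of_nonneg_left h4 (by positivity)
    have k4 : 0 ≤ |ψ| ^ 3 := by positivity
    have k5 : 0 ≤ |ψ'| ^ 3 := by positivity
    have k6 : 0 ≤ |ω| ^ 3 := by positivity
    have k7 : |ψ| * |ψ'| * (|ω| + |ψ| * |ψ'|) = |ψ| * |ψ'| * |ω| + |ψ| ^ 2 * |ψ'| ^ 2 := by ring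
    linarith
  have h6 : 0 ≤ |ψ| * |ψ'| * |ω - ψ * ψ'| := by positivity
  calc B.t ^ 4 * |ψ| * |ψ'| * B.C ψ * B.C ψ' * |ω - ψ * ψ'| =
      B.t ^ 4 * ((B.C ψ * B.C ψ') * (|ψ| * |ψ'| * |ω - ψ * ψ'|)) := by ring
    _ ≤ B.t ^ 4 * ((5 * 5) * (2 * (|ψ| ^ 3 + |ψ'| ^ 3 + |ω| ^ 3))) := by
        refine mul_le_mul_of_nonneg_left ?_ ht4
        exact mul_le_mul hC h5 h6 (by norm_num)
    _ = _ := by ring

theorem gh_bounds (hψ : |ψ| ≤ 2) (hψ' : |ψ'| ≤ 2) {u u' : ℝ} (hu : |u| ≤ 2) (hu' : |u'| ≤ 2) :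
    |u * (B.g ψ u - 1) + (u * B.g ψ u + B.h ψ u) * (B.g ψ' u' - 1)| ≤ 50 * B.t ^ 2 * (|ψ| + |ψ'|) ∧
    |(B.h ψ u - u * B.g ψ u) * B.g ψ' u'| ≤ 3 ∧
    |u * u' * (B.g ψ u * B.g ψ' u' - 1)| ≤ 84 * B.t ^ 2 * (|ψ| + |ψ'|) ∧
    |B.h ψ u * B.h ψ' u' - u * u' * (B.g ψ u * B.g ψ' u')| ≤ 5 := by
  have g1 := B.g_sub hψ hu
  have g2 := B.g_sub hψ' hu'
  have a1 := B.g_abs hψ hu
  have a2 := B.g_abs hψ' hu'
  have b1 := B.h_abs hψ hu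
  have b2 := B.h_abs hψ' hu'
  have ht : 0 ≤ B.t ^ 2 := sq_nonneg _
  have p1 : 0 ≤ B.t ^ 2 * |ψ| := by positivity
  have p2 : 0 ≤ B.t ^ 2 * |ψ'| := by positivity
  have ug : |u * B.g ψ u| ≤ 2 * (1001 / 1000) := by
    rw [abs_mul]
    exact mul_le_mul hu a1 (abs_nonneg _) (by norm_num)
  refine ⟨?_, ?_, ?_, ?_⟩
  · have c1 : |u * (B.g ψ u - 1)| ≤ 2 * (20 * B.t ^ 2 * |ψ|) := by
      rw [abs_mul]
      exact mul_le_mul hu g1 (abs_nonneg _) (by norm_num)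
    have c2 : |u * B.g ψ u + B.h ψ u| ≤ 2 * (1001 / 1000) + 1 / 500 := (abs_add_le _ _).trans (add_le_add ug b1)
    have c3 : |(u * B.g ψ u + B.h ψ u) * (B.g ψ' u' - 1)| ≤ (2 * (1001 / 1000) + 1 / 500) * (20 * B.t ^ 2 * |ψ'|) := by
      rw [abs_mul]
      exact mul_le_mul c2 g2 (abs_nonneg _) (by norm_num)
    have c4 := abs_add_le (u * (B.g ψ u - 1)) ((u * B.g ψ u + B.h ψ u) * (B.g ψ' u' - 1))
    nlinarith
  · rw [abs_mul]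
    have c1 : |B.h ψ u - u * B.g ψ u| ≤ 1 / 500 + 2 * (1001 / 1000) := (abs_sub _ _).trans (add_le_add b1 ug)
    have c2 := mul_le_mul c1 a2 (abs_nonneg _) (by norm_num)
    linarith
  · have c1 : |B.g ψ u * B.g ψ' u' - 1| ≤ (20 * B.t ^ 2 * |ψ|) * (1001 / 1000) + 20 * B.t ^ 2 * |ψ'| := by
      have e : B.g ψ u * B.g ψ' u' - 1 = (B.g ψ u - 1) * B.g ψ' u' + (B.g ψ' u' - 1) := by ring
      rw [e]
      refine (abs_add_le _ _).trans (add_le_add ?_ g2)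
      rw [abs_mul]
      exact mul_le_mul g1 a2 (abs_nonneg _) (by positivity)
    have c2 : |u * u'| ≤ 2 * 2 := by
      rw [abs_mul]
      exact mul_le_mul hu hu' (abs_nonneg _) (by norm_num)
    rw [abs_mul]
    have c3 := mul_le_mul c2 c1 (abs_nonneg _) (by norm_num)
    nlinarith
  · have c1 : |B.h ψ u * B.h ψ' u'| ≤ 1 / 500 * (1 / 500) := by
      rw [abs_mul]
      exact mul_le_mul b1 b2 (abs_nonneg _) (by norm_num)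
    have c2 : |u * u' * (B.g ψ u * B.g ψ' u')| ≤ 2 * 2 * (1001 / 1000 * (1001 / 1000)) := by
      rw [abs_mul, abs_mul, abs_mul]
      exact mul_le_mul (mul_le_mul hu hu' (abs_nonneg _) (by norm_num)) (mul_le_mul a1 a2 (abs_nonneg _) (by norm_num))
        (by positivity) (by norm_num)
    have c3 := abs_sub (B.h ψ u * B.h ψ' u') (u * u' * (B.g ψ u * B.g ψ' u'))
    linarith

include hμ0 hμ1 hx hx' hψ hψ' he0 in
theorem drift_one {d : ℝ} (hd : ∑ a, μ a * e a ≤ d) :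
    |∑ a, ∑ k, ∑ k', wt B μ x x' ψ ψ' a k k' * (x a + B.f k + e a * (B.f k - x a)) - ψ| ≤
      50 * B.t ^ 2 * (|ψ| + |ψ'|) + d * 3 := by
  have h1 := psi_le hμ0 hμ1 hx hψ
  have h2 := psi_le hμ0 hμ1 hx' hψ'
  have e1 := sum_wt B (μ := μ) (x := x) (x' := x') (fun a => x a - e a * x a) (fun a => 1 + e a) (fun _ => 0)
    (fun _ => 0) h1 h2
  have e0 : ∑ a, ∑ k, ∑ k', wt B μ x x' ψ ψ' a k k' * (x a + B.f k + e a * (B.f k - x a)) =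
      ∑ a, ∑ k, ∑ k', wt B μ x x' ψ ψ' a k k' * ((x a - e a * x a) + (1 + e a) * B.f k + 0 * B.f k' +
        0 * (B.f k * B.f k')) := by
    refine sum_congr rfl fun a _ => sum_congr rfl fun k _ => sum_congr rfl fun k' _ => ?_
    ring
  rw [e0, e1]
  have e2 : ∑ a, μ a * ((x a - e a * x a) * (B.g ψ (x a) * B.g ψ' (x' a)) +
      (1 + e a) * (B.h ψ (x a) * B.g ψ' (x' a)) + 0 * (B.g ψ (x a) * B.h ψ' (x' a)) +
      0 * (B.h ψ (x a) * B.h ψ' (x' a))) - ψ =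
      ∑ a, μ a * (x a * (B.g ψ (x a) - 1) + (x a * B.g ψ (x a) + B.h ψ (x a)) * (B.g ψ' (x' a) - 1)) +
      ∑ a, μ a * (e a * ((B.h ψ (x a) - x a * B.g ψ (x a)) * B.g ψ' (x' a))) := by
    have h3 : ∀ a, μ a * ((x a - e a * x a) * (B.g ψ (x a) * B.g ψ' (x' a)) +
        (1 + e a) * (B.h ψ (x a) * B.g ψ' (x' a)) + 0 * (B.g ψ (x a) * B.h ψ' (x' a)) +
        0 * (B.h ψ (x a) * B.h ψ' (x' a))) = μ a * x a + μ a * B.h ψ (x a) +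
        (μ a * (x a * (B.g ψ (x a) - 1) + (x a * B.g ψ (x a) + B.h ψ (x a)) * (B.g ψ' (x' a) - 1)) +
        μ a * (e a * ((B.h ψ (x a) - x a * B.g ψ (x a)) * B.g ψ' (x' a)))) := fun a => by ring
    rw [sum_congr rfl fun a _ => h3 a, sum_add_distrib, sum_add_distrib, sum_add_distrib, sum_h B hμ1 hψ, hψ]
    ring
  rw [e2]
  refine (abs_add_le _ _).trans (add_le_add ?_ ?_)
  · exact wsum_abs hμ0 hμ1 fun a => (gh_bounds B h1 h2 (hx a) (hx' a)).1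
  · exact wsum_abs' hμ0 he0 hd (by norm_num) fun a => (gh_bounds B h1 h2 (hx a) (hx' a)).2.1

include hμ0 hμ1 hx hx' hψ hψ' hω he0 in
theorem drift_three {d : ℝ} (hd : ∑ a, μ a * e a ≤ d) :
    |∑ a, ∑ k, ∑ k', wt B μ x x' ψ ψ' a k k' * (x a * x' a + B.f k * B.f k' + e a * (B.f k * B.f k' - x a * x' a)) -
      ω| ≤ 150 * B.t ^ 2 * (|ψ| + |ψ'| + |ω|) + d * 5 := by
  have h1 := psi_le hμ0 hμ1 hx hψ
  have h2 := psi_le hμ0 hμ1 hx' hψ'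
  have e1 := sum_wt B (μ := μ) (x := x) (x' := x') (fun a => (1 - e a) * (x a * x' a)) (fun _ => 0) (fun _ => 0)
    (fun a => 1 + e a) h1 h2
  have e0 : ∑ a, ∑ k, ∑ k', wt B μ x x' ψ ψ' a k k' *
      (x a * x' a + B.f k * B.f k' + e a * (B.f k * B.f k' - x a * x' a)) =
      ∑ a, ∑ k, ∑ k', wt B μ x x' ψ ψ' a k k' * ((1 - e a) * (x a * x' a) + 0 * B.f k + 0 * B.f k' +
        (1 + e a) * (B.f k * B.f k')) := by
    refine sum_congr rfl fun a _ => sum_congr rfl fun k _ => sum_congr rfl fun k' _ => ?_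
    ring
  rw [e0, e1]
  have e2 : ∑ a, μ a * ((1 - e a) * (x a * x' a) * (B.g ψ (x a) * B.g ψ' (x' a)) +
      0 * (B.h ψ (x a) * B.g ψ' (x' a)) + 0 * (B.g ψ (x a) * B.h ψ' (x' a)) +
      (1 + e a) * (B.h ψ (x a) * B.h ψ' (x' a))) - ω =
      ∑ a, μ a * (x a * x' a * (B.g ψ (x a) * B.g ψ' (x' a) - 1)) +
      B.t ^ 2 * (B.C ψ * B.C ψ') * (ω - ψ * ψ') +
      ∑ a, μ a * (e a * (B.h ψ (x a) * B.h ψ' (x' a) - x a * x' a * (B.g ψ (x a) * B.g ψ' (x' a)))) := by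
    have h3 : ∀ a, μ a * ((1 - e a) * (x a * x' a) * (B.g ψ (x a) * B.g ψ' (x' a)) +
        0 * (B.h ψ (x a) * B.g ψ' (x' a)) + 0 * (B.g ψ (x a) * B.h ψ' (x' a)) +
        (1 + e a) * (B.h ψ (x a) * B.h ψ' (x' a))) =
        μ a * (x a * x' a) + μ a * (x a * x' a * (B.g ψ (x a) * B.g ψ' (x' a) - 1)) +
        (B.t ^ 2 * (B.C ψ * B.C ψ') * (μ a * (x a * x' a)) - B.t ^ 2 * (B.C ψ * B.C ψ') * ψ' * (μ a * x a) -
          B.t ^ 2 * (B.C ψ * B.C ψ') * ψ * (μ a * x' a) + B.t ^ 2 * (B.C ψ * B.C ψ') * ψ * ψ' * μ a) +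
        μ a * (e a * (B.h ψ (x a) * B.h ψ' (x' a) - x a * x' a * (B.g ψ (x a) * B.g ψ' (x' a)))) := by
      intro a
      unfold Bal.h
      ring
    rw [sum_congr rfl fun a _ => h3 a, sum_add_distrib, sum_add_distrib, sum_add_distrib, sum_add_distrib,
      sum_sub_distrib, sum_sub_distrib, ← mul_sum, ← mul_sum, ← mul_sum, ← mul_sum, hψ, hψ', hω, hμ1]
    ring
  rw [e2]
  have k1 : |∑ a, μ a * (x a * x' a * (B.g ψ (x a) * B.g ψ' (x' a) - 1))| ≤ 84 * B.t ^ 2 * (|ψ| + |ψ'|) :=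
    wsum_abs hμ0 hμ1 fun a => (gh_bounds B h1 h2 (hx a) (hx' a)).2.2.1
  have k2 : |∑ a, μ a * (e a * (B.h ψ (x a) * B.h ψ' (x' a) - x a * x' a * (B.g ψ (x a) * B.g ψ' (x' a))))| ≤ d * 5 :=
    wsum_abs' hμ0 he0 hd (by norm_num) fun a => (gh_bounds B h1 h2 (hx a) (hx' a)).2.2.2
  have k3 : |B.t ^ 2 * (B.C ψ * B.C ψ') * (ω - ψ * ψ')| ≤ 25 * B.t ^ 2 * (|ω| + 2 * |ψ|) := by
    rw [abs_mul, abs_mul, abs_mul, abs_of_nonneg (B.C_nonneg h1), abs_of_nonneg (B.C_nonneg h2),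
      abs_of_nonneg (sq_nonneg B.t)]
    have hC : B.C ψ * B.C ψ' ≤ 5 * 5 := mul_le_mul (B.C_le h1) (B.C_le h2) (B.C_nonneg h2) (by norm_num)
    have h4 : |ω - ψ * ψ'| ≤ |ω| + 2 * |ψ| := by
      have m1 := abs_sub ω (ψ * ψ')
      rw [abs_mul] at m1
      nlinarith [abs_nonneg ψ]
    have h5 := mul_le_mul hC h4 (abs_nonneg _) (by norm_num)
    calc B.t ^ 2 * (B.C ψ * B.C ψ') * |ω - ψ * ψ'| = B.t ^ 2 * ((B.C ψ * B.C ψ') * |ω - ψ * ψ'|) := by ring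
      _ ≤ B.t ^ 2 * (5 * 5 * (|ω| + 2 * |ψ|)) := mul_le_mul_of_nonneg_left h5 (sq_nonneg _)
      _ = _ := by ring
  have k4 := abs_add_le (∑ a, μ a * (x a * x' a * (B.g ψ (x a) * B.g ψ' (x' a) - 1)) +
    B.t ^ 2 * (B.C ψ * B.C ψ') * (ω - ψ * ψ'))
    (∑ a, μ a * (e a * (B.h ψ (x a) * B.h ψ' (x' a) - x a * x' a * (B.g ψ (x a) * B.g ψ' (x' a)))))
  have k5 := abs_add_le (∑ a, μ a * (x a * x' a * (B.g ψ (x a) * B.g ψ' (x' a) - 1)))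
    (B.t ^ 2 * (B.C ψ * B.C ψ') * (ω - ψ * ψ'))
  have p1 : 0 ≤ B.t ^ 2 * |ψ| := by positivity
  have p2 : 0 ≤ B.t ^ 2 * |ψ'| := by positivity
  have p3 : 0 ≤ B.t ^ 2 * |ω| := by positivity
  nlinarith

end

end Pool.Agent.H1.HP
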