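import Pool.Agent.H1.HP.Chi

/-!
# The law of the history in a balanced model is close to the reference law
-/

set_option autoImplicit false

namespace Pool.Agent.H1.HP

open Finset

theorem telescope {z : ℝ} (hz : 1 ≤ z) :
    1 / (z + 2) ^ 2 * Real.sqrt z ≤ 1 / Real.sqrt z - 1 / Real.sqrt (z + 2) := by
  have h0 : 0 < Real.sqrt z := Real.sqrt_pos.2 (by linarith)
  have h1 : 0 < Real.sqrt (z + 2) := Real.sqrt_pos.2 (by linarith)
  have h2 : Real.sqrt z ≤ Real.sqrt (z + 2) := Real.sqrt_le_sqrt (by linarith)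
  have h3 : Real.sqrt z ^ 2 = z := Real.sq_sqrt (by linarith)
  have h4 : Real.sqrt (z + 2) ^ 2 = z + 2 := Real.sq_sqrt (by linarith)
  set a := Real.sqrt z with ha
  set b := Real.sqrt (z + 2) with hb
  have hz2 : z + 2 = b ^ 2 := h4.symm
  rw [hz2]
  have e : 1 / a - 1 / b = (b ^ 2 - a ^ 2) / (a * b * (a + b)) := by
    field_simp
    ring
  have hab : b ^ 2 - a ^ 2 = 2 := by
    rw [h3, h4]
    ring
  rw [e, hab, one_div, ← div_eq_inv_mul, div_le_div_iff₀ (by positivity) (by positivity)]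
  have m1 : a * (a * b * (a + b)) ≤ b * (b * b * (b + b)) := by
    refine mul_le_mul h2 ?_ (by positivity) h1.le
    refine mul_le_mul ?_ (by linarith) (by positivity) (by positivity)
    exact mul_le_mul_of_nonneg_right h2 h1.le
  calc a * (a * b * (a + b)) ≤ b * (b * b * (b + b)) := m1
    _ = 2 * (b ^ 2) ^ 2 := by ring

variable {B : Bal}

theorem Phi_nonneg (lam : ℝ) (n : ℕ) : 0 ≤ Phi B lam n :=
  sum_nonneg fun h _ => sum_nonneg fun l _ => sum_nonneg fun l' _ =>
    mul_nonneg (VV_nonneg n h l l') (Real.exp_pos _).le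

theorem Phi_le {lam : ℝ} (hlam : lam = 1 / 10 ^ 10) (n : ℕ) :
    Phi B lam n ≤ Real.exp (3 * lam + 25000000 * lam * (1 - 1 / Real.sqrt (zz B.th n))) := by
  have hl0 : 0 < lam := by
    rw [hlam]
    positivity
  induction n with
  | zero =>
    have h1 : Phi B lam 0 = Real.exp (EE B lam 0 () () ()) := by
      show ∑ _h : Unit, ∑ _l : Unit, ∑ _l' : Unit, (1 * 1 / 1) * Real.exp (EE B lam 0 () () ()) = _
      simp
    rw [h1, Real.exp_le_exp]
    have h2 : EE B lam 0 () () () ≤ 3 * lam := by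
      have hz1 := zz_ge B.th_nonneg 0
      have hG : GG B 0 () () = B.m := by
        unfold GG tot
        simp
      have hW : WW B 0 () () () = B.m ^ 2 / (1 + B.th) := by
        unfold WW
        simp
      unfold EE
      rw [hG, hW, div_le_iff₀ (by positivity)]
      have k1 : |B.m| ^ 3 ≤ 1 := pow_le_one₀ (abs_nonneg _) B.m_le
      have k2 : |B.m ^ 2 / (1 + B.th)| ≤ 1 := by
        have h3 := B.th_nonneg
        rw [abs_div, abs_of_pos (by linarith : 0 < 1 + B.th), div_le_one (by linarith), abs_pow]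
        have := pow_le_one₀ (n := 2) (abs_nonneg _) B.m_le
        linarith
      have k3 : |B.m ^ 2 / (1 + B.th)| ^ 3 ≤ 1 := pow_le_one₀ (abs_nonneg _) k2
      have k4 : 1 ≤ zz B.th 0 ^ 2 := one_le_pow₀ hz1
      have k5 : lam * (|B.m| ^ 3 + |B.m| ^ 3 + |B.m ^ 2 / (1 + B.th)| ^ 3) ≤ lam * 3 :=
        mul_le_mul_of_nonneg_left (by linarith) hl0.le
      have k6 : lam * 3 * 1 ≤ lam * 3 * zz B.th 0 ^ 2 := mul_le_mul_of_nonneg_left k4 (by positivity)
      linarith
    have h3 : 1 / Real.sqrt (zz B.th 0) ≤ 1 := by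
      have : 1 ≤ Real.sqrt (zz B.th 0) := by
        rw [Real.one_le_sqrt]
        exact zz_ge B.th_nonneg 0
      rw [div_le_one (by linarith)]
      exact this
    have h4 : 0 ≤ 25000000 * lam * (1 - 1 / Real.sqrt (zz B.th 0)) := mul_nonneg (by positivity) (by linarith)
    linarith
  | succ n ih =>
    have hz1 := zz_ge B.th_nonneg n
    have hzs : zz B.th (n + 1) = zz B.th n + 2 := by
      unfold zz
      push_cast
      ring
    have h1 := Phi_succ (B := B) hlam n
    have h2 := telescope hz1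
    rw [← hzs] at h2
    have h3 : 1 + 25000000 * lam * (1 / zz B.th (n + 1) ^ 2 * Real.sqrt (zz B.th n)) ≤
        Real.exp (25000000 * lam * (1 / Real.sqrt (zz B.th n) - 1 / Real.sqrt (zz B.th (n + 1)))) := by
      refine le_trans ?_ (Real.add_one_le_exp _)
      rw [add_comm]
      refine add_le_add_left ?_ _
      exact mul_le_mul_of_nonneg_left h2 (by positivity)
    rw [← hzs] at h1
    refine h1.trans ?_
    refine (mul_le_mul h3 ih (Phi_nonneg lam n) (Real.exp_pos _).le).trans (le_of_eq ?_)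
    rw [← Real.exp_add]
    congr 1
    ring

theorem sum_VV_le (n : ℕ) : ∑ h, ∑ l, ∑ l', VV B n h l l' ≤ 1 + 1 / 300 := by
  have h1 := Phi_le (B := B) (lam := 1 / 10 ^ 10) rfl n
  have h2 : ∑ h, ∑ l, ∑ l', VV B n h l l' ≤ Phi B (1 / 10 ^ 10) n := by
    refine sum_le_sum fun h _ => sum_le_sum fun l _ => sum_le_sum fun l' _ => ?_
    refine le_mul_of_one_le_right (VV_nonneg n h l l') ?_
    rw [Real.one_le_exp_iff]
    unfold EE
    have := zz_pos B.th_nonneg n
    positivity
  have h3 : 3 * (1 / 10 ^ 10 : ℝ) + 25000000 * (1 / 10 ^ 10) * (1 - 1 / Real.sqrt (zz B.th n)) ≤ 26 / 10 ^ 4 := by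
    have : 0 ≤ 1 / Real.sqrt (zz B.th n) := by positivity
    generalize 1 / Real.sqrt (zz B.th n) = u at *
    linarith
  have h4 : Real.exp (26 / 10 ^ 4) ≤ 1 + 1 / 300 := by
    have h5 := Real.abs_exp_sub_one_sub_id_le (x := 26 / 10 ^ 4) (by rw [abs_of_pos (by positivity)]; norm_num)
    have h6 := (abs_le.1 h5).2
    norm_num at h6 ⊢
    linarith
  exact h2.trans (h1.trans ((Real.exp_le_exp.2 h3).trans h4))

theorem sum_law_sq (n : ℕ) : ∑ h, law B.param n h ^ 2 / QQ B.th n h ≤ 1 + 1 / 300 := by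
  refine le_trans (le_of_eq ?_) (sum_VV_le (B := B) n)
  refine sum_congr rfl fun h _ => ?_
  unfold law VV
  rw [sq, sum_mul_sum, sum_div]
  refine sum_congr rfl fun l _ => ?_
  rw [sum_div]

theorem tv_bound (n : ℕ) : ∑ h, |law B.param n h - QQ B.th n h| ≤ 1 / 17 := by
  have hQ : ∀ h, 0 < QQ B.th n h := QQ_pos B.th_nonneg n
  have h1 : (∑ h, |law B.param n h - QQ B.th n h|) ^ 2 ≤
      (∑ h, QQ B.th n h) * ∑ h, |law B.param n h - QQ B.th n h| ^ 2 / QQ B.th n h := by
    have := sq_sum_div_le_sum_sq_div univ (fun h => |law B.param n h - QQ B.th n h|) (fun h _ => hQ h)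
    rw [sum_QQ B.th_nonneg] at this
    rw [sum_QQ B.th_nonneg]
    linarith
  have h2 : ∑ h, |law B.param n h - QQ B.th n h| ^ 2 / QQ B.th n h =
      ∑ h, law B.param n h ^ 2 / QQ B.th n h - 1 := by
    have e : ∀ h, |law B.param n h - QQ B.th n h| ^ 2 / QQ B.th n h =
        law B.param n h ^ 2 / QQ B.th n h - 2 * law B.param n h + QQ B.th n h := by
      intro h
      rw [sq_abs]
      have := (hQ h).ne'
      field_simp
      ring
    rw [sum_congr rfl fun h _ => e h, sum_add_distrib, sum_sub_distrib, ← mul_sum, sum_QQ B.th_nonneg,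
      sum_law B.valid]
    ring
  rw [h2, sum_QQ B.th_nonneg, one_mul] at h1
  have h3 := sum_law_sq (B := B) n
  have h4 : (∑ h, |law B.param n h - QQ B.th n h|) ^ 2 ≤ (1 / 17) ^ 2 := by
    refine h1.trans ?_
    norm_num
    linarith
  have h5 : 0 ≤ ∑ h, |law B.param n h - QQ B.th n h| := sum_nonneg fun h _ => abs_nonneg _
  exact (abs_le_of_sq_le_sq' h4 (by norm_num)).2

/-- two balanced models with the same excess of loops have close laws -/
theorem laws_close {B B' : Bal} (hth : B.th = B'.th) (n : ℕ) :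
    ∑ h, |law B.param n h - law B'.param n h| ≤ 2 / 17 := by
  have h1 := tv_bound (B := B) n
  have h2 := tv_bound (B := B') n
  rw [← hth] at h2
  have h3 : ∑ h, |law B.param n h - law B'.param n h| ≤
      ∑ h, (|law B.param n h - QQ B.th n h| + |law B'.param n h - QQ B.th n h|) := by
    refine sum_le_sum fun h _ => ?_
    have := abs_sub_le (law B.param n h) (QQ B.th n h) (law B'.param n h)
    rw [abs_sub_comm (QQ B.th n h)] at this
    exact this
  rw [sum_add_distrib] at h3
  linarith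

end Pool.Agent.H1.HP
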