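import Pool.Agent.H1.HP.Identify
import Pool.Agent.H1.HP.TV

/-!
# The curve of balanced models
-/

set_option autoImplicit false

namespace Pool.Agent.H1.HP

open Finset

/-- the balanced data of the model -/
noncomputable def bal (τ p : ℝ) (hτ : 0 < τ) (hτ' : τ ≤ 1 / 20000) (hp : p ∈ Set.Icc (1 / 4 : ℝ) (1 / 2)) : Bal where
  p := ![p, 1 - p]
  f := ![2 * (1 - p), -(2 * p)]
  t := τ / (4 * p * (1 - p))
  s := 4 * p * (1 - p)
  m := 2 * (1 - 2 * p)
  p_pos := by
    obtain ⟨h1, h2⟩ := hp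
    intro k
    rcases Fin.exists_fin_two.1 ⟨k, rfl⟩ with hk | hk <;> rw [hk]
    · show 0 < p
      linarith
    · show 0 < 1 - p
      linarith
  p_sum := by
    show p + (1 - p) = 1
    ring
  pf := by
    show p * (2 * (1 - p)) + (1 - p) * (-(2 * p)) = 0
    ring
  ff := by
    intro k
    rcases Fin.exists_fin_two.1 ⟨k, rfl⟩ with hk | hk <;> rw [hk]
    · show (2 * (1 - p)) ^ 2 = 4 * p * (1 - p) + 2 * (1 - 2 * p) * (2 * (1 - p))
      ring
    · show (-(2 * p)) ^ 2 = 4 * p * (1 - p) + 2 * (1 - 2 * p) * (-(2 * p))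
      ring
  f_le := by
    obtain ⟨h1, h2⟩ := hp
    intro k
    rcases Fin.exists_fin_two.1 ⟨k, rfl⟩ with hk | hk <;> rw [hk]
    · show |2 * (1 - p)| ≤ 2
      rw [abs_le]
      constructor <;> linarith
    · show |-(2 * p)| ≤ 2
      rw [abs_le]
      constructor <;> linarith
  m_le := by
    obtain ⟨h1, h2⟩ := hp
    rw [abs_le]
    constructor <;> linarith
  s_nonneg := by
    obtain ⟨h1, h2⟩ := hp
    have : 0 ≤ p * (1 - p) := mul_nonneg (by linarith) (by linarith)
    linarith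
  s_le := by
    obtain ⟨h1, h2⟩ := hp
    nlinarith
  t_pos := by
    obtain ⟨h1, h2⟩ := hp
    have : 0 < p * (1 - p) := mul_pos (by linarith) (by linarith)
    exact div_pos hτ (by linarith)
  t_le := by
    obtain ⟨h1, h2⟩ := hp
    have h3 : 3 / 16 ≤ p * (1 - p) := by nlinarith
    rw [div_le_iff₀ (by linarith)]
    linarith

section

variable {τ p : ℝ} (hτ : 0 < τ) (hτ' : τ ≤ 1 / 20000) (hp : p ∈ Set.Icc (1 / 4 : ℝ) (1 / 2))

include hτ hτ' hp

theorem bal_param : (bal τ p hτ hτ' hp).param = model τ p := by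
  obtain ⟨h1, h2⟩ := id hp
  have hp0 : p ≠ 0 := by linarith
  have hq0 : 1 - p ≠ 0 := by linarith
  unfold Bal.param model
  congr 1
  funext i j
  rcases Fin.exists_fin_two.1 ⟨i, rfl⟩ with hi | hi <;> rcases Fin.exists_fin_two.1 ⟨j, rfl⟩ with hj | hj <;>
    rw [hi, hj]
  · show 1 + τ / (4 * p * (1 - p)) * (2 * (1 - p)) * (2 * (1 - p)) = 1 + τ * (1 - p) / p
    field_simp
    ring
  · show 1 + τ / (4 * p * (1 - p)) * (2 * (1 - p)) * (-(2 * p)) = 1 - τ
    field_simp
    ring
  · show 1 + τ / (4 * p * (1 - p)) * (-(2 * p)) * (2 * (1 - p)) = 1 - τ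
    field_simp
    ring
  · show 1 + τ / (4 * p * (1 - p)) * (-(2 * p)) * (-(2 * p)) = 1 + τ * p / (1 - p)
    field_simp
    ring

theorem bal_th : (bal τ p hτ hτ' hp).th = τ := by
  obtain ⟨h1, h2⟩ := id hp
  have hp0 : p ≠ 0 := by linarith
  have hq0 : 1 - p ≠ 0 := by linarith
  show τ / (4 * p * (1 - p)) * (4 * p * (1 - p)) = τ
  field_simp

theorem model_identifiable : Identifiable (model τ p) := by
  rw [← bal_param hτ hτ' hp]
  refine identifiable _ ?_
  obtain ⟨h1, h2⟩ := id hp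
  show 0 < 4 * p * (1 - p)
  have : 0 < p * (1 - p) := mul_pos (by linarith) (by linarith)
  linarith

end

theorem models_close {τ p p' : ℝ} (hτ : 0 < τ) (hτ' : τ ≤ 1 / 20000) (hp : p ∈ Set.Icc (1 / 4 : ℝ) (1 / 2))
    (hp' : p' ∈ Set.Icc (1 / 4 : ℝ) (1 / 2)) (n : ℕ) :
    ∑ h, |law (model τ p) n h - law (model τ p') n h| ≤ 2 / 17 := by
  rw [← bal_param hτ hτ' hp, ← bal_param hτ hτ' hp']
  refine laws_close ?_ n
  rw [bal_th, bal_th]

/-- the product of the probabilities of the labels near the orbit -/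
theorem close_prod {τ p ε : ℝ} (hp : p ∈ Set.Icc (1 / 4 : ℝ) (1 / 2)) (hε1 : ε ≤ 1) {θ : Param 2}
    (h : CloseToOrbit ε θ (model τ p)) : |θ.π 0 * θ.π 1 - p * (1 - p)| < 3 * ε := by
  obtain ⟨σ, c, -, h1, -⟩ := h
  obtain ⟨hp1, hp2⟩ := hp
  have hε : 0 < ε := (abs_nonneg _).trans_lt (h1 0)
  have key : ∀ a b x y : ℝ, |a - x| < ε → |b - y| < ε → |x| ≤ 1 → |y| ≤ 1 → |a * b - x * y| < 3 * ε := by
    intro a b x y ha hb hx hy
    have hb2 : |b| ≤ 2 := by
      have := abs_add_le (b - y) y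
      rw [sub_add_cancel] at this
      linarith
    have e : a * b - x * y = (a - x) * b + x * (b - y) := by ring
    rw [e]
    refine (abs_add_le _ _).trans_lt ?_
    rw [abs_mul, abs_mul]
    have h3 : |a - x| * |b| ≤ |a - x| * 2 := mul_le_mul_of_nonneg_left hb2 (abs_nonneg _)
    have h4 : |x| * |b - y| ≤ 1 * |b - y| := mul_le_mul_of_nonneg_right hx (abs_nonneg _)
    linarith
  have hq : ∀ i, |(model τ p).π i| ≤ 1 := by
    intro i
    rcases Fin.exists_fin_two.1 ⟨i, rfl⟩ with hi | hi <;> rw [hi]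
    · show |p| ≤ 1
      rw [abs_le]
      constructor <;> linarith
    · show |1 - p| ≤ 1
      rw [abs_le]
      constructor <;> linarith
  have h2 := key _ _ _ _ (h1 0) (h1 1) (hq _) (hq _)
  have h3 : (model τ p).π (σ 0) * (model τ p).π (σ 1) = p * (1 - p) := by
    have hne : σ 0 ≠ σ 1 := fun h => absurd (σ.injective h) (by decide)
    rcases Fin.exists_fin_two.1 ⟨σ 0, rfl⟩ with h0 | h0 <;> rcases Fin.exists_fin_two.1 ⟨σ 1, rfl⟩ with h1 | h1
    · rw [h0, h1] at hne
      exact absurd rfl hne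
    · rw [h0, h1]
      rfl
    · rw [h0, h1]
      show (1 - p) * p = p * (1 - p)
      ring
    · rw [h0, h1] at hne
      exact absurd rfl hne
  rwa [h3] at h2

/-- the lower bound for the errors -/
theorem err_bound {τ p p' : ℝ} (hτ : 0 < τ) (hτ' : τ ≤ 1 / 20000) (hp : p ∈ Set.Icc (1 / 4 : ℝ) (1 / 2))
    (hp' : p' ∈ Set.Icc (1 / 4 : ℝ) (1 / 2)) (hne : p ≠ p') : ∃ ε : ℝ, 0 < ε ∧ ∀ (n : ℕ) (T : Hist n → Param 2),
      15 / 17 ≤ err ε T (model τ p) + err ε T (model τ p') := by
  classical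
  have hd : 0 < |p * (1 - p) - p' * (1 - p')| := by
    rw [abs_pos]
    have e : p * (1 - p) - p' * (1 - p') = (p - p') * (1 - p - p') := by ring
    rw [e]
    refine mul_ne_zero (sub_ne_zero.2 hne) ?_
    obtain ⟨h1, h2⟩ := hp
    obtain ⟨h3, h4⟩ := hp'
    intro h0
    exact hne (by linarith)
  refine ⟨|p * (1 - p) - p' * (1 - p')| / 6, by linarith, fun n T => ?_⟩
  set ε := |p * (1 - p) - p' * (1 - p')| / 6 with hε
  have hε1 : ε ≤ 1 := by
    obtain ⟨h1, h2⟩ := hp
    obtain ⟨h3, h4⟩ := hp'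
    have : |p * (1 - p) - p' * (1 - p')| ≤ 1 := by
      rw [abs_le]
      constructor <;> nlinarith
    linarith
  have hdis : ∀ h, CloseToOrbit ε (T h) (model τ p) → ¬ CloseToOrbit ε (T h) (model τ p') := by
    intro h h1 h2
    have a1 := close_prod hp hε1 h1
    have a2 := close_prod hp' hε1 h2
    have a3 := abs_sub_le (p * (1 - p)) ((T h).π 0 * (T h).π 1) (p' * (1 - p'))
    rw [abs_sub_comm (p * (1 - p)) ((T h).π 0 * (T h).π 1)] at a3
    linarith
  have hl := models_close hτ hτ' hp hp' n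
  have hv : (model τ p).Valid := (model_identifiable hτ hτ' hp).1
  have hv' : (model τ p').Valid := (model_identifiable hτ hτ' hp').1
  have h1 : ∑ h ∈ univ.filter (fun h => CloseToOrbit ε (T h) (model τ p)), law (model τ p') n h ≤
      err ε T (model τ p') := by
    unfold err
    refine sum_le_sum_of_subset_of_nonneg (fun h hh => ?_) fun h _ _ => law_nonneg hv' n h
    rw [mem_filter] at hh ⊢
    exact ⟨hh.1, hdis h hh.2⟩
  have h2 : ∑ h ∈ univ.filter (fun h => CloseToOrbit ε (T h) (model τ p)), law (model τ p) n h ≤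
      ∑ h ∈ univ.filter (fun h => CloseToOrbit ε (T h) (model τ p)), law (model τ p') n h + 2 / 17 := by
    have h3 : ∑ h ∈ univ.filter (fun h => CloseToOrbit ε (T h) (model τ p)), law (model τ p) n h ≤
        ∑ h ∈ univ.filter (fun h => CloseToOrbit ε (T h) (model τ p)), (law (model τ p') n h +
          |law (model τ p) n h - law (model τ p') n h|) := by
      refine sum_le_sum fun h _ => ?_
      have := le_abs_self (law (model τ p) n h - law (model τ p') n h)
      linarith
    rw [sum_add_distrib] at h3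
    have h4 : ∑ h ∈ univ.filter (fun h => CloseToOrbit ε (T h) (model τ p)),
        |law (model τ p) n h - law (model τ p') n h| ≤ ∑ h, |law (model τ p) n h - law (model τ p') n h| :=
      sum_le_sum_of_subset_of_nonneg (filter_subset _ _) fun h _ _ => abs_nonneg _
    linarith
  have h3 : ∑ h ∈ univ.filter (fun h => CloseToOrbit ε (T h) (model τ p)), law (model τ p) n h +
      err ε T (model τ p) = 1 := by
    unfold err
    rw [← sum_law hv n]
    have := sum_filter_add_sum_filter_not univ (fun h => CloseToOrbit ε (T h) (model τ p))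
      (fun h => law (model τ p) n h)
    convert this
  linarith

end Pool.Agent.H1.HP
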