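import Pool.Agent.H1.HP.Unknown2

/-!
# General models with two labels: upper bound for the growth of the logarithms of the degrees
-/

set_option autoImplicit false

namespace Pool.Agent.H1.HP

open Finset

/-- the mean of the logarithm of the degree sums -/
noncomputable def TT (θ : Param 2) (n : ℕ) : ℝ :=
  Ex θ n fun h l => θ.π 0 * Real.log (AA n h l 0) + θ.π 1 * Real.log (AA n h l 1)

/-- the mean square deviation of the proportion of the label `0` -/
noncomputable def x2 (θ : Param 2) (n : ℕ) : ℝ := Ex θ n fun h l => (AA n h l 0 / (2 * n + 2) - θ.π 0) ^ 2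

/-- the inverse second moments -/
noncomputable def S2 (θ : Param 2) (n : ℕ) (j : Fin 2) : ℝ := Ex θ n fun h l => 1 / AA n h l j ^ 2

/-- the mean logarithm of the degrees of the first `m` nodes -/
noncomputable def LD (m n : ℕ) (h : Hist n) : ℝ := 1 / (m : ℝ) * ∑ v ∈ range m, Real.log (deg n h v)

/-- the deviation of the number of nodes of label `0` among the first `m` ones -/
noncomputable def MM (θ : Param 2) (m n : ℕ) (l : Lab 2 n) : ℝ := ∑ v ∈ range m, (ind 0 (label n l v) - θ.π 0)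

theorem step_sum {θ : Param 2} {n : ℕ} {h : Hist n} {l : Lab 2 n} (s : Finset ℕ) (φ : ℕ → ℕ → Fin 2 → ℝ) :
    step θ n h l (fun t k => ∑ v ∈ s, φ v t k) = ∑ v ∈ s, step θ n h l (φ v) := by
  unfold step
  rw [sum_comm]
  have : ∀ t : Fin (n + 1), ∑ k, trans θ n h l t k * ∑ v ∈ s, φ v t k =
      ∑ v ∈ s, ∑ k, trans θ n h l t k * φ v t k := by
    intro t
    rw [sum_comm]
    refine sum_congr rfl fun k _ => ?_
    rw [mul_sum]
  rw [sum_comm, sum_congr rfl fun t _ => this t, sum_comm]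

section

variable {θ : Param 2} {c1 c2 : ℝ} (hb : Bounds θ c1 c2)

include hb

theorem sum_S2 (j : Fin 2) {m n : ℕ} (hn : m ≤ n) : ∑ i ∈ Ico m n, S2 θ i j ≤ 2 / θ.π j := by
  have hπ := hb.pi_pos j
  have h1 := sum_le_of_step (a := fun n => Ex θ n fun h l => 1 / AA n h l j) (b := fun n => S2 θ n j)
    (c := θ.π j / 2) (d := 0) (by positivity) le_rfl (m := m) (fun i => by
      have := Ex_mono hb.valid (n := i) (F := fun _ _ => 0) (F' := fun h l => 1 / AA i h l j) fun h l => by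
        have := AA_ge i h l j
        positivity
      rwa [Ex_const hb.valid] at this) (fun i _ => by
      rw [Ex_succ' i _ (fun h l t k => 1 / (AA i h l j + (ind j (label (i + 1) ((l, k) : Lab 2 (i + 1)) t) +
        ind j k))) (fun h l t k => by rw [AA_succ])]
      have := Ex_mono hb.valid (n := i) (fun h l => step_inv hb i h l j)
      rw [Ex_sub, Ex_const_mul] at this
      unfold S2
      rw [zero_div, add_zero]
      exact this) hn
  have h2 : (Ex θ m fun h l => 1 / AA m h l j) ≤ 1 := by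
    have := Ex_mono hb.valid (n := m) (F := fun h l => 1 / AA m h l j) (F' := fun _ _ => 1) fun h l => by
      have := AA_ge m h l j
      rw [div_le_one (by linarith)]
      exact this
    rwa [Ex_const hb.valid] at this
  refine h1.trans ?_
  rw [mul_zero, add_zero, div_le_div_iff₀ (by positivity) hπ]
  nlinarith

theorem mean_rate (n : ℕ) :
    (Ex θ n fun h l => θ.π 0 * rate θ n h l 0 + θ.π 1 * rate θ n h l 1) ≤
      TT θ (n + 1) - TT θ n - 1 / (2 * (n : ℝ) + 2) * (1 + 4 * x2 θ n) + (2 + c2 / c1) * (S2 θ n 0 + S2 θ n 1) +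
        2 * (c2 / c1) * (1 / ((n : ℝ) + 1) ^ 2) := by
  have hT : TT θ (n + 1) = Ex θ n fun h l => θ.π 0 * step θ n h l (fun t k => Real.log (AA n h l 0 +
      (ind 0 (label (n + 1) ((l, k) : Lab 2 (n + 1)) t) + ind 0 k))) +
      θ.π 1 * step θ n h l (fun t k => Real.log (AA n h l 1 +
      (ind 1 (label (n + 1) ((l, k) : Lab 2 (n + 1)) t) + ind 1 k))) := by
    unfold TT
    rw [Ex_succ' n _ (fun h l t k => θ.π 0 * Real.log (AA n h l 0 +
      (ind 0 (label (n + 1) ((l, k) : Lab 2 (n + 1)) t) + ind 0 k)) + θ.π 1 * Real.log (AA n h l 1 +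
      (ind 1 (label (n + 1) ((l, k) : Lab 2 (n + 1)) t) + ind 1 k))) (fun h l t k => by rw [AA_succ, AA_succ])]
    congr 1
    funext h l
    rw [step_add, step_mul, step_mul]
  have hx : 1 / (2 * (n : ℝ) + 2) * (1 + 4 * x2 θ n) =
      Ex θ n fun h l => 1 / (2 * (n : ℝ) + 2) * (1 + 4 * (AA n h l 0 / (2 * n + 2) - θ.π 0) ^ 2) := by
    rw [Ex_const_mul, Ex_add, Ex_const hb.valid, Ex_const_mul]
    rfl
  have hS : (2 + c2 / c1) * (S2 θ n 0 + S2 θ n 1) + 2 * (c2 / c1) * (1 / ((n : ℝ) + 1) ^ 2) =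
      Ex θ n fun h l => (2 + c2 / c1) * (1 / AA n h l 0 ^ 2 + 1 / AA n h l 1 ^ 2) +
        2 * (c2 / c1) * (1 / ((n : ℝ) + 1) ^ 2) := by
    rw [Ex_add, Ex_const hb.valid, Ex_const_mul, Ex_add]
    rfl
  have hT0 : TT θ n = Ex θ n fun h l => θ.π 0 * Real.log (AA n h l 0) + θ.π 1 * Real.log (AA n h l 1) := rfl
  have e : TT θ (n + 1) - TT θ n - 1 / (2 * (n : ℝ) + 2) * (1 + 4 * x2 θ n) + (2 + c2 / c1) * (S2 θ n 0 + S2 θ n 1) +
        2 * (c2 / c1) * (1 / ((n : ℝ) + 1) ^ 2) =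
      (TT θ (n + 1) - TT θ n - 1 / (2 * (n : ℝ) + 2) * (1 + 4 * x2 θ n)) + ((2 + c2 / c1) * (S2 θ n 0 + S2 θ n 1) +
        2 * (c2 / c1) * (1 / ((n : ℝ) + 1) ^ 2)) := by ring
  rw [e, hx, hS, hT, hT0, ← Ex_sub, ← Ex_sub, ← Ex_add]
  refine Ex_mono hb.valid fun h l => ?_
  have r0 := rate_bound hb n h l 0
  have r1 := rate_bound hb n h l 1
  have r2 := convex_bound hb n h l
  linarith

omit hb in
theorem LD_succ (m n : ℕ) (hm : m ≤ n) (h : Hist n) (t : Fin (n + 1)) :
    LD m (n + 1) ((h, t) : Hist (n + 1)) = LD m n h + 1 / (m : ℝ) * ∑ v ∈ range m,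
      (if (t : ℕ) = v then Real.log ((deg n h v : ℝ) + 1) - Real.log (deg n h v) else 0) := by
  unfold LD
  rw [← mul_add, ← sum_add_distrib]
  congr 1
  refine sum_congr rfl fun v hv => ?_
  rw [mem_range] at hv
  rw [deg_succ, if_neg (by omega)]
  by_cases ht : (t : ℕ) = v
  · rw [if_pos ht, if_pos ht.symm]
    push_cast
    ring_nf
  · rw [if_neg ht, if_neg (fun h => ht h.symm)]
    push_cast
    ring_nf

theorem step_LD (m n : ℕ) (hm0 : 1 ≤ m) (hm : m ≤ n) (h : Hist n) (l : Lab 2 n) :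
    step θ n h l (fun t _ => LD m n h + 1 / (m : ℝ) * ∑ v ∈ range m,
      (if t = v then Real.log ((deg n h v : ℝ) + 1) - Real.log (deg n h v) else 0)) ≤
      LD m n h + (θ.π 0 * rate θ n h l 0 + θ.π 1 * rate θ n h l 1) +
        c2 / c1 / (n + 1) * |MM θ m n l / m| := by
  rw [step_add, step_const hb.valid, step_mul, step_sum (range m) (fun v t _ =>
    (if t = v then Real.log ((deg n h v : ℝ) + 1) - Real.log (deg n h v) else 0))]
  have hm1 : (0 : ℝ) < m := by exact_mod_cast hm0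
  have h1 : ∀ v ∈ range m, step θ n h l (fun t _ =>
      (if t = v then Real.log ((deg n h v : ℝ) + 1) - Real.log (deg n h v) else 0)) ≤ rate θ n h l (label n l v) := by
    intro v hv
    rw [mem_range] at hv
    rw [step_node h l (by omega : v < n)]
    have hd : (1 : ℝ) ≤ deg n h v := by exact_mod_cast deg_pos n h v (by omega)
    have hr := rate_nonneg hb n h l (label n l v)
    set d := (deg n h v : ℝ) with hd'
    have h2 : Real.log (d + 1) - Real.log d ≤ 1 / d := by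
      rw [← Real.log_div (by positivity) (by positivity)]
      have h3 : (d + 1) / d = 1 + 1 / d := by
        field_simp
      rw [h3]
      have := Real.log_le_sub_one_of_pos (show 0 < 1 + 1 / d by positivity)
      linarith
    have h3 : d * rate θ n h l (label n l v) * (Real.log (d + 1) - Real.log d) ≤
        d * rate θ n h l (label n l v) * (1 / d) := mul_le_mul_of_nonneg_left h2 (by positivity)
    have h4 : d * rate θ n h l (label n l v) * (1 / d) = rate θ n h l (label n l v) := by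
      field_simp
    linarith
  have h2 := sum_le_sum h1
  have h3 : ∑ v ∈ range m, rate θ n h l (label n l v) = m * (θ.π 0 * rate θ n h l 0 + θ.π 1 * rate θ n h l 1) +
      MM θ m n l * (rate θ n h l 0 - rate θ n h l 1) := by
    have h4 : ∀ v, rate θ n h l (label n l v) = (ind 0 (label n l v) - θ.π 0) *
        (rate θ n h l 0 - rate θ n h l 1) + (θ.π 0 * rate θ n h l 0 + θ.π 1 * rate θ n h l 1) := by
      intro v
      have hπ : θ.π 1 = 1 - θ.π 0 := by linarith [pi_add hb]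
      rw [hπ]
      unfold ind
      rcases Fin.exists_fin_two.1 ⟨label n l v, rfl⟩ with h0 | h0 <;> rw [h0] <;> simp <;> ring
    rw [sum_congr rfl fun v _ => h4 v, sum_add_distrib, ← sum_mul, sum_const, card_range, nsmul_eq_mul]
    unfold MM
    ring
  rw [h3] at h2
  have h5 : MM θ m n l / m * (rate θ n h l 0 - rate θ n h l 1) ≤ c2 / c1 / (n + 1) * |MM θ m n l / m| := by
    have r0 := rate_nonneg hb n h l 0
    have r1 := rate_nonneg hb n h l 1
    have r2 := rate_le hb n h l 0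
    have r3 := rate_le hb n h l 1
    have h6 : |rate θ n h l 0 - rate θ n h l 1| ≤ c2 / c1 / (n + 1) := by
      rw [abs_le]
      constructor <;> linarith
    refine (le_abs_self _).trans ?_
    rw [abs_mul, mul_comm]
    exact mul_le_mul_of_nonneg_right h6 (abs_nonneg _)
  have h6 : 1 / (m : ℝ) * (m * (θ.π 0 * rate θ n h l 0 + θ.π 1 * rate θ n h l 1) +
      MM θ m n l * (rate θ n h l 0 - rate θ n h l 1)) =
      (θ.π 0 * rate θ n h l 0 + θ.π 1 * rate θ n h l 1) + MM θ m n l / m * (rate θ n h l 0 - rate θ n h l 1) := by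
    field_simp
  have h7 := mul_le_mul_of_nonneg_left h2 (show 0 ≤ 1 / (m : ℝ) by positivity)
  linarith

omit hb in
theorem MM_succ_of_le (m n : ℕ) (hm : m ≤ n) (l : Lab 2 n) (k : Fin 2) :
    MM θ m (n + 1) ((l, k) : Lab 2 (n + 1)) = MM θ m n l := by
  unfold MM
  refine sum_congr rfl fun v hv => ?_
  rw [mem_range] at hv
  rw [label_succ_of_lt n l k v (by omega)]

omit hb in
theorem MM_succ_self (m : ℕ) (l : Lab 2 m) (k : Fin 2) :
    MM θ (m + 1) (m + 1) ((l, k) : Lab 2 (m + 1)) = MM θ m m l + (ind 0 k - θ.π 0) := by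
  unfold MM
  rw [sum_range_succ, label_succ_self]
  congr 1
  refine sum_congr rfl fun v hv => ?_
  rw [mem_range] at hv
  rw [label_succ_of_lt m l k v (by omega)]

theorem Ex_MM_self (m : ℕ) : (Ex θ m fun _ l => MM θ m m l ^ 2) ≤ m := by
  induction m with
  | zero =>
    have : (fun (_ : Hist 0) (l : Lab 2 0) => MM θ 0 0 l ^ 2) = fun _ _ => 0 := by
      funext h l
      unfold MM
      simp
    rw [this, Ex_const hb.valid]
    simp
  | succ m ih =>
    rw [Ex_succ' m _ (fun h l t k => (MM θ m m l + (ind 0 k - θ.π 0)) ^ 2) (fun h l t k => by rw [MM_succ_self])]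
    have h1 : ∀ (h : Hist m) (l : Lab 2 m), step θ m h l (fun _ k => (MM θ m m l + (ind 0 k - θ.π 0)) ^ 2) ≤
        MM θ m m l ^ 2 + 1 := by
      intro h l
      rw [step_label hb.valid h l (fun k => (MM θ m m l + (ind 0 k - θ.π 0)) ^ 2), Fin.sum_univ_two]
      have hπ : θ.π 1 = 1 - θ.π 0 := by linarith [pi_add hb]
      have h0 := hb.pi_pos 0
      have h2 := pi_le_one hb 0
      unfold ind
      rw [hπ]
      simp only [if_true, if_neg (show (1 : Fin 2) ≠ 0 by decide)]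
      have e : θ.π 0 * (MM θ m m l + (1 - θ.π 0)) ^ 2 + (1 - θ.π 0) * (MM θ m m l + (0 - θ.π 0)) ^ 2 =
          MM θ m m l ^ 2 + θ.π 0 * (1 - θ.π 0) := by ring
      rw [e]
      nlinarith
    have h2 := Ex_mono hb.valid (n := m) h1
    rw [Ex_add, Ex_const hb.valid] at h2
    push_cast
    linarith

theorem Ex_MM (m n : ℕ) (hn : m ≤ n) : (Ex θ n fun _ l => MM θ m n l ^ 2) ≤ m := by
  induction n, hn using Nat.le_induction with
  | base => exact Ex_MM_self hb m
  | succ n hn ih =>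
    rw [Ex_succ' n _ (fun h l t k => MM θ m n l ^ 2) (fun h l t k => by rw [MM_succ_of_le m n hn])]
    have : (fun (h : Hist n) (l : Lab 2 n) => step θ n h l fun _ _ => MM θ m n l ^ 2) =
        fun _ l => MM θ m n l ^ 2 := by
      funext h l
      rw [step_const hb.valid]
    rw [this]
    exact ih

theorem Ex_abs_MM (m n : ℕ) (hm : 1 ≤ m) (hn : m ≤ n) {η : ℝ} (hη : 0 < η) :
    (Ex θ n fun _ l => |MM θ m n l / m|) ≤ η + 1 / (4 * η * m) := by
  have hm1 : (0 : ℝ) < m := by exact_mod_cast hm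
  have h1 : ∀ (_h : Hist n) (l : Lab 2 n), |MM θ m n l / m| ≤ η + 1 / (4 * η * m ^ 2) * MM θ m n l ^ 2 := by
    intro _ l
    have h2 : 0 ≤ (|MM θ m n l / m| - 2 * η) ^ 2 := sq_nonneg _
    have h3 : |MM θ m n l / m| ^ 2 = MM θ m n l ^ 2 / m ^ 2 := by
      rw [sq_abs, div_pow]
    have h4 : 1 / (4 * η * m ^ 2) * MM θ m n l ^ 2 = |MM θ m n l / m| ^ 2 / (4 * η) := by
      rw [h3]
      field_simp
    rw [h4]
    have h5 : |MM θ m n l / m| ^ 2 / (4 * η) + η - |MM θ m n l / m| = (|MM θ m n l / m| - 2 * η) ^ 2 / (4 * η) := by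
      field_simp
      ring
    have h6 : 0 ≤ (|MM θ m n l / m| - 2 * η) ^ 2 / (4 * η) := by positivity
    linarith
  have h2 := Ex_mono hb.valid (n := n) h1
  rw [Ex_add, Ex_const hb.valid, Ex_const_mul] at h2
  have h3 := mul_le_mul_of_nonneg_left (Ex_MM hb m n hn) (show 0 ≤ 1 / (4 * η * (m : ℝ) ^ 2) by positivity)
  have h4 : 1 / (4 * η * (m : ℝ) ^ 2) * m = 1 / (4 * η * m) := by
    field_simp
  linarith

/-- the constant in the upper bound -/
theorem growth_upper (m n : ℕ) (hm : 1 ≤ m) (hn : m ≤ n) {η : ℝ} (hη : 0 < η) :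
    (Ex θ n fun h _ => LD m n h) ≤ (Ex θ m fun h _ => LD m m h) + (TT θ n - TT θ m) -
      ∑ i ∈ Ico m n, 1 / (2 * (i : ℝ) + 2) * (1 + 4 * x2 θ i) +
      ((2 + c2 / c1) * (2 / θ.π 0 + 2 / θ.π 1) + 4 * (c2 / c1)) + c2 / c1 * (η + 1 / (4 * η * m)) * HH n := by
  have hκ : 0 < c2 / c1 := div_pos (c2_pos hb) hb.c1_pos
  have hm1 : (0 : ℝ) < m := by exact_mod_cast hm
  have h1 : ∀ i, m ≤ i → (Ex θ (i + 1) fun h _ => LD m (i + 1) h) - TT θ (i + 1) ≤
      ((Ex θ i fun h _ => LD m i h) - TT θ i) + (- (1 / (2 * (i : ℝ) + 2) * (1 + 4 * x2 θ i)) +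
        ((2 + c2 / c1) * (S2 θ i 0 + S2 θ i 1) + 2 * (c2 / c1) * (1 / ((i : ℝ) + 1) ^ 2) +
        c2 / c1 * (η + 1 / (4 * η * m)) * (1 / ((i : ℝ) + 1)))) := by
    intro i hi
    rw [Ex_succ' i _ (fun h l t k => LD m i h + 1 / (m : ℝ) * ∑ v ∈ range m,
      (if t = v then Real.log ((deg i h v : ℝ) + 1) - Real.log (deg i h v) else 0))
      (fun h l t k => LD_succ m i hi h t)]
    have h2 := Ex_mono hb.valid (n := i) (fun h l => step_LD hb m i hm hi h l)
    rw [Ex_add, Ex_add, Ex_const_mul] at h2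
    have h3 := mean_rate hb i
    have h4 := mul_le_mul_of_nonneg_left (Ex_abs_MM hb m i hm hi hη)
      (show 0 ≤ c2 / c1 / ((i : ℝ) + 1) by positivity)
    have h5 : c2 / c1 / ((i : ℝ) + 1) * (η + 1 / (4 * η * m)) =
      c2 / c1 * (η + 1 / (4 * η * m)) * (1 / ((i : ℝ) + 1)) := by ring
    rw [h5] at h4
    linarith
  have h2 := le_of_step (u := fun n => (Ex θ n fun h _ => LD m n h) - TT θ n)
    (w := fun i => - (1 / (2 * (i : ℝ) + 2) * (1 + 4 * x2 θ i)) +
        ((2 + c2 / c1) * (S2 θ i 0 + S2 θ i 1) + 2 * (c2 / c1) * (1 / ((i : ℝ) + 1) ^ 2) +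
        c2 / c1 * (η + 1 / (4 * η * m)) * (1 / ((i : ℝ) + 1)))) h1 hn
  rw [sum_add_distrib, sum_add_distrib, sum_add_distrib, sum_neg_distrib, ← mul_sum, sum_add_distrib, ← mul_sum,
    ← mul_sum, sum_Ico_HH hn] at h2
  have h3 := sum_S2 hb 0 hn
  have h4 := sum_S2 hb 1 hn
  have h5 : ∑ i ∈ Ico m n, 1 / ((i : ℝ) + 1) ^ 2 ≤ 2 := by
    refine le_trans (sum_le_sum_of_subset_of_nonneg ?_ fun i _ _ => by positivity) (sum_sq_le n)
    intro i hi
    rw [mem_Ico] at hi
    exact mem_range.2 hi.2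
  have h6 : 0 ≤ c2 / c1 * (η + 1 / (4 * η * m)) := by positivity
  have h7 := mul_nonneg h6 (HH_nonneg m)
  have h8 : (2 + c2 / c1) * (∑ i ∈ Ico m n, S2 θ i 0 + ∑ i ∈ Ico m n, S2 θ i 1) ≤
      (2 + c2 / c1) * (2 / θ.π 0 + 2 / θ.π 1) := mul_le_mul_of_nonneg_left (by linarith) (by positivity)
  have h9 : 2 * (c2 / c1) * ∑ i ∈ Ico m n, 1 / ((i : ℝ) + 1) ^ 2 ≤ 2 * (c2 / c1) * 2 :=
    mul_le_mul_of_nonneg_left h5 (by positivity)
  have h10 : c2 / c1 * (η + 1 / (4 * η * m)) * (HH n - HH m) =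
    c2 / c1 * (η + 1 / (4 * η * m)) * HH n - c2 / c1 * (η + 1 / (4 * η * m)) * HH m := by ring
  linarith

end

end Pool.Agent.H1.HP
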