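import Pool.Agent.H1.HP.Limits

/-!
# Balanced models are identifiable
-/

set_option autoImplicit false

namespace Pool.Agent.H1.HP

open Finset

theorem sum_hist_zero (F : Hist 0 → ℝ) (x : Hist 0) : ∑ h, F h = F x :=
  Fintype.sum_unique (ι := Unit) fun h : Unit => F h

theorem sum_lab_zero (F : Lab 2 0 → ℝ) (x : Lab 2 0) : ∑ h, F h = F x :=
  Fintype.sum_unique (ι := Unit) fun h : Unit => F h

theorem Ex_zero (θ : Param 2) (F : Hist 0 → Lab 2 0 → ℝ) (x : Hist 0) (y : Lab 2 0) : Ex θ 0 F = F x y := by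
  unfold Ex
  rw [sum_hist_zero _ x, sum_lab_zero _ y]
  show 1 * F x y = F x y
  rw [one_mul]

theorem den_zero (θ : Param 2) (h : Hist 0) (l : Lab 2 0) (k : Fin 2) : den θ 0 h l k = θ.γ k k := by
  rw [den_eq]
  unfold tot
  simp

theorem trans_zero {θ : Param 2} (hθ : θ.Valid) (h : Hist 0) (l : Lab 2 0) (k : Fin 2) :
    trans θ 0 h l 0 k = θ.π k := by
  unfold trans
  rw [den_zero, if_pos rfl, if_pos rfl, mul_one, div_self (hθ.pos k k).ne', mul_one]

theorem den_succ (θ : Param 2) (n : ℕ) (h : Hist n) (l : Lab 2 n) (t : Fin (n + 1)) (j k : Fin 2)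
    (ht : (t : ℕ) = n) : den θ (n + 1) ((h, t) : Hist (n + 1)) ((l, j) : Lab 2 (n + 1)) k =
      θ.γ k k + (tot n h l (θ.γ k) + 2 * θ.γ k j) := by
  refine (den_eq θ (n + 1) ((h, t) : Hist (n + 1)) ((l, j) : Lab 2 (n + 1)) k).trans ?_
  rw [tot_succ, ht, label_succ_self]
  ring

theorem den_one (θ : Param 2) (h : Hist 0) (l : Lab 2 0) (t : Fin (0 + 1)) (j k : Fin 2) :
    den θ (0 + 1) ((h, t) : Hist (0 + 1)) ((l, j) : Lab 2 (0 + 1)) k = θ.γ k k + 2 * θ.γ k j := by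
  have h1 := den_succ θ 0 h l t j k (by omega)
  have h2 : tot 0 h l (θ.γ k) = 0 := by
    unfold tot
    simp
  refine h1.trans ?_
  rw [h2, zero_add]

/-- the probability that the second node forms a loop -/
theorem second_loop {θ : Param 2} (hθ : θ.Valid) : (Ex θ 2 fun h _ => if (h.2 : ℕ) = 1 then 1 else 0) =
    ∑ j, θ.π j * ∑ k, θ.π k * θ.γ k k / (θ.γ k k + 2 * θ.γ k j) := by
  have e1 : (Ex θ 2 fun h _ => if (h.2 : ℕ) = 1 then 1 else 0) =
      Ex θ (0 + 1) fun h l => ∑ k, θ.π k * θ.γ k k / den θ (0 + 1) h l k := by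
    rw [Ex_succ' 1 _ (fun h l t k => if t = 1 then 1 else 0) (fun h l t k => rfl)]
    show (Ex θ 1 fun h l => step θ 1 h l fun t k => if t = 1 then 1 else 0) =
      Ex θ 1 fun h l => ∑ k, θ.π k * θ.γ k k / den θ 1 h l k
    congr 1
    funext h l
    rw [step_loop]
  obtain ⟨x, -⟩ : ∃ _x : Hist 0, True := ⟨(), trivial⟩
  obtain ⟨y, -⟩ : ∃ _y : Lab 2 0, True := ⟨(), trivial⟩
  rw [e1, Ex_succ, Ex_zero θ _ x y, sum_comm]
  refine sum_congr rfl fun j _ => ?_
  have e2 : ∀ t : Fin (0 + 1), trans θ 0 x y t j * ∑ k, θ.π k * θ.γ k k /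
      den θ (0 + 1) ((x, t) : Hist (0 + 1)) ((y, j) : Lab 2 (0 + 1)) k =
      θ.π j * ∑ k, θ.π k * θ.γ k k / (θ.γ k k + 2 * θ.γ k j) := by
    intro t
    have ht : (t : ℕ) = 0 := by omega
    rw [ht, trans_zero hθ]
    congr 1
    refine sum_congr rfl fun k _ => ?_
    rw [den_one]
  rw [sum_congr rfl fun t _ => e2 t]
  simp

section

variable {θ : Param 2} {c1 c2 : ℝ} (hb : Bounds θ c1 c2) {th : ℝ} (hR : RR θ 0 = RR θ 1) (hlam : lam θ = 1 + th)

include hb hR hlam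

theorem forms : θ.γ 0 1 = RR θ 0 * (1 - th) ∧ θ.γ 0 0 * θ.π 0 = RR θ 0 * (θ.π 0 + θ.π 1 * th) ∧
    θ.γ 1 1 * θ.π 1 = RR θ 0 * (θ.π 1 + θ.π 0 * th) := by
  have hR0 : RR θ 0 ≠ 0 := by linarith [RR_ge hb 0, hb.c1_pos]
  have hπ := pi_add hb
  have hs := hb.valid.symm 0 1
  unfold lam at hlam
  rw [Fin.sum_univ_two, ← hR] at hlam
  have h0 : RR θ 0 = θ.γ 0 0 * θ.π 0 + θ.γ 0 1 * θ.π 1 := rfl
  have h1 : RR θ 0 = θ.γ 1 0 * θ.π 0 + θ.γ 1 1 * θ.π 1 := hR
  set R := RR θ 0 with hRdef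
  have h2 : θ.π 0 * θ.γ 0 0 + θ.π 1 * θ.γ 1 1 = R * (1 + th) := by
    field_simp at hlam
    linarith
  rw [← hs] at h1
  have hq : θ.π 1 = 1 - θ.π 0 := by linarith
  have h3 : θ.γ 0 1 = R * (1 - th) := by
    rw [hq] at h0 h1 h2
    linarith
  refine ⟨h3, ?_, ?_⟩
  · rw [h3] at h0
    rw [hq] at h0 ⊢
    linarith
  · rw [h3] at h1
    rw [hq] at h1 ⊢
    linarith

theorem second_loop_eq (hth0 : 0 < th) (hth1 : th ≤ 1 / 1000) :
    (Ex θ 2 fun h _ => if (h.2 : ℕ) = 1 then 1 else 0) = 1 / 3 + 2 * th * (3 - th) / 3 *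
      (θ.π 0 * θ.π 1 / (9 * (1 - th) ^ 2 * (θ.π 0 * θ.π 1) + th * (3 - 2 * th))) := by
  obtain ⟨f1, f2, f3⟩ := forms hb hR hlam
  have hπ := pi_add hb
  have hp := hb.pi_pos 0
  have hq' := hb.pi_pos 1
  have hs := hb.valid.symm 0 1
  have g00 := hb.valid.pos 0 0
  have g11 := hb.valid.pos 1 1
  have g01 := hb.valid.pos 0 1
  rw [second_loop hb.valid, Fin.sum_univ_two, Fin.sum_univ_two, Fin.sum_univ_two, ← hs]
  set R := RR θ 0 with hRdef
  set p := θ.π 0 with hpdef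
  set q := θ.π 1 with hqdef
  have e1 : θ.γ 0 0 / (θ.γ 0 0 + 2 * θ.γ 0 1) = (p + q * th) / (th + 3 * p * (1 - th)) := by
    have d1 : 0 < th + 3 * p * (1 - th) := by
      have : 0 < p * (1 - th) := mul_pos hp (by linarith)
      linarith
    rw [div_eq_div_iff (by positivity) d1.ne']
    have hq : q = 1 - p := by linarith
    rw [hq] at f2 ⊢
    rw [f1]
    linear_combination 2 * (1 - th) * f2
  have e2 : θ.γ 1 1 / (θ.γ 1 1 + 2 * θ.γ 0 1) = (q + p * th) / (th + 3 * q * (1 - th)) := by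
    have d1 : 0 < th + 3 * q * (1 - th) := by
      have : 0 < q * (1 - th) := mul_pos hq' (by linarith)
      linarith
    rw [div_eq_div_iff (by positivity) d1.ne']
    have hp : p = 1 - q := by linarith
    rw [hp] at f3 ⊢
    rw [f1]
    linear_combination 2 * (1 - th) * f3
  have e3 : θ.γ 0 0 / (θ.γ 0 0 + 2 * θ.γ 0 0) = 1 / 3 := by
    field_simp
    norm_num
  have e4 : θ.γ 1 1 / (θ.γ 1 1 + 2 * θ.γ 1 1) = 1 / 3 := by
    field_simp
    norm_num
  rw [mul_div_assoc, mul_div_assoc, mul_div_assoc, mul_div_assoc, e1, e2, e3, e4]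
  have d1 : th + 3 * p * (1 - th) ≠ 0 := by
    have : 0 < p * (1 - th) := mul_pos hp (by linarith)
    have : 0 < th + 3 * p * (1 - th) := by linarith
    exact this.ne'
  have d2 : th + 3 * q * (1 - th) ≠ 0 := by
    have : 0 < q * (1 - th) := mul_pos hq' (by linarith)
    have : 0 < th + 3 * q * (1 - th) := by linarith
    exact this.ne'
  have d3 : 9 * (1 - th) ^ 2 * (p * q) + th * (3 - 2 * th) = (th + 3 * p * (1 - th)) * (th + 3 * q * (1 - th)) := by
    have hq : q = 1 - p := by linarith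
    rw [hq]
    ring
  rw [d3]
  have hq : q = 1 - p := by linarith
  obtain ⟨D1, hD1⟩ : ∃ D, D = th + 3 * p * (1 - th) := ⟨_, rfl⟩
  obtain ⟨D2, hD2⟩ : ∃ D, D = th + 3 * q * (1 - th) := ⟨_, rfl⟩
  rw [← hD1] at d1 ⊢
  rw [← hD2] at d2 ⊢
  field_simp
  rw [hD1, hD2, hq]
  ring

end

theorem RR_bal (B : Bal) (k : Fin 2) : RR B.param k = 1 := by
  show (1 + B.t * B.f k * B.f 0) * B.p 0 + (1 + B.t * B.f k * B.f 1) * B.p 1 = 1
  linear_combination B.p_sum + B.t * B.f k * B.pf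

theorem lam_bal (B : Bal) : lam B.param = 1 + B.th := by
  unfold lam
  rw [Fin.sum_univ_two, RR_bal, RR_bal]
  show B.p 0 * (1 + B.t * B.f 0 * B.f 0) * (1 / 1) + B.p 1 * (1 + B.t * B.f 1 * B.f 1) * (1 / 1) = 1 + B.t * B.s
  linear_combination (1 + B.t * B.s) * B.p_sum + B.t * B.p 0 * B.ff 0 + B.t * B.p 1 * B.ff 1 + B.t * B.m * B.pf

theorem identifiable (B : Bal) (hs : 0 < B.s) : Identifiable B.param := by
  refine ⟨B.valid, B.p_pos, fun θ' hθ' hlaw => ?_⟩
  have hth0 : 0 < B.th := mul_pos B.t_pos hs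
  have hth1 := B.th_le
  obtain ⟨b1, b2, hB⟩ := exists_bounds B.valid B.p_pos
  have hRB : RR B.param 0 = RR B.param 1 := by rw [RR_bal, RR_bal]
  have hsec : (Ex θ' 2 fun h _ => if (h.2 : ℕ) = 1 then 1 else 0) =
      Ex B.param 2 fun h _ => if (h.2 : ℕ) = 1 then 1 else 0 := by
    rw [Ex_hist θ' 2 (fun h => if (h.2 : ℕ) = 1 then 1 else 0),
      Ex_hist B.param 2 (fun h => if (h.2 : ℕ) = 1 then 1 else 0)]
    exact sum_congr rfl fun h _ => by rw [hlaw]
  rw [second_loop_eq hB hRB (lam_bal B) hth0 hth1] at hsec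
  have hp0 := B.p_pos 0
  have hp1 := B.p_pos 1
  have hw : 0 < B.param.π 0 * B.param.π 1 := mul_pos hp0 hp1
  have hβ : 0 < B.th * (3 - 2 * B.th) := mul_pos hth0 (by linarith)
  have hα : 0 ≤ 9 * (1 - B.th) ^ 2 := by positivity
  have hc : 0 < 2 * B.th * (3 - B.th) / 3 := by
    have : 0 < 2 * B.th * (3 - B.th) := mul_pos (by linarith) (by linarith)
    linarith
  -- the probabilities of the labels are positive
  have hsum := hθ'.sum_eq_one
  rw [Fin.sum_univ_two] at hsum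
  have hpos : ∀ j, 0 < θ'.π j := by
    by_contra hcon
    push Not at hcon
    obtain ⟨j, hj⟩ := hcon
    have hj0 : θ'.π j = 0 := le_antisymm hj (hθ'.nonneg j)
    have h13 : (Ex θ' 2 fun h _ => if (h.2 : ℕ) = 1 then 1 else 0) = 1 / 3 := by
      rw [second_loop hθ', Fin.sum_univ_two, Fin.sum_univ_two, Fin.sum_univ_two]
      have e3 : ∀ i, 1 * θ'.γ i i / (θ'.γ i i + 2 * θ'.γ i i) = 1 / 3 := by
        intro i
        have := hθ'.pos i i
        field_simp
        norm_num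
      rcases Fin.exists_fin_two.1 ⟨j, rfl⟩ with h0 | h0
      · rw [h0] at hj0
        rw [hj0] at hsum ⊢
        rw [zero_add] at hsum
        rw [hsum, e3]
        simp
      · rw [h0] at hj0
        rw [hj0] at hsum ⊢
        rw [add_zero] at hsum
        rw [hsum, e3]
        simp
    rw [h13] at hsec
    have : 0 < 2 * B.th * (3 - B.th) / 3 * (B.param.π 0 * B.param.π 1 /
        (9 * (1 - B.th) ^ 2 * (B.param.π 0 * B.param.π 1) + B.th * (3 - 2 * B.th))) := by positivity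
    linarith
  obtain ⟨c1, c2, hb⟩ := exists_bounds hθ' hpos
  have hdev : LN (DV θ') := LN_dev hb B hlaw
  have hdevB : LN (DV B.param) := LN_dev hB B fun _ _ => rfl
  have hR := RR_eq hb hdev
  have hlam : lam θ' = 1 + B.th := by rw [← lam_bal B]; exact lam_eq hb hB hlaw hdev hdevB
  rw [second_loop_eq hb hR hlam hth0 hth1] at hsec
  have hw' : 0 < θ'.π 0 * θ'.π 1 := mul_pos (hpos 0) (hpos 1)
  have hww : θ'.π 0 * θ'.π 1 = B.param.π 0 * B.param.π 1 := by
    set w := B.param.π 0 * B.param.π 1 with hwdef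
    set w' := θ'.π 0 * θ'.π 1 with hwdef'
    have h1 : w' / (9 * (1 - B.th) ^ 2 * w' + B.th * (3 - 2 * B.th)) =
        w / (9 * (1 - B.th) ^ 2 * w + B.th * (3 - 2 * B.th)) := by
      have := add_left_cancel hsec
      exact mul_left_cancel₀ hc.ne' this
    rw [div_eq_div_iff (by positivity) (by positivity)] at h1
    have h2 : (w' - w) * (B.th * (3 - 2 * B.th)) = 0 := by linarith
    rcases mul_eq_zero.1 h2 with h | h
    · linarith
    · linarith
  obtain ⟨f1, f2, f3⟩ := forms hb hR hlam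
  obtain ⟨g1, g2, g3⟩ := forms hB hRB (lam_bal B)
  rw [RR_bal, one_mul] at g1 g2 g3
  have hR0 : 0 < RR θ' 0 := by linarith [RR_ge hb 0, hb.c1_pos]
  have hs' := hθ'.symm 0 1
  have hsB := B.valid.symm 0 1
  have hsumB : B.param.π 0 + B.param.π 1 = 1 := B.p_sum
  have q0 := hpos 0
  have q1 := hpos 1
  have hcases : θ'.π 0 = B.param.π 0 ∨ θ'.π 0 = B.param.π 1 := by
    have h1 : θ'.π 1 = 1 - θ'.π 0 := by linarith
    have h2 : B.param.π 1 = 1 - B.param.π 0 := by linarith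
    rw [h1, h2] at hww
    rw [h2]
    have h3 : (θ'.π 0 - B.param.π 0) * (θ'.π 0 - (1 - B.param.π 0)) = 0 := by linarith
    rcases mul_eq_zero.1 h3 with h | h
    · left; linarith
    · right; linarith
  rcases hcases with h | h
  · have h' : θ'.π 1 = B.param.π 1 := by linarith
    have a0 : θ'.γ 0 0 = RR θ' 0 * B.param.γ 0 0 := by
      refine mul_right_cancel₀ q0.ne' ?_
      rw [f2, h, h', mul_assoc, g2]
    have a1 : θ'.γ 1 1 = RR θ' 0 * B.param.γ 1 1 := by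
      refine mul_right_cancel₀ q1.ne' ?_
      rw [f3, h, h', mul_assoc, g3]
    have a2 : θ'.γ 0 1 = RR θ' 0 * B.param.γ 0 1 := by rw [f1, g1]
    refine ⟨Equiv.refl _, RR θ' 0, hR0, ?_, ?_⟩
    · intro i
      rcases Fin.exists_fin_two.1 ⟨i, rfl⟩ with hi | hi <;> rw [hi]
      · exact h
      · exact h'
    · intro i j
      rcases Fin.exists_fin_two.1 ⟨i, rfl⟩ with hi | hi <;> rcases Fin.exists_fin_two.1 ⟨j, rfl⟩ with hj | hj <;>
        rw [hi, hj]
      · exact a0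
      · exact a2
      · rw [← hs', a2, hsB]
        rfl
      · exact a1
  · have h' : θ'.π 1 = B.param.π 0 := by linarith
    have a0 : θ'.γ 0 0 = RR θ' 0 * B.param.γ 1 1 := by
      refine mul_right_cancel₀ q0.ne' ?_
      rw [f2, h, h', mul_assoc, g3]
    have a1 : θ'.γ 1 1 = RR θ' 0 * B.param.γ 0 0 := by
      refine mul_right_cancel₀ q1.ne' ?_
      rw [f3, h, h', mul_assoc, g2]
    have a2 : θ'.γ 0 1 = RR θ' 0 * B.param.γ 0 1 := by rw [f1, g1]
    refine ⟨Equiv.swap 0 1, RR θ' 0, hR0, ?_, ?_⟩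
    · intro i
      rcases Fin.exists_fin_two.1 ⟨i, rfl⟩ with hi | hi <;> rw [hi]
      · rw [Equiv.swap_apply_left]
        exact h
      · rw [Equiv.swap_apply_right]
        exact h'
    · intro i j
      rcases Fin.exists_fin_two.1 ⟨i, rfl⟩ with hi | hi <;> rcases Fin.exists_fin_two.1 ⟨j, rfl⟩ with hj | hj <;>
        rw [hi, hj]
      · rw [Equiv.swap_apply_left]
        exact a0
      · rw [Equiv.swap_apply_left, Equiv.swap_apply_right, a2, hsB]
      · rw [Equiv.swap_apply_left, Equiv.swap_apply_right, ← hs', a2]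
      · rw [Equiv.swap_apply_right]
        exact a1

end Pool.Agent.H1.HP
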