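import Pool.Agent.H1.HP.Chi
import Pool.Agent.H1.HP.Growth

/-!
# Balanced models: lower bound for the growth of the logarithms of the degrees
-/

set_option autoImplicit false

namespace Pool.Agent.H1.HP

open Finset

variable (B : Bal)

theorem rate_bal (n : ℕ) (h : Hist n) (l : Lab 2 n) (j : Fin 2) :
    rate B.param n h l j = B.g (GG B n h l / zz B.th n) (B.f j) / zz B.th n := by
  have hz := (zz_pos B.th_nonneg n).ne'
  have hG := GG_abs (B := B) n h l
  unfold rate
  rw [Fin.sum_univ_two, den_bal, den_bal, ← B.sum_r hG (B.f j)]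
  have h0 := B.den_ge hG 0
  have h1 := B.den_ge hG 1
  show B.p 0 * (1 + B.t * B.f 0 * B.f j) / _ + B.p 1 * (1 + B.t * B.f 1 * B.f j) / _ = _
  unfold Bal.r
  have e0 : (1 + B.t * B.f 0 * (GG B n h l / zz B.th n)) ≠ 0 := by linarith
  have e1 : (1 + B.t * B.f 1 * (GG B n h l / zz B.th n)) ≠ 0 := by linarith
  generalize (1 + B.t * B.f 0 * (GG B n h l / zz B.th n)) = d0 at *
  generalize (1 + B.t * B.f 1 * (GG B n h l / zz B.th n)) = d1 at *
  field_simp

theorem step_bal (n : ℕ) (h : Hist n) (l : Lab 2 n) (φ : ℕ → Fin 2 → ℝ) :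
    step B.param n h l φ = ∑ t : Fin (n + 1), mu B.th n h t *
      (B.r (GG B n h l / zz B.th n) (xx B n l t) 0 * φ t 0 + B.r (GG B n h l / zz B.th n) (xx B n l t) 1 * φ t 1) := by
  unfold step
  refine sum_congr rfl fun t _ => ?_
  rw [Fin.sum_univ_two, trans_bal, trans_bal]
  ring

/-- the increment of `GG` -/
noncomputable def dG (n : ℕ) (l : Lab 2 n) (t : ℕ) (k : Fin 2) : ℝ :=
  xx B n l t + B.f k + (if t = n then 1 else 0) * (B.f k - xx B n l t)

variable {B}

theorem dG_abs (n : ℕ) (l : Lab 2 n) (t : ℕ) (k : Fin 2) : |dG B n l t k| ≤ 4 := by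
  unfold dG
  have h1 := abs_le.1 (B.f_le k)
  have h2 := abs_le.1 (xx_abs (B := B) n l t)
  split_ifs
  · rw [abs_le]
    constructor <;> linarith [h1.1, h1.2]
  · rw [abs_le]
    constructor <;> linarith [h1.1, h1.2, h2.1, h2.2]

theorem step_dG (n : ℕ) (h : Hist n) (l : Lab 2 n) :
    |step B.param n h l (dG B n l) - GG B n h l / zz B.th n| ≤
      40 * B.t ^ 2 * |GG B n h l / zz B.th n| + 3 / zz B.th n := by
  have hG := GG_abs (B := B) n h l
  have hz0 := zz_pos B.th_nonneg n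
  have hψ := sum_mu_xx (B := B) n h l
  have hh := sum_h B (μ := fun t : Fin (n + 1) => mu B.th n h t) (x := fun t => xx B n l t) (sum_mu B.th_nonneg n h)
    hψ
  rw [step_bal]
  set ψ := GG B n h l / zz B.th n with hψdef
  have e1 : ∑ t : Fin (n + 1), mu B.th n h t * (B.r ψ (xx B n l t) 0 * dG B n l t 0 +
      B.r ψ (xx B n l t) 1 * dG B n l t 1) - ψ =
      ∑ t : Fin (n + 1), mu B.th n h t * (xx B n l t * (B.g ψ (xx B n l t) - 1)) +
      ∑ t : Fin (n + 1), mu B.th n h t * ((if (t : ℕ) = n then 1 else 0) * (B.h ψ (xx B n l t) -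
        xx B n l t * B.g ψ (xx B n l t))) := by
    have e2 : ∀ t : Fin (n + 1), mu B.th n h t * (B.r ψ (xx B n l t) 0 * dG B n l t 0 +
        B.r ψ (xx B n l t) 1 * dG B n l t 1) =
        mu B.th n h t * (xx B n l t * (B.g ψ (xx B n l t) - 1)) + mu B.th n h t * xx B n l t +
        mu B.th n h t * B.h ψ (xx B n l t) +
        mu B.th n h t * ((if (t : ℕ) = n then 1 else 0) * (B.h ψ (xx B n l t) -
        xx B n l t * B.g ψ (xx B n l t))) := by
      intro t
      have s1 := B.sum_r hG (xx B n l t)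
      have s2 := B.sum_rf hG (xx B n l t)
      rw [← s1, ← s2]
      unfold dG
      ring
    rw [sum_congr rfl fun t _ => e2 t, sum_add_distrib, sum_add_distrib, sum_add_distrib, hψ]
    rw [hh]
    ring
  rw [e1]
  have b1 := wsum_abs (μ := fun t : Fin (n + 1) => mu B.th n h t) (φ := fun t => xx B n l t *
    (B.g ψ (xx B n l t) - 1)) (c := 40 * B.t ^ 2 * |ψ|) (fun t => mu_nonneg B.th_nonneg n h t)
    (sum_mu B.th_nonneg n h) fun t => by
      rw [abs_mul]
      have a1 := xx_abs (B := B) n l t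
      have a2 := B.g_sub hG a1
      have := mul_le_mul a1 a2 (abs_nonneg _) (by norm_num)
      linarith
  have b2 := wsum_abs' (μ := fun t : Fin (n + 1) => mu B.th n h t) (e := fun t => if (t : ℕ) = n then 1 else 0)
    (φ := fun t => B.h ψ (xx B n l t) - xx B n l t * B.g ψ (xx B n l t)) (c := 201 / 100)
    (d := (1001 / 1000) / zz B.th n) (fun t => mu_nonneg B.th_nonneg n h t)
    (fun t => by split_ifs <;> norm_num) (by
      rw [sum_mu_mul B.th n h (fun t => if t = n then 1 else 0)]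
      have e1 : ∑ v ∈ range n, (deg n h v : ℝ) * (if v = n then 1 else 0) = 0 := by
        refine sum_eq_zero fun v hv => ?_
        rw [mem_range] at hv
        rw [if_neg (by omega), mul_zero]
      rw [e1, if_pos rfl]
      refine div_le_div_of_nonneg_right ?_ hz0.le
      linarith [B.th_le]) (by norm_num) fun t => by
      have a1 := xx_abs (B := B) n l t
      have a2 := B.g_abs hG a1
      have a3 := B.h_abs hG a1
      refine (abs_sub _ _).trans ?_
      rw [abs_mul]
      have := mul_le_mul a1 a2 (abs_nonneg _) (by norm_num)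
      linarith
  refine (abs_add_le _ _).trans ?_
  have b3 : (1001 / 1000) / zz B.th n * (201 / 100) ≤ 3 / zz B.th n := by
    rw [div_mul_eq_mul_div]
    exact div_le_div_of_nonneg_right (by norm_num) hz0.le
  linarith

theorem zz_le (n : ℕ) : zz B.th n ≤ 2 * (n + 1) := by
  unfold zz
  linarith [B.th_le]

theorem zz_ge' (n : ℕ) : (n : ℝ) + 1 ≤ zz B.th n := by
  unfold zz
  have : (0 : ℝ) ≤ n := Nat.cast_nonneg n
  linarith [B.th_nonneg]

theorem zz_ge2 (n : ℕ) : 2 * (n : ℝ) + 1 ≤ zz B.th n := by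
  unfold zz
  linarith [B.th_nonneg]

variable (B) in
/-- the mean of the squares of the imbalance -/
noncomputable def P2 (n : ℕ) : ℝ := Ex B.param n fun h l => (GG B n h l / zz B.th n) ^ 2

theorem P2_nonneg (n : ℕ) : 0 ≤ P2 B n := by
  have := Ex_mono B.valid (n := n) (F := fun _ _ => 0) (F' := fun h l => (GG B n h l / zz B.th n) ^ 2)
    fun h l => sq_nonneg _
  rwa [Ex_const B.valid] at this

theorem P2_le (n : ℕ) : P2 B n ≤ 4 := by
  have := Ex_mono B.valid (n := n) (F := fun h l => (GG B n h l / zz B.th n) ^ 2) (F' := fun _ _ => 4)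
    fun h l => by
      have := abs_le.1 (GG_abs (B := B) n h l)
      nlinarith [this.1, this.2]
  rwa [Ex_const B.valid] at this

theorem P2_succ (n : ℕ) : P2 B (n + 1) ≤ P2 B n - 1 / 4 * (P2 B n / ((n : ℝ) + 1)) + 8 / ((n : ℝ) + 1) ^ 2 := by
  have hz0 := zz_pos B.th_nonneg n
  have hz1 := zz_ge B.th_nonneg n
  have hz2 := zz_le (B := B) n
  have hz3 := zz_ge2 (B := B) n
  have hn : (0 : ℝ) ≤ n := Nat.cast_nonneg n
  have hzs : zz B.th (n + 1) = zz B.th n + 2 := by
    unfold zz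
    push_cast
    ring
  unfold P2
  rw [Ex_succ' n _ (fun h l t k => (zz B.th n * (GG B n h l / zz B.th n) + dG B n l t k) ^ 2 / (zz B.th n + 2) ^ 2)
    (fun h l t k => by
      rw [GG_succ, hzs, div_pow]
      unfold dG
      rw [mul_div_cancel₀ _ hz0.ne'])]
  have key : ∀ (h : Hist n) (l : Lab 2 n), step B.param n h l (fun t k =>
      (zz B.th n * (GG B n h l / zz B.th n) + dG B n l t k) ^ 2 / (zz B.th n + 2) ^ 2) ≤
      (1 - 1 / (4 * ((n : ℝ) + 1))) * (GG B n h l / zz B.th n) ^ 2 + 8 / ((n : ℝ) + 1) ^ 2 := by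
    intro h l
    have hG := GG_abs (B := B) n h l
    have hD := step_dG (B := B) n h l
    set ψ := GG B n h l / zz B.th n with hψdef
    set z := zz B.th n with hz
    have s1 : step B.param n h l (fun t k => (z * ψ + dG B n l t k) ^ 2 / (z + 2) ^ 2) ≤
        step B.param n h l (fun t k => ((z * ψ) ^ 2 + 16) / (z + 2) ^ 2 +
          (2 * z * ψ / (z + 2) ^ 2) * dG B n l t k) := by
      refine step_mono B.valid fun t k => ?_
      have a1 := abs_le.1 (dG_abs (B := B) n l t k)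
      have a2 : dG B n l t k ^ 2 ≤ 16 := by nlinarith [a1.1, a1.2]
      have a3 : ((z * ψ) ^ 2 + 16) / (z + 2) ^ 2 + (2 * z * ψ / (z + 2) ^ 2) * dG B n l t k =
        ((z * ψ) ^ 2 + 16 + 2 * z * ψ * dG B n l t k) / (z + 2) ^ 2 := by ring
      rw [a3]
      refine div_le_div_of_nonneg_right ?_ (by positivity)
      nlinarith
    rw [step_add, step_const B.valid, step_mul] at s1
    refine s1.trans ?_
    set D := step B.param n h l (dG B n l) with hDdef
    have hψ1 : |ψ| ^ 2 = ψ ^ 2 := sq_abs ψ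
    have ht := B.t_sq
    have s2 : ψ * D ≤ ψ ^ 2 + 1 / 1000 * ψ ^ 2 + 6 / z := by
      have a1 : ψ * (D - ψ) ≤ |ψ| * (40 * B.t ^ 2 * |ψ| + 3 / z) := by
        refine (le_abs_self _).trans ?_
        rw [abs_mul]
        exact mul_le_mul_of_nonneg_left hD (abs_nonneg _)
      have a2 : |ψ| * (40 * B.t ^ 2 * |ψ| + 3 / z) = 40 * B.t ^ 2 * |ψ| ^ 2 + 3 * |ψ| / z := by ring
      have a3 : 3 * |ψ| / z ≤ 6 / z := div_le_div_of_nonneg_right (by linarith) hz0.le
      have a4 : 40 * B.t ^ 2 * |ψ| ^ 2 ≤ 1 / 1000 * ψ ^ 2 := by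
        rw [hψ1]
        refine mul_le_mul_of_nonneg_right ?_ (sq_nonneg _)
        linarith
      nlinarith
    have s3 : ((z * ψ) ^ 2 + 16) / (z + 2) ^ 2 + 2 * z * ψ / (z + 2) ^ 2 * D =
        (z ^ 2 * ψ ^ 2 + 16 + 2 * z * (ψ * D)) / (z + 2) ^ 2 := by ring
    rw [s3]
    have s4 : z ^ 2 * ψ ^ 2 + 16 + 2 * z * (ψ * D) ≤ (z ^ 2 + 2002 / 1000 * z) * ψ ^ 2 + 28 := by
      have a1 : 2 * z * (ψ * D) ≤ 2 * z * (ψ ^ 2 + 1 / 1000 * ψ ^ 2 + 6 / z) :=
        mul_le_mul_of_nonneg_left s2 (by linarith)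
      have a2 : 2 * z * (ψ ^ 2 + 1 / 1000 * ψ ^ 2 + 6 / z) = 2002 / 1000 * z * ψ ^ 2 + 12 := by
        field_simp
        ring
      nlinarith
    have s5 : (z ^ 2 * ψ ^ 2 + 16 + 2 * z * (ψ * D)) / (z + 2) ^ 2 ≤
        ((z ^ 2 + 2002 / 1000 * z) * ψ ^ 2 + 28) / (z + 2) ^ 2 := div_le_div_of_nonneg_right s4 (by positivity)
    refine s5.trans ?_
    rw [add_div]
    have s6 : (z ^ 2 + 2002 / 1000 * z) * ψ ^ 2 / (z + 2) ^ 2 ≤ (1 - 1 / (4 * ((n : ℝ) + 1))) * ψ ^ 2 := by
      rw [mul_div_right_comm]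
      refine mul_le_mul_of_nonneg_right ?_ (sq_nonneg _)
      have a1 : 1 / (4 * ((n : ℝ) + 1)) ≤ 1 / (z + 2) := one_div_le_one_div_of_le (by linarith) (by linarith)
      have a2 : (z ^ 2 + 2002 / 1000 * z) / (z + 2) ^ 2 ≤ 1 - 1 / (z + 2) := by
        rw [div_le_iff₀ (by positivity)]
        have a3 : (1 - 1 / (z + 2)) * (z + 2) ^ 2 = (z + 2) ^ 2 - (z + 2) := by
          have : z + 2 ≠ 0 := by linarith
          field_simp
        rw [a3]
        nlinarith
      linarith
    have s7 : 28 / (z + 2) ^ 2 ≤ 8 / ((n : ℝ) + 1) ^ 2 := by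
      rw [div_le_div_iff₀ (by positivity) (by positivity)]
      nlinarith
    linarith
  have h2 := Ex_mono B.valid (n := n) key
  rw [Ex_add, Ex_const B.valid, Ex_const_mul] at h2
  refine h2.trans (le_of_eq ?_)
  generalize (Ex B.param n fun h l => (GG B n h l / zz B.th n) ^ 2) = e
  have hn1 : (n : ℝ) + 1 ≠ 0 := by linarith
  field_simp

theorem sum_P2 {m n : ℕ} (hn : m ≤ n) : ∑ i ∈ Ico m n, P2 B i / ((i : ℝ) + 1) ≤ 80 := by
  have h := sum_le_of_step (a := P2 B) (b := fun i => P2 B i / ((i : ℝ) + 1)) (c := 1 / 4) (d := 8) (by norm_num)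
    (by norm_num) (m := m) P2_nonneg (fun i _ => P2_succ i) hn
  have := P2_le (B := B) m
  linarith

theorem rate_lower (n : ℕ) (h : Hist n) (l : Lab 2 n) (j : Fin 2) :
    1 / (2 * (n : ℝ) + 2) - |GG B n h l / zz B.th n| / (n + 1) ≤ rate B.param n h l j := by
  have hz0 := zz_pos B.th_nonneg n
  have hz2 := zz_le (B := B) n
  have hz3 := zz_ge' (B := B) n
  have hn : (0 : ℝ) ≤ n := Nat.cast_nonneg n
  have hG := GG_abs (B := B) n h l
  have hg := (abs_le.1 (B.g_sub hG (B.f_le j))).1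
  have ht := B.t_sq
  rw [rate_bal]
  set ψ := GG B n h l / zz B.th n with hψdef
  have h1 : 20 * B.t ^ 2 * |ψ| ≤ |ψ| := by nlinarith [abs_nonneg ψ]
  have h2 : (1 - |ψ|) / zz B.th n ≤ B.g ψ (B.f j) / zz B.th n := div_le_div_of_nonneg_right (by linarith) hz0.le
  refine le_trans ?_ h2
  rw [sub_div]
  have h3 : 1 / (2 * (n : ℝ) + 2) ≤ 1 / zz B.th n := one_div_le_one_div_of_le hz0 (by linarith)
  have h4 : |ψ| / zz B.th n ≤ |ψ| / (n + 1) := div_le_div_of_nonneg_left (abs_nonneg _) (by linarith) hz3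
  linarith

theorem rate_lower' (n : ℕ) (h : Hist n) (l : Lab 2 n) (j : Fin 2) :
    1 / (4 * ((n : ℝ) + 1)) ≤ rate B.param n h l j := by
  have hz0 := zz_pos B.th_nonneg n
  have hz2 := zz_le (B := B) n
  have hn : (0 : ℝ) ≤ n := Nat.cast_nonneg n
  have hG := GG_abs (B := B) n h l
  have hg := (abs_le.1 (B.g_sub hG (B.f_le j))).1
  have ht := B.t_sq
  rw [rate_bal]
  set ψ := GG B n h l / zz B.th n with hψdef
  have h1 : 20 * B.t ^ 2 * |ψ| ≤ 1 / 2 := by nlinarith [abs_nonneg ψ, sq_nonneg B.t]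
  have h2 : (1 / 2) / zz B.th n ≤ B.g ψ (B.f j) / zz B.th n := div_le_div_of_nonneg_right (by linarith) hz0.le
  refine le_trans ?_ h2
  rw [div_le_div_iff₀ (by linarith) hz0]
  linarith

theorem rate_upper (n : ℕ) (h : Hist n) (l : Lab 2 n) (j : Fin 2) :
    rate B.param n h l j ≤ 2 / ((n : ℝ) + 1) := by
  have hz0 := zz_pos B.th_nonneg n
  have hz3 := zz_ge' (B := B) n
  have hn : (0 : ℝ) ≤ n := Nat.cast_nonneg n
  have hG := GG_abs (B := B) n h l
  have hg := (abs_le.1 (B.g_abs hG (B.f_le j))).2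
  rw [rate_bal]
  exact div_le_div₀ (by norm_num) (by linarith) (by linarith) hz3

variable (B) in
/-- the mean inverse degree of the first `m` nodes -/
noncomputable def ID (m n : ℕ) : ℝ := Ex B.param n fun h _ => 1 / (m : ℝ) * ∑ v ∈ range m, 1 / (deg n h v : ℝ)

theorem ID_nonneg (m n : ℕ) : 0 ≤ ID B m n := by
  have := Ex_mono B.valid (n := n) (F := fun _ _ => 0)
    (F' := fun h _ => 1 / (m : ℝ) * ∑ v ∈ range m, 1 / (deg n h v : ℝ)) fun h l => by positivity
  rwa [Ex_const B.valid] at this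

theorem ID_le (m n : ℕ) : ID B m n ≤ 1 := by
  have := Ex_mono B.valid (n := n) (F := fun h _ => 1 / (m : ℝ) * ∑ v ∈ range m, 1 / (deg n h v : ℝ))
    (F' := fun _ _ => 1) fun h l => by
      have h1 : ∑ v ∈ range m, 1 / (deg n h v : ℝ) ≤ ∑ v ∈ range m, (1 : ℝ) := by
        refine sum_le_sum fun v _ => ?_
        rcases Nat.eq_zero_or_pos (deg n h v) with h0 | h0
        · rw [h0]
          norm_num
        · rw [div_le_one (by exact_mod_cast h0)]
          exact_mod_cast h0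
      rw [sum_const, card_range, nsmul_eq_mul, mul_one] at h1
      rcases Nat.eq_zero_or_pos m with h0 | h0
      · rw [h0]
        simp
      · have hm : (0 : ℝ) < m := by exact_mod_cast h0
        rw [one_div, inv_mul_le_iff₀ hm, mul_one]
        exact h1
  rwa [Ex_const B.valid] at this

theorem ID_succ (m n : ℕ) (hn : m ≤ n) :
    ID B m (n + 1) ≤ ID B m n - 1 / 8 * (ID B m n / ((n : ℝ) + 1)) + 0 / ((n : ℝ) + 1) ^ 2 := by
  have hn0 : (0 : ℝ) ≤ n := Nat.cast_nonneg n
  unfold ID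
  rw [Ex_succ' n _ (fun h l t k => 1 / (m : ℝ) * ∑ v ∈ range m, (1 / (deg n h v : ℝ) +
    (if t = v then 1 / ((deg n h v : ℝ) + 1) - 1 / (deg n h v : ℝ) else 0)))
    (fun h l t k => by
      congr 1
      refine sum_congr rfl fun v hv => ?_
      rw [mem_range] at hv
      rw [deg_succ, if_neg (by omega)]
      by_cases ht : (t : ℕ) = v
      · rw [if_pos ht, if_pos ht.symm]
        push_cast
        ring_nf
      · rw [if_neg ht, if_neg (fun h => ht h.symm)]
        push_cast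
        ring_nf)]
  have key : ∀ (h : Hist n) (l : Lab 2 n), step B.param n h l (fun t _ => 1 / (m : ℝ) * ∑ v ∈ range m,
      (1 / (deg n h v : ℝ) + (if t = v then 1 / ((deg n h v : ℝ) + 1) - 1 / (deg n h v : ℝ) else 0))) ≤
      (1 - 1 / (8 * ((n : ℝ) + 1))) * (1 / (m : ℝ) * ∑ v ∈ range m, 1 / (deg n h v : ℝ)) := by
    intro h l
    rw [step_mul, step_sum (range m) (fun v t _ => (1 / (deg n h v : ℝ) +
      (if t = v then 1 / ((deg n h v : ℝ) + 1) - 1 / (deg n h v : ℝ) else 0)))]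
    have h1 : ∀ v ∈ range m, step B.param n h l (fun t _ => (1 / (deg n h v : ℝ) +
        (if t = v then 1 / ((deg n h v : ℝ) + 1) - 1 / (deg n h v : ℝ) else 0))) ≤
        (1 - 1 / (8 * ((n : ℝ) + 1))) * (1 / (deg n h v : ℝ)) := by
      intro v hv
      rw [mem_range] at hv
      rw [step_add, step_const B.valid, step_node h l (by omega : v < n)]
      have hd : (1 : ℝ) ≤ deg n h v := by exact_mod_cast deg_pos n h v (by omega)
      have hr := rate_lower' (B := B) n h l (label n l v)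
      set d := (deg n h v : ℝ) with hd'
      set r := rate B.param n h l (label n l v) with hr'
      have e1 : d * r * (1 / (d + 1) - 1 / d) = - (r / (d + 1)) := by
        field_simp
        ring
      rw [e1]
      have e2 : 1 / (4 * ((n : ℝ) + 1)) / (2 * d) ≤ r / (d + 1) := by
        have : 0 < 1 / (4 * ((n : ℝ) + 1)) := by positivity
        exact div_le_div₀ (by linarith) hr (by linarith) (by linarith)
      have e3 : 1 / (4 * ((n : ℝ) + 1)) / (2 * d) = 1 / (8 * ((n : ℝ) + 1)) * (1 / d) := by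
        field_simp
        norm_num
      rw [e3] at e2
      linarith
    have h2 := mul_le_mul_of_nonneg_left (sum_le_sum h1) (show 0 ≤ 1 / (m : ℝ) by positivity)
    rw [← mul_sum] at h2
    refine h2.trans (le_of_eq ?_)
    ring
  have h2 := Ex_mono B.valid (n := n) key
  rw [Ex_const_mul] at h2
  refine h2.trans (le_of_eq ?_)
  generalize (Ex B.param n fun h _ => 1 / (m : ℝ) * ∑ v ∈ range m, 1 / (deg n h v : ℝ)) = e
  have hn1 : (n : ℝ) + 1 ≠ 0 := by linarith
  field_simp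
  ring

theorem sum_ID {m n : ℕ} (hn : m ≤ n) : ∑ i ∈ Ico m n, ID B m i / ((i : ℝ) + 1) ≤ 8 := by
  have h := sum_le_of_step (a := ID B m) (b := fun i => ID B m i / ((i : ℝ) + 1)) (c := 1 / 8) (d := 0) (by norm_num)
    le_rfl (m := m) (ID_nonneg m) (fun i hi => ID_succ m i hi) hn
  have := ID_le (B := B) m m
  linarith

theorem step_LD_lower (m n : ℕ) (hm0 : 1 ≤ m) (hm : m ≤ n) (h : Hist n) (l : Lab 2 n) {ε : ℝ} (hε : 0 < ε) :
    LD m n h + (1 / (2 * (n : ℝ) + 2) - (ε + (GG B n h l / zz B.th n) ^ 2 / (4 * ε)) / (n + 1) -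
      (1 / (m : ℝ) * ∑ v ∈ range m, 1 / (deg n h v : ℝ)) / (n + 1)) ≤
    step B.param n h l (fun t _ => LD m n h + 1 / (m : ℝ) * ∑ v ∈ range m,
      (if t = v then Real.log ((deg n h v : ℝ) + 1) - Real.log (deg n h v) else 0)) := by
  rw [step_add, step_const B.valid, step_mul, step_sum (range m) (fun v t _ =>
    (if t = v then Real.log ((deg n h v : ℝ) + 1) - Real.log (deg n h v) else 0))]
  have hm1 : (0 : ℝ) < m := by exact_mod_cast hm0
  have hn : (0 : ℝ) ≤ n := Nat.cast_nonneg n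
  have hψ : |GG B n h l / zz B.th n| ≤ ε + (GG B n h l / zz B.th n) ^ 2 / (4 * ε) := by
    set ψ := GG B n h l / zz B.th n with hψdef
    have h5 : ψ ^ 2 / (4 * ε) + ε - |ψ| = (|ψ| - 2 * ε) ^ 2 / (4 * ε) := by
      rw [← sq_abs ψ]
      field_simp
      ring
    have h6 : 0 ≤ (|ψ| - 2 * ε) ^ 2 / (4 * ε) := by positivity
    linarith
  set ρ := ε + (GG B n h l / zz B.th n) ^ 2 / (4 * ε) with hρ
  have h1 : ∀ v ∈ range m, (1 / (2 * (n : ℝ) + 2) - ρ / (n + 1)) - 1 / (deg n h v : ℝ) / (n + 1) ≤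
      step B.param n h l (fun t _ =>
      (if t = v then Real.log ((deg n h v : ℝ) + 1) - Real.log (deg n h v) else 0)) := by
    intro v hv
    rw [mem_range] at hv
    rw [step_node h l (by omega : v < n)]
    have hd : (1 : ℝ) ≤ deg n h v := by exact_mod_cast deg_pos n h v (by omega)
    have hr1 := rate_lower (B := B) n h l (label n l v)
    have hr2 := rate_upper (B := B) n h l (label n l v)
    have hr0 := rate_lower' (B := B) n h l (label n l v)
    set d := (deg n h v : ℝ) with hd'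
    set r := rate B.param n h l (label n l v) with hr'
    have hr3 : 0 ≤ r := le_trans (by positivity) hr0
    have h2 : 1 / d - 1 / (2 * d ^ 2) ≤ Real.log (d + 1) - Real.log d := by
      rw [← Real.log_div (by positivity) (by positivity)]
      have h3 : (d + 1) / d = 1 + 1 / d := by
        field_simp
      rw [h3]
      have := log_one_add_ge (u := 1 / d) (by positivity)
      have h4 : (1 / d) ^ 2 / 2 = 1 / (2 * d ^ 2) := by
        field_simp
      linarith
    have h3 : d * r * (1 / d - 1 / (2 * d ^ 2)) ≤ d * r * (Real.log (d + 1) - Real.log d) :=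
      mul_le_mul_of_nonneg_left h2 (by positivity)
    have h4 : d * r * (1 / d - 1 / (2 * d ^ 2)) = r - r / (2 * d) := by
      field_simp
    have h5 : r / (2 * d) ≤ 1 / d / (n + 1) := by
      have : r / (2 * d) ≤ 2 / ((n : ℝ) + 1) / (2 * d) := div_le_div_of_nonneg_right hr2 (by linarith)
      refine this.trans (le_of_eq ?_)
      field_simp
    have h6 : |GG B n h l / zz B.th n| / (n + 1) ≤ ρ / (n + 1) := div_le_div_of_nonneg_right hψ (by linarith)
    linarith
  have h2 := mul_le_mul_of_nonneg_left (sum_le_sum h1) (show 0 ≤ 1 / (m : ℝ) by positivity)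
  rw [sum_sub_distrib, sum_const, card_range, nsmul_eq_mul, ← sum_div] at h2
  have h3 : 1 / (m : ℝ) * (m * (1 / (2 * (n : ℝ) + 2) - ρ / (n + 1)) - (∑ v ∈ range m, 1 / (deg n h v : ℝ)) / (n + 1)) =
      1 / (2 * (n : ℝ) + 2) - ρ / (n + 1) - (1 / (m : ℝ) * ∑ v ∈ range m, 1 / (deg n h v : ℝ)) / (n + 1) := by
    generalize (∑ v ∈ range m, 1 / (deg n h v : ℝ)) = S
    generalize 1 / (2 * (n : ℝ) + 2) = A
    field_simp
  rw [h3] at h2
  linarith

/-- the lower bound for the growth of the logarithms of the degrees -/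
theorem growth_lower (m n : ℕ) (hm : 1 ≤ m) (hn : m ≤ n) {ε : ℝ} (hε : 0 < ε) :
    (Ex B.param m fun h _ => LD m m h) + ∑ i ∈ Ico m n, 1 / (2 * (i : ℝ) + 2) - ε * HH n - 20 / ε - 8 ≤
      Ex B.param n fun h _ => LD m n h := by
  have h1 : ∀ i, m ≤ i → - (Ex B.param (i + 1) fun h _ => LD m (i + 1) h) ≤
      - (Ex B.param i fun h _ => LD m i h) + (- (1 / (2 * (i : ℝ) + 2)) + ε * (1 / ((i : ℝ) + 1)) +
        1 / (4 * ε) * (P2 B i / ((i : ℝ) + 1)) + ID B m i / ((i : ℝ) + 1)) := by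
    intro i hi
    have hn0 : (0 : ℝ) ≤ i := Nat.cast_nonneg i
    rw [Ex_succ' i _ (fun h l t k => LD m i h + 1 / (m : ℝ) * ∑ v ∈ range m,
      (if t = v then Real.log ((deg i h v : ℝ) + 1) - Real.log (deg i h v) else 0))
      (fun h l t k => LD_succ m i hi h t)]
    have h2 := Ex_mono B.valid (n := i) (fun h l => step_LD_lower (B := B) m i hm hi h l hε)
    have h3 : (Ex B.param i fun h l => LD m i h + (1 / (2 * (i : ℝ) + 2) - (ε + (GG B i h l / zz B.th i) ^ 2 /
        (4 * ε)) / (i + 1) - (1 / (m : ℝ) * ∑ v ∈ range m, 1 / (deg i h v : ℝ)) / (i + 1))) =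
        (Ex B.param i fun h _ => LD m i h) + (1 / (2 * (i : ℝ) + 2) - ε * (1 / ((i : ℝ) + 1)) -
        1 / (4 * ε) * (P2 B i / ((i : ℝ) + 1)) - ID B m i / ((i : ℝ) + 1)) := by
      have e1 : (fun (h : Hist i) (l : Lab 2 i) => LD m i h + (1 / (2 * (i : ℝ) + 2) - (ε + (GG B i h l / zz B.th i) ^ 2 /
        (4 * ε)) / (i + 1) - (1 / (m : ℝ) * ∑ v ∈ range m, 1 / (deg i h v : ℝ)) / (i + 1))) =
        fun h l => (LD m i h + (1 / (2 * (i : ℝ) + 2) - ε * (1 / ((i : ℝ) + 1)))) -
          ((1 / (4 * ε) / ((i : ℝ) + 1)) * (GG B i h l / zz B.th i) ^ 2 + (1 / ((i : ℝ) + 1)) *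
          (1 / (m : ℝ) * ∑ v ∈ range m, 1 / (deg i h v : ℝ))) := by
        funext h l
        generalize (GG B i h l / zz B.th i) = ψ
        generalize (1 / (m : ℝ) * ∑ v ∈ range m, 1 / (deg i h v : ℝ)) = S
        generalize 1 / (2 * (i : ℝ) + 2) = A
        field_simp
        ring
      rw [e1, Ex_sub, Ex_add, Ex_add, Ex_const B.valid, Ex_const_mul, Ex_const_mul]
      unfold P2 ID
      ring
    rw [h3] at h2
    linarith
  have h2 := le_of_step (u := fun n => - (Ex B.param n fun h _ => LD m n h))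
    (w := fun i => - (1 / (2 * (i : ℝ) + 2)) + ε * (1 / ((i : ℝ) + 1)) +
        1 / (4 * ε) * (P2 B i / ((i : ℝ) + 1)) + ID B m i / ((i : ℝ) + 1)) h1 hn
  rw [sum_add_distrib, sum_add_distrib, sum_add_distrib, sum_neg_distrib, ← mul_sum, ← mul_sum, sum_Ico_HH hn] at h2
  have h3 := sum_P2 (B := B) hn
  have h4 := sum_ID (B := B) hn
  have h5 := mul_le_mul_of_nonneg_left h3 (show 0 ≤ 1 / (4 * ε) by positivity)
  have h6 : 1 / (4 * ε) * 80 = 20 / ε := by
    field_simp
    norm_num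
  have h7 := mul_nonneg hε.le (HH_nonneg m)
  linarith

end Pool.Agent.H1.HP
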