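import Pool.Agent.H1.HP.LogAvg

/-!
# Consequences of the concentration of the proportions
-/

set_option autoImplicit false

namespace Pool.Agent.H1.HP

open Finset

/-- the limits of the normalisations -/
noncomputable def RR (θ : Param 2) (k : Fin 2) : ℝ := θ.γ k 0 * θ.π 0 + θ.γ k 1 * θ.π 1

/-- the deviation of the proportion -/
noncomputable def dev (θ : Param 2) (n : ℕ) (h : Hist n) (l : Lab 2 n) : ℝ := |AA n h l 0 / (2 * n + 2) - θ.π 0|

/-- the mean deviation -/
noncomputable def DV (θ : Param 2) (n : ℕ) : ℝ := Ex θ n fun h l => dev θ n h l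

section

variable {θ : Param 2} {c1 c2 : ℝ} (hb : Bounds θ c1 c2)

include hb

theorem RR_ge (k : Fin 2) : c1 ≤ RR θ k := by
  unfold RR
  have h0 := mul_le_mul_of_nonneg_right (hb.lower k 0) (hb.pi_pos 0).le
  have h1 := mul_le_mul_of_nonneg_right (hb.lower k 1) (hb.pi_pos 1).le
  have h2 := pi_add hb
  have : c1 = c1 * θ.π 0 + c1 * θ.π 1 := by rw [← mul_add, h2, mul_one]
  linarith

theorem DV_nonneg (n : ℕ) : 0 ≤ DV θ n := by
  have := Ex_mono hb.valid (n := n) (F := fun _ _ => 0) (F' := fun h l => dev θ n h l) fun h l => abs_nonneg _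
  rwa [Ex_const hb.valid] at this

theorem NN_div (n : ℕ) (h : Hist n) (l : Lab 2 n) (k : Fin 2) :
    |NN n h l 0 / den θ n h l k - θ.π 0 / RR θ k| ≤ c2 / c1 ^ 2 * (2 * dev θ n h l + 2 / (n + 1)) := by
  have hR := RR_ge hb k
  have hD := den_ge hb n h l k
  have hc1 := hb.c1_pos
  have hc2 := c2_pos hb
  have hn : (0 : ℝ) ≤ n := Nat.cast_nonneg n
  have hR0 : 0 < RR θ k := by linarith
  have hD0 : 0 < den θ n h l k := den_pos hb.valid n h l k
  have e1 : NN n h l 0 / den θ n h l k - θ.π 0 / RR θ k =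
      (NN n h l 0 * RR θ k - θ.π 0 * den θ n h l k) / (den θ n h l k * RR θ k) := by
    field_simp
  have e2 : NN n h l 0 * RR θ k - θ.π 0 * den θ n h l k =
      θ.γ k 1 * ((2 * n + 2) * (AA n h l 0 / (2 * n + 2) - θ.π 0) + (2 * θ.π 0 - 1)) - θ.π 0 * θ.γ k k := by
    have h1 := NN_add n h l
    have h2 := pi_add hb
    have h3 : (2 * (n : ℝ) + 2) * (AA n h l 0 / (2 * n + 2) - θ.π 0) = AA n h l 0 - (2 * n + 2) * θ.π 0 := by
      field_simp
    rw [h3, den_two]
    unfold RR AA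
    have h4 : θ.π 1 = 1 - θ.π 0 := by linarith
    have h5 : NN n h l 1 = 2 * n - NN n h l 0 := by linarith
    rw [h4, h5]
    ring
  have e3 : |NN n h l 0 * RR θ k - θ.π 0 * den θ n h l k| ≤ c2 * ((2 * n + 2) * dev θ n h l + 1) + c2 := by
    rw [e2]
    refine (abs_sub _ _).trans (add_le_add ?_ ?_)
    · rw [abs_mul, abs_of_pos (hb.valid.pos k 1)]
      refine mul_le_mul (hb.upper k 1) ?_ (abs_nonneg _) hc2.le
      refine (abs_add_le _ _).trans (add_le_add ?_ ?_)
      · rw [abs_mul, abs_of_pos (by positivity : (0 : ℝ) < 2 * n + 2)]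
        rfl
      · have := hb.pi_pos 0
        have := pi_le_one hb 0
        rw [abs_le]
        constructor <;> linarith
    · rw [abs_mul, abs_of_pos (hb.valid.pos k k), abs_of_pos (hb.pi_pos 0)]
      have := mul_le_mul (pi_le_one hb 0) (hb.upper k k) (hb.valid.pos k k).le zero_le_one
      linarith
  rw [e1, abs_div, abs_of_pos (mul_pos hD0 hR0), div_le_iff₀ (mul_pos hD0 hR0)]
  refine e3.trans ?_
  have hd0 : 0 ≤ dev θ n h l := abs_nonneg _
  have h5 : c1 * (n + 1) * c1 ≤ den θ n h l k * RR θ k := by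
    refine mul_le_mul ?_ hR hc1.le hD0.le
    have : c1 * (n + 1) ≤ c1 * (2 * n + 1) := mul_le_mul_of_nonneg_left (by linarith) hc1.le
    linarith
  have h6 : c2 / c1 ^ 2 * (2 * dev θ n h l + 2 / (n + 1)) * (c1 * (n + 1) * c1) ≤
      c2 / c1 ^ 2 * (2 * dev θ n h l + 2 / (n + 1)) * (den θ n h l k * RR θ k) :=
    mul_le_mul_of_nonneg_left h5 (by positivity)
  refine le_trans (le_of_eq ?_) h6
  field_simp
  ring

theorem inv_den (n : ℕ) (h : Hist n) (l : Lab 2 n) (k : Fin 2) :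
    |(n + 1) / den θ n h l k - 1 / (2 * RR θ k)| ≤ c2 / c1 ^ 2 * (2 * dev θ n h l + 2 / (n + 1)) := by
  have hR := RR_ge hb k
  have hD := den_ge hb n h l k
  have hc1 := hb.c1_pos
  have hc2 := c2_pos hb
  have hn : (0 : ℝ) ≤ n := Nat.cast_nonneg n
  have hR0 : 0 < RR θ k := by linarith
  have hD0 : 0 < den θ n h l k := den_pos hb.valid n h l k
  have e1 : (n + 1) / den θ n h l k - 1 / (2 * RR θ k) =
      ((2 * n + 2) * RR θ k - den θ n h l k) / (den θ n h l k * (2 * RR θ k)) := by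
    field_simp
  have e2 : (2 * n + 2) * RR θ k - den θ n h l k =
      θ.γ k 0 * (1 - (2 * n + 2) * (AA n h l 0 / (2 * n + 2) - θ.π 0)) +
      θ.γ k 1 * (1 + (2 * n + 2) * (AA n h l 0 / (2 * n + 2) - θ.π 0)) - θ.γ k k := by
    have h1 := NN_add n h l
    have h2 := pi_add hb
    have h3 : (2 * (n : ℝ) + 2) * (AA n h l 0 / (2 * n + 2) - θ.π 0) = AA n h l 0 - (2 * n + 2) * θ.π 0 := by
      field_simp
    rw [h3, den_two]
    unfold RR AA
    have h4 : θ.π 1 = 1 - θ.π 0 := by linarith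
    have h5 : NN n h l 1 = 2 * n - NN n h l 0 := by linarith
    rw [h4, h5]
    ring
  have hu : |(2 * (n : ℝ) + 2) * (AA n h l 0 / (2 * n + 2) - θ.π 0)| = (2 * n + 2) * dev θ n h l := by
    rw [abs_mul, abs_of_pos (by positivity : (0 : ℝ) < 2 * n + 2)]
    rfl
  have e3 : |(2 * n + 2) * RR θ k - den θ n h l k| ≤ c2 * (1 + (2 * n + 2) * dev θ n h l) +
      c2 * (1 + (2 * n + 2) * dev θ n h l) + c2 := by
    rw [e2]
    refine (abs_sub _ _).trans (add_le_add ((abs_add_le _ _).trans (add_le_add ?_ ?_)) ?_)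
    · rw [abs_mul, abs_of_pos (hb.valid.pos k 0)]
      refine mul_le_mul (hb.upper k 0) ?_ (abs_nonneg _) hc2.le
      refine (abs_sub _ _).trans (le_of_eq ?_)
      rw [hu, abs_one]
    · rw [abs_mul, abs_of_pos (hb.valid.pos k 1)]
      refine mul_le_mul (hb.upper k 1) ?_ (abs_nonneg _) hc2.le
      refine (abs_add_le _ _).trans (le_of_eq ?_)
      rw [hu, abs_one]
    · rw [abs_of_pos (hb.valid.pos k k)]
      exact hb.upper k k
  rw [e1, abs_div, abs_of_pos (by positivity : 0 < den θ n h l k * (2 * RR θ k)), div_le_iff₀ (by positivity)]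
  refine e3.trans ?_
  have hd0 : 0 ≤ dev θ n h l := abs_nonneg _
  have h5 : c1 * (n + 1) * (2 * c1) ≤ den θ n h l k * (2 * RR θ k) := by
    refine mul_le_mul ?_ (by linarith) (by linarith) hD0.le
    have : c1 * (n + 1) ≤ c1 * (2 * n + 1) := mul_le_mul_of_nonneg_left (by linarith) hc1.le
    linarith
  have h6 : c2 / c1 ^ 2 * (2 * dev θ n h l + 2 / (n + 1)) * (c1 * (n + 1) * (2 * c1)) ≤
      c2 / c1 ^ 2 * (2 * dev θ n h l + 2 / (n + 1)) * (den θ n h l k * (2 * RR θ k)) :=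
    mul_le_mul_of_nonneg_left h5 (by positivity)
  refine le_trans ?_ h6
  have h7 : c2 / c1 ^ 2 * (2 * dev θ n h l + 2 / (n + 1)) * (c1 * (n + 1) * (2 * c1)) =
      c2 * (4 * (n + 1) * dev θ n h l + 4) := by
    field_simp
    ring
  rw [h7]
  nlinarith [mul_nonneg hc2.le hd0]

omit hb in
/-- the limiting attachment ratio of the label `0` -/
noncomputable def rho (θ : Param 2) : ℝ := ∑ k, θ.π k * θ.γ k 0 * (1 / RR θ k)

omit hb in
/-- the limiting loop constant -/
noncomputable def lam (θ : Param 2) : ℝ := ∑ k, θ.π k * θ.γ k k * (1 / RR θ k)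

/-- weighted sums with the labels -/
theorem wsum_pi {φ : Fin 2 → ℝ} {c : ℝ} (hφ : ∀ k, |φ k| ≤ c) : |∑ k, θ.π k * φ k| ≤ c := by
  refine wsum_abs (μ := θ.π) (fun k => (hb.pi_pos k).le) hb.valid.sum_eq_one hφ

/-- the probability of a loop -/
theorem loop_rate (n : ℕ) (h : Hist n) (l : Lab 2 n) :
    |(n + 1) * ∑ k, θ.π k * θ.γ k k / den θ n h l k - lam θ / 2| ≤
      c2 * (c2 / c1 ^ 2) * (2 * dev θ n h l + 2 / (n + 1)) := by
  have hc1 := hb.c1_pos
  have hc2 := c2_pos hb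
  have e : (n + 1) * ∑ k, θ.π k * θ.γ k k / den θ n h l k - lam θ / 2 =
      ∑ k, θ.π k * (θ.γ k k * ((n + 1) / den θ n h l k - 1 / (2 * RR θ k))) := by
    unfold lam
    rw [Fin.sum_univ_two, Fin.sum_univ_two, Fin.sum_univ_two]
    have h0 : RR θ 0 ≠ 0 := by linarith [RR_ge hb 0]
    have h1 : RR θ 1 ≠ 0 := by linarith [RR_ge hb 1]
    have d0 := (den_pos hb.valid n h l 0).ne'
    have d1 := (den_pos hb.valid n h l 1).ne'
    field_simp
    ring
  rw [e]
  refine wsum_pi hb fun k => ?_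
  rw [abs_mul, abs_of_pos (hb.valid.pos k k), mul_assoc]
  exact mul_le_mul (hb.upper k k) (inv_den hb n h l k) (abs_nonneg _) hc2.le

/-- the attachment to the label `0` -/
theorem attach_rate (n : ℕ) (h : Hist n) (l : Lab 2 n) :
    |NN n h l 0 * rate θ n h l 0 - θ.π 0 * rho θ| ≤ c2 * (c2 / c1 ^ 2) * (2 * dev θ n h l + 2 / (n + 1)) := by
  have hc1 := hb.c1_pos
  have hc2 := c2_pos hb
  have e : NN n h l 0 * rate θ n h l 0 - θ.π 0 * rho θ =
      ∑ k, θ.π k * (θ.γ k 0 * (NN n h l 0 / den θ n h l k - θ.π 0 / RR θ k)) := by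
    unfold rho rate
    rw [Fin.sum_univ_two, Fin.sum_univ_two, Fin.sum_univ_two]
    have h0 : RR θ 0 ≠ 0 := by linarith [RR_ge hb 0]
    have h1 : RR θ 1 ≠ 0 := by linarith [RR_ge hb 1]
    have d0 := (den_pos hb.valid n h l 0).ne'
    have d1 := (den_pos hb.valid n h l 1).ne'
    field_simp
    ring
  rw [e]
  refine wsum_pi hb fun k => ?_
  rw [abs_mul, abs_of_pos (hb.valid.pos k 0), mul_assoc]
  exact mul_le_mul (hb.upper k 0) (NN_div hb n h l k) (abs_nonneg _) hc2.le

omit hb in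
/-- the mean proportion of the label `0` -/
noncomputable def mX (θ : Param 2) (n : ℕ) : ℝ := Ex θ n fun h l => AA n h l 0 / (2 * n + 2)

theorem mX_mem (n : ℕ) : 0 ≤ mX θ n ∧ mX θ n ≤ 1 := by
  constructor
  · have := Ex_mono hb.valid (n := n) (F := fun _ _ => 0) (F' := fun h l => AA n h l 0 / (2 * n + 2))
      fun h l => (X_mem n h l).1
    rwa [Ex_const hb.valid] at this
  · have := Ex_mono hb.valid (n := n) (F := fun h l => AA n h l 0 / (2 * n + 2)) (F' := fun _ _ => 1)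
      fun h l => (X_mem n h l).2
    rwa [Ex_const hb.valid] at this

theorem mX_dev (n : ℕ) : |mX θ n - θ.π 0| ≤ DV θ n := by
  rw [abs_le]
  have h1 := Ex_mono hb.valid (n := n) (F := fun h l => AA n h l 0 / (2 * n + 2) - θ.π 0)
    (F' := fun h l => dev θ n h l) fun h l => le_abs_self _
  have h2 := Ex_mono hb.valid (n := n) (F := fun h l => θ.π 0 - AA n h l 0 / (2 * n + 2))
    (F' := fun h l => dev θ n h l) fun h l => by
      have := neg_abs_le (AA n h l 0 / (2 * n + 2) - θ.π 0)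
      unfold dev
      linarith
  rw [Ex_sub, Ex_const hb.valid] at h1 h2
  unfold mX DV
  constructor <;> linarith

/-- the mean increment of the degree sum of the label `0` -/
theorem mX_step (n : ℕ) :
    |(2 * (n : ℝ) + 4) * mX θ (n + 1) - (2 * n + 2) * mX θ n - (θ.π 0 * rho θ + θ.π 0)| ≤
      c2 * (c2 / c1 ^ 2) * (2 * DV θ n + 2 / (n + 1)) + c2 / c1 * (1 / ((n : ℝ) + 1)) := by
  have hc1 := hb.c1_pos
  have hc2 := c2_pos hb
  have hn : (0 : ℝ) ≤ n := Nat.cast_nonneg n
  have e1 : (2 * (n : ℝ) + 4) * mX θ (n + 1) = Ex θ n fun h l => AA n h l 0 +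
      (NN n h l 0 * rate θ n h l 0 + θ.π 0 * θ.γ 0 0 / den θ n h l 0 + θ.π 0) := by
    unfold mX
    rw [← Ex_const_mul]
    rw [Ex_succ' n _ (fun h l t k => AA n h l 0 + (ind 0 (label (n + 1) ((l, k) : Lab 2 (n + 1)) t) + ind 0 k))
      (fun h l t k => by
        rw [AA_succ]
        push_cast
        field_simp
        ring)]
    congr 1
    funext h l
    rw [step_add, step_add, step_const hb.valid, step_target, step_label hb.valid]
    have h5 : ∑ k, θ.π k * ind 0 k = θ.π 0 := by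
      unfold ind
      simp
    rw [h5]
  have e2 : (2 * (n : ℝ) + 2) * mX θ n = Ex θ n fun h l => AA n h l 0 := by
    unfold mX
    rw [← Ex_const_mul]
    congr 1
    funext h l
    field_simp
  have e3 : (2 * (n : ℝ) + 4) * mX θ (n + 1) - (2 * n + 2) * mX θ n - (θ.π 0 * rho θ + θ.π 0) =
      Ex θ n fun h l => (NN n h l 0 * rate θ n h l 0 - θ.π 0 * rho θ) + θ.π 0 * θ.γ 0 0 / den θ n h l 0 := by
    rw [e1, e2, ← Ex_sub]
    have : θ.π 0 * rho θ + θ.π 0 = Ex θ n fun _ _ => θ.π 0 * rho θ + θ.π 0 := (Ex_const hb.valid n _).symm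
    rw [this, ← Ex_sub]
    congr 1
    funext h l
    ring
  rw [e3]
  have key : ∀ (h : Hist n) (l : Lab 2 n),
      |(NN n h l 0 * rate θ n h l 0 - θ.π 0 * rho θ) + θ.π 0 * θ.γ 0 0 / den θ n h l 0| ≤
      c2 * (c2 / c1 ^ 2) * (2 * dev θ n h l + 2 / (n + 1)) + c2 / c1 * (1 / ((n : ℝ) + 1)) := by
    intro h l
    refine (abs_add_le _ _).trans (add_le_add (attach_rate hb n h l) ?_)
    have hD := den_ge hb n h l 0
    have hD0 := den_pos hb.valid n h l 0
    rw [abs_of_nonneg (div_nonneg (mul_nonneg (hb.pi_pos 0).le (hb.valid.pos 0 0).le) hD0.le)]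
    have h1 : θ.π 0 * θ.γ 0 0 ≤ c2 := by
      have := mul_le_mul (pi_le_one hb 0) (hb.upper 0 0) (hb.valid.pos 0 0).le zero_le_one
      linarith
    have h2 : c1 * (n + 1) ≤ den θ n h l 0 := by
      have : c1 * (n + 1) ≤ c1 * (2 * n + 1) := mul_le_mul_of_nonneg_left (by linarith) hc1.le
      linarith
    have h3 : c2 / c1 * (1 / ((n : ℝ) + 1)) = c2 / (c1 * (n + 1)) := by
      field_simp
    rw [h3]
    exact div_le_div₀ hc2.le h1 (by positivity) h2
  have e4 : c2 * (c2 / c1 ^ 2) * (2 * DV θ n + 2 / (n + 1)) + c2 / c1 * (1 / ((n : ℝ) + 1)) =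
      Ex θ n fun h l => c2 * (c2 / c1 ^ 2) * (2 * dev θ n h l + 2 / (n + 1)) + c2 / c1 * (1 / ((n : ℝ) + 1)) := by
    rw [Ex_add, Ex_const hb.valid, Ex_const_mul, Ex_add, Ex_const hb.valid, Ex_const_mul]
    rfl
  rw [e4, abs_le]
  constructor
  · have := Ex_mono hb.valid (n := n) fun h l => (abs_le.1 (key h l)).1
    rw [show (fun (h : Hist n) (l : Lab 2 n) => -(c2 * (c2 / c1 ^ 2) * (2 * dev θ n h l + 2 / (n + 1)) +
      c2 / c1 * (1 / ((n : ℝ) + 1)))) = fun h l => (-1) * (c2 * (c2 / c1 ^ 2) * (2 * dev θ n h l + 2 / (n + 1)) +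
      c2 / c1 * (1 / ((n : ℝ) + 1))) by funext h l; ring, Ex_const_mul] at this
    linarith
  · exact Ex_mono hb.valid (n := n) fun h l => (abs_le.1 (key h l)).2

/-- if the proportions concentrate then the normalisations agree -/
theorem rho_eq_one (hLN : LN (DV θ)) : rho θ = 1 := by
  have hc1 := hb.c1_pos
  have hc2 := c2_pos hb
  have hπ := hb.pi_pos 0
  set E : ℕ → ℝ := fun n => c2 * (c2 / c1 ^ 2) * (2 * DV θ n + 2 / (n + 1)) + c2 / c1 * (1 / ((n : ℝ) + 1)) with hE
  have hELN : LN E := by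
    refine ((((hLN.mul (c := 2) (by norm_num)).add (LN_inv.mul (c := 2) (by norm_num))).mul
      (c := c2 * (c2 / c1 ^ 2)) (by positivity)).add (LN_inv.mul (c := c2 / c1) (by positivity))).mono fun i => ?_
    rw [hE]
    refine le_of_eq ?_
    simp only
    ring
  have hm : ∀ n, |mX θ n| ≤ 1 := fun n => by
    have := mX_mem hb n
    rw [abs_le]
    constructor <;> linarith [this.1, this.2]
  have hm' : ∀ n : ℕ, |mX θ (n + 1) - mX θ n| ≤ 1 / ((n : ℝ) + 1) := by
    intro n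
    have hn : (0 : ℝ) ≤ n := Nat.cast_nonneg n
    have e1 : (2 * (n : ℝ) + 4) * mX θ (n + 1) = Ex θ n fun h l => step θ n h l (fun t k => AA n h l 0 +
        (ind 0 (label (n + 1) ((l, k) : Lab 2 (n + 1)) t) + ind 0 k)) := by
      unfold mX
      rw [← Ex_const_mul]
      rw [Ex_succ' n _ (fun h l t k => AA n h l 0 + (ind 0 (label (n + 1) ((l, k) : Lab 2 (n + 1)) t) + ind 0 k))
        (fun h l t k => by
          rw [AA_succ]
          push_cast
          field_simp
          ring)]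
    have e2 : (2 * (n : ℝ) + 2) * mX θ n = Ex θ n fun h l => AA n h l 0 := by
      unfold mX
      rw [← Ex_const_mul]
      congr 1
      funext h l
      field_simp
    have e3 : 0 ≤ (2 * (n : ℝ) + 4) * mX θ (n + 1) - (2 * n + 2) * mX θ n := by
      rw [e1, e2, ← Ex_sub]
      have := Ex_mono hb.valid (n := n) (F := fun _ _ => 0) (F' := fun h l => step θ n h l (fun t k => AA n h l 0 +
        (ind 0 (label (n + 1) ((l, k) : Lab 2 (n + 1)) t) + ind 0 k)) - AA n h l 0) fun h l => by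
          have h1 := step_mono hb.valid (n := n) (h := h) (l := l) (φ := fun _ _ => AA n h l 0)
            (φ' := fun t k => AA n h l 0 + (ind 0 (label (n + 1) ((l, k) : Lab 2 (n + 1)) t) + ind 0 k))
            fun t k => by
              have := ind_nonneg 0 (label (n + 1) ((l, k) : Lab 2 (n + 1)) t)
              have := ind_nonneg 0 k
              linarith
          rw [step_const hb.valid] at h1
          linarith
      rwa [Ex_const hb.valid] at this
    have e4 : (2 * (n : ℝ) + 4) * mX θ (n + 1) - (2 * n + 2) * mX θ n ≤ 2 := by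
      rw [e1, e2, ← Ex_sub]
      have := Ex_mono hb.valid (n := n) (F := fun h l => step θ n h l (fun t k => AA n h l 0 +
        (ind 0 (label (n + 1) ((l, k) : Lab 2 (n + 1)) t) + ind 0 k)) - AA n h l 0) (F' := fun _ _ => 2)
        fun h l => by
          have h1 := step_mono hb.valid (n := n) (h := h) (l := l) (φ' := fun _ _ => AA n h l 0 + 2)
            (φ := fun t k => AA n h l 0 + (ind 0 (label (n + 1) ((l, k) : Lab 2 (n + 1)) t) + ind 0 k))
            fun t k => by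
              have := ind_le_one 0 (label (n + 1) ((l, k) : Lab 2 (n + 1)) t)
              have := ind_le_one 0 k
              linarith
          rw [step_const hb.valid] at h1
          linarith
      rwa [Ex_const hb.valid] at this
    have e5 : (2 * (n : ℝ) + 4) * (mX θ (n + 1) - mX θ n) =
        (2 * (n : ℝ) + 4) * mX θ (n + 1) - (2 * n + 2) * mX θ n - 2 * mX θ n := by ring
    have h6 := mX_mem hb n
    have e6 : |(2 * (n : ℝ) + 4) * (mX θ (n + 1) - mX θ n)| ≤ 2 := by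
      rw [e5, abs_le]
      constructor <;> linarith [h6.1, h6.2]
    rw [abs_mul, abs_of_pos (by positivity : (0 : ℝ) < 2 * n + 4)] at e6
    rw [le_div_iff₀ (by positivity)]
    nlinarith [abs_nonneg (mX θ (n + 1) - mX θ n)]
  have key : ∀ n : ℕ, |(2 * (n : ℝ) + 4) * (mX θ (n + 1) - mX θ n) - θ.π 0 * (rho θ - 1)| ≤ E n + 2 * DV θ n := by
    intro n
    have h1 := mX_step hb n
    have h2 := mX_dev hb n
    have e : (2 * (n : ℝ) + 4) * (mX θ (n + 1) - mX θ n) - θ.π 0 * (rho θ - 1) =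
        ((2 * (n : ℝ) + 4) * mX θ (n + 1) - (2 * n + 2) * mX θ n - (θ.π 0 * rho θ + θ.π 0)) -
          2 * (mX θ n - θ.π 0) := by ring
    rw [e]
    refine (abs_sub _ _).trans (add_le_add h1 ?_)
    rw [abs_mul, abs_of_pos (by norm_num : (0 : ℝ) < 2)]
    linarith
  have hsum : LN (fun n => E n + 2 * DV θ n) := hELN.add (hLN.mul (by norm_num))
  have t1 := LN_tele hm hm'
  have t2 := LN_tele (e := fun n => - mX θ n) (fun n => by rw [abs_neg]; exact hm n) (fun n => by
    have := hm' n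
    rwa [show - mX θ (n + 1) - - mX θ n = - (mX θ (n + 1) - mX θ n) by ring, abs_neg])
  have u1 : θ.π 0 * (rho θ - 1) ≤ 0 := by
    refine LN_const ((t1.add hsum).mono fun n => ?_)
    have := (abs_le.1 (key n)).1
    linarith
  have u2 : - (θ.π 0 * (rho θ - 1)) ≤ 0 := by
    refine LN_const ((t2.add hsum).mono fun n => ?_)
    have := (abs_le.1 (key n)).2
    linarith
  have u3 : θ.π 0 * (rho θ - 1) = 0 := by linarith
  rcases mul_eq_zero.1 u3 with h | h
  · linarith
  · linarith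

/-- the normalisations agree -/
theorem RR_eq (hLN : LN (DV θ)) : RR θ 0 = RR θ 1 := by
  have h := rho_eq_one hb hLN
  have h0 := RR_ge hb 0
  have h1 := RR_ge hb 1
  have hc1 := hb.c1_pos
  have hs := hb.valid.symm 0 1
  have hπ := hb.pi_pos 1
  have hg := hb.valid.pos 0 1
  unfold rho at h
  rw [Fin.sum_univ_two] at h
  have r0 : RR θ 0 = θ.γ 0 0 * θ.π 0 + θ.γ 0 1 * θ.π 1 := rfl
  set R0 := RR θ 0 with hR0
  set R1 := RR θ 1 with hR1
  have e1 : θ.π 0 * θ.γ 0 0 * (1 / R0) = 1 - θ.γ 0 1 * θ.π 1 * (1 / R0) := by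
    have : R0 ≠ 0 := by linarith
    field_simp
    linarith
  rw [e1, ← hs] at h
  have e2 : θ.γ 0 1 * θ.π 1 * (1 / R1 - 1 / R0) = 0 := by linarith
  have e3 : θ.γ 0 1 * θ.π 1 ≠ 0 := (mul_pos hg hπ).ne'
  have e4 : 1 / R1 - 1 / R0 = 0 := by
    rcases mul_eq_zero.1 e2 with h | h
    · exact absurd h e3
    · exact h
  have : R0 ≠ 0 := by linarith
  have : R1 ≠ 0 := by linarith
  field_simp at e4
  linarith

/-- the probability that the node `n` forms a loop -/
theorem loop_prob (n : ℕ) :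
    |(n + 1) * (Ex θ (n + 1) fun h _ => if (h.2 : ℕ) = n then 1 else 0) - lam θ / 2| ≤
      c2 * (c2 / c1 ^ 2) * (2 * DV θ n + 2 / (n + 1)) := by
  have e1 : (Ex θ (n + 1) fun h _ => if (h.2 : ℕ) = n then 1 else 0) =
      Ex θ n fun h l => ∑ k, θ.π k * θ.γ k k / den θ n h l k := by
    rw [Ex_succ' n _ (fun h l t k => if t = n then 1 else 0) (fun h l t k => rfl)]
    congr 1
    funext h l
    rw [step_loop]
  rw [e1, ← Ex_const_mul]
  have e2 : lam θ / 2 = Ex θ n fun _ _ => lam θ / 2 := (Ex_const hb.valid n _).symm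
  rw [e2, ← Ex_sub]
  have e4 : c2 * (c2 / c1 ^ 2) * (2 * DV θ n + 2 / (n + 1)) =
      Ex θ n fun h l => c2 * (c2 / c1 ^ 2) * (2 * dev θ n h l + 2 / (n + 1)) := by
    rw [Ex_const_mul, Ex_add, Ex_const hb.valid, Ex_const_mul]
    rfl
  rw [e4, abs_le]
  constructor
  · have := Ex_mono hb.valid (n := n) fun h l => (abs_le.1 (loop_rate hb n h l)).1
    rw [show (fun (h : Hist n) (l : Lab 2 n) => -(c2 * (c2 / c1 ^ 2) * (2 * dev θ n h l + 2 / (n + 1)))) =
      fun h l => (-1) * (c2 * (c2 / c1 ^ 2) * (2 * dev θ n h l + 2 / (n + 1))) by funext h l; ring,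
      Ex_const_mul] at this
    linarith
  · exact Ex_mono hb.valid (n := n) fun h l => (abs_le.1 (loop_rate hb n h l)).2

end

/-- the loop constants agree -/
theorem lam_eq {θ θ' : Param 2} {c1 c2 c1' c2' : ℝ} (hb : Bounds θ c1 c2) (hb' : Bounds θ' c1' c2')
    (hlaw : ∀ n h, law θ n h = law θ' n h) (h : LN (DV θ)) (h' : LN (DV θ')) : lam θ = lam θ' := by
  have hc1 := hb.c1_pos
  have hc2 := c2_pos hb
  have hc1' := hb'.c1_pos
  have hc2' := c2_pos hb'
  have e1 : ∀ n, (Ex θ (n + 1) fun h _ => if (h.2 : ℕ) = n then 1 else 0) =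
      Ex θ' (n + 1) fun h _ => if (h.2 : ℕ) = n then 1 else 0 := by
    intro n
    rw [Ex_hist θ (n + 1) (fun h => if (h.2 : ℕ) = n then 1 else 0),
      Ex_hist θ' (n + 1) (fun h => if (h.2 : ℕ) = n then 1 else 0)]
    exact sum_congr rfl fun h _ => by rw [hlaw]
  have key : ∀ n : ℕ, |lam θ / 2 - lam θ' / 2| ≤ c2 * (c2 / c1 ^ 2) * (2 * DV θ n + 2 / (n + 1)) +
      c2' * (c2' / c1' ^ 2) * (2 * DV θ' n + 2 / (n + 1)) := by
    intro n
    have h1 := loop_prob hb n
    have h2 := loop_prob hb' n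
    rw [e1 n] at h1
    have h3 := abs_le.1 h1
    have h4 := abs_le.1 h2
    rw [abs_le]
    constructor <;> linarith [h3.1, h3.2, h4.1, h4.2]
  have hLN : LN fun n : ℕ => c2 * (c2 / c1 ^ 2) * (2 * DV θ n + 2 / (n + 1)) +
      c2' * (c2' / c1' ^ 2) * (2 * DV θ' n + 2 / (n + 1)) := by
    refine ((((h.mul (c := 2) (by norm_num)).add (LN_inv.mul (c := 2) (by norm_num))).mul
      (c := c2 * (c2 / c1 ^ 2)) (by positivity)).add (((h'.mul (c := 2) (by norm_num)).add
      (LN_inv.mul (c := 2) (by norm_num))).mul (c := c2' * (c2' / c1' ^ 2)) (by positivity))).mono fun i => ?_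
    refine le_of_eq ?_
    ring
  have := LN_const (hLN.mono key)
  have h0 := abs_nonneg (lam θ / 2 - lam θ' / 2)
  have h1 : lam θ / 2 - lam θ' / 2 = 0 := abs_eq_zero.1 (le_antisymm this h0)
  linarith

end Pool.Agent.H1.HP
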