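import Pool.Agent.H1.HP.Known

/-!
# Logarithmic averages
-/

set_option autoImplicit false

namespace Pool.Agent.H1.HP

open Finset

/-- the logarithmic averages of `y` have limit superior at most `0` -/
def LN (y : ℕ → ℝ) : Prop := ∀ ε : ℝ, 0 < ε → ∃ C : ℝ, ∀ n, ∑ i ∈ range n, y i / ((i : ℝ) + 1) ≤ C + ε * HH n

theorem LN.mono {y y' : ℕ → ℝ} (h : LN y') (hy : ∀ i, y i ≤ y' i) : LN y := by
  intro ε hε
  obtain ⟨C, hC⟩ := h ε hε
  refine ⟨C, fun n => le_trans (sum_le_sum fun i _ => ?_) (hC n)⟩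
  exact div_le_div_of_nonneg_right (hy i) (by positivity)

theorem LN.add {y y' : ℕ → ℝ} (h : LN y) (h' : LN y') : LN (fun i => y i + y' i) := by
  intro ε hε
  obtain ⟨C, hC⟩ := h (ε / 2) (by linarith)
  obtain ⟨C', hC'⟩ := h' (ε / 2) (by linarith)
  refine ⟨C + C', fun n => ?_⟩
  have h1 := hC n
  have h2 := hC' n
  have h3 : ∑ i ∈ range n, (y i + y' i) / ((i : ℝ) + 1) = ∑ i ∈ range n, y i / ((i : ℝ) + 1) +
      ∑ i ∈ range n, y' i / ((i : ℝ) + 1) := by
    rw [← sum_add_distrib]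
    exact sum_congr rfl fun i _ => add_div _ _ _
  rw [h3]
  linarith

theorem LN.mul {y : ℕ → ℝ} (h : LN y) {c : ℝ} (hc : 0 ≤ c) : LN (fun i => c * y i) := by
  intro ε hε
  rcases hc.eq_or_lt with h0 | h0
  · refine ⟨0, fun n => ?_⟩
    rw [← h0]
    have := mul_nonneg hε.le (HH_nonneg n)
    simp only [zero_mul, zero_div, sum_const_zero, zero_add]
    exact this
  · obtain ⟨C, hC⟩ := h (ε / c) (by positivity)
    refine ⟨c * C, fun n => ?_⟩
    have h1 := mul_le_mul_of_nonneg_left (hC n) hc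
    have h2 : c * (C + ε / c * HH n) = c * C + ε * HH n := by
      field_simp
    rw [h2, mul_sum] at h1
    refine le_trans (le_of_eq (sum_congr rfl fun i _ => ?_)) h1
    rw [mul_div_assoc]

theorem LN_inv : LN (fun i => 1 / ((i : ℝ) + 1)) := by
  intro ε hε
  refine ⟨2, fun n => ?_⟩
  have h1 := sum_sq_le n
  have h2 : ∑ i ∈ range n, 1 / ((i : ℝ) + 1) / ((i : ℝ) + 1) = ∑ i ∈ range n, 1 / ((i : ℝ) + 1) ^ 2 :=
    sum_congr rfl fun i _ => by rw [div_div, ← pow_two]
  rw [h2]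
  have := mul_nonneg hε.le (HH_nonneg n)
  linarith

theorem LN_const {c : ℝ} (h : LN (fun _ => c)) : c ≤ 0 := by
  by_contra hc
  push Not at hc
  obtain ⟨C, hC⟩ := h (c / 2) (by linarith)
  have h1 : ∀ n, HH n ≤ 2 * C / c := by
    intro n
    have h2 := hC n
    have h3 : ∑ i ∈ range n, c / ((i : ℝ) + 1) = c * HH n := by
      unfold HH
      rw [mul_sum]
      exact sum_congr rfl fun i _ => by ring
    rw [h3] at h2
    rw [le_div_iff₀ hc]
    linarith
  obtain ⟨n, hn⟩ := (HH_tendsto.eventually_gt_atTop (2 * C / c)).exists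
  linarith [h1 n]

/-- telescoping sequences -/
theorem LN_tele {e : ℕ → ℝ} (he0 : ∀ i, |e i| ≤ 1) (he : ∀ i, |e (i + 1) - e i| ≤ 1 / ((i : ℝ) + 1)) :
    LN (fun i => (2 * (i : ℝ) + 4) * (e (i + 1) - e i)) := by
  intro ε hε
  refine ⟨8, fun n => ?_⟩
  have h1 : ∀ i : ℕ, (2 * (i : ℝ) + 4) * (e (i + 1) - e i) / ((i : ℝ) + 1) ≤
      2 * (e (i + 1) - e i) + 2 * (1 / ((i : ℝ) + 1) ^ 2) := by
    intro i
    have h2 : (2 * (i : ℝ) + 4) * (e (i + 1) - e i) / ((i : ℝ) + 1) =
        2 * (e (i + 1) - e i) + 2 * ((e (i + 1) - e i) / ((i : ℝ) + 1)) := by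
      field_simp
      ring
    rw [h2]
    have h3 : (e (i + 1) - e i) / ((i : ℝ) + 1) ≤ 1 / ((i : ℝ) + 1) / ((i : ℝ) + 1) :=
      div_le_div_of_nonneg_right ((le_abs_self _).trans (he i)) (by positivity)
    rw [div_div, ← pow_two] at h3
    linarith
  have h2 := sum_le_sum (s := range n) fun i _ => h1 i
  rw [sum_add_distrib, ← mul_sum, ← mul_sum, sum_range_sub] at h2
  have h3 := sum_sq_le n
  have h4 := abs_le.1 (he0 n)
  have h5 := abs_le.1 (he0 0)
  have := mul_nonneg hε.le (HH_nonneg n)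
  linarith [h4.2, h5.1]

section

variable {θ : Param 2} {c1 c2 : ℝ} (hb : Bounds θ c1 c2)

include hb

theorem x2_nonneg (n : ℕ) : 0 ≤ x2 θ n := by
  have := Ex_mono hb.valid (n := n) (F := fun _ _ => 0)
    (F' := fun h l => (AA n h l 0 / (2 * n + 2) - θ.π 0) ^ 2) fun h l => sq_nonneg _
  rwa [Ex_const hb.valid] at this

omit hb in
theorem X_mem (n : ℕ) (h : Hist n) (l : Lab 2 n) : 0 ≤ AA n h l 0 / (2 * n + 2) ∧ AA n h l 0 / (2 * n + 2) ≤ 1 := by
  have h0 := AA_ge n h l 0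
  have h1 := AA_ge n h l 1
  have h2 := AA_add n h l
  have hn : (0 : ℝ) ≤ n := Nat.cast_nonneg n
  constructor
  · positivity
  · rw [div_le_one (by positivity)]
    linarith

theorem x2_le (n : ℕ) : x2 θ n ≤ 1 := by
  have := Ex_mono hb.valid (n := n) (F := fun h l => (AA n h l 0 / (2 * n + 2) - θ.π 0) ^ 2)
    (F' := fun _ _ => 1) fun h l => by
      have h1 := X_mem n h l
      have h2 := hb.pi_pos 0
      have h3 := pi_le_one hb 0
      nlinarith [h1.1, h1.2]
  rwa [Ex_const hb.valid] at this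

theorem TT_nonneg (n : ℕ) : 0 ≤ TT θ n := by
  have := Ex_mono hb.valid (n := n) (F := fun _ _ => 0)
    (F' := fun h l => θ.π 0 * Real.log (AA n h l 0) + θ.π 1 * Real.log (AA n h l 1)) fun h l => by
      have h0 := Real.log_nonneg (AA_ge n h l 0)
      have h1 := Real.log_nonneg (AA_ge n h l 1)
      have h2 := hb.pi_pos 0
      have h3 := hb.pi_pos 1
      positivity
  rwa [Ex_const hb.valid] at this

theorem TT_le (n : ℕ) : TT θ n ≤ 1 + HH n := by
  have := Ex_mono hb.valid (n := n)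
    (F := fun h l => θ.π 0 * Real.log (AA n h l 0) + θ.π 1 * Real.log (AA n h l 1))
    (F' := fun _ _ => 1 + HH n) fun h l => by
      have a0 := AA_ge n h l 0
      have a1 := AA_ge n h l 1
      have a2 := AA_add n h l
      have h2 := hb.pi_pos 0
      have h3 := hb.pi_pos 1
      have h4 := pi_add hb
      have hn : (0 : ℝ) ≤ n := Nat.cast_nonneg n
      have h5 : ∀ j, AA n h l j ≤ 2 * (n + 1) → Real.log (AA n h l j) ≤ 1 + HH n := by
        intro j hj
        have h6 : Real.log (AA n h l j) ≤ Real.log (2 * (n + 1)) := Real.log_le_log (by linarith [AA_ge n h l j]) hj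
        rw [Real.log_mul (by norm_num) (by positivity)] at h6
        have h7 := Real.log_le_sub_one_of_pos (show (0 : ℝ) < 2 by norm_num)
        have h8 := log_le_HH n
        linarith
      have h6 := mul_le_mul_of_nonneg_left (h5 0 (by linarith)) h2.le
      have h7 := mul_le_mul_of_nonneg_left (h5 1 (by linarith)) h3.le
      have h8 : θ.π 0 * (1 + HH n) + θ.π 1 * (1 + HH n) = 1 + HH n := by
        rw [← add_mul, h4, one_mul]
      linarith
  rwa [Ex_const hb.valid] at this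

/-- the logarithmic averages of the mean square deviation tend to `0` -/
theorem LN_x2 (B : Bal) (hlaw : ∀ n h, law θ n h = law B.param n h) : LN (x2 θ) := by
  intro ε hε
  have hκ : 0 < c2 / c1 := div_pos (c2_pos hb) hb.c1_pos
  set κ := c2 / c1 with hκdef
  set η := ε / (4 * κ) with hη
  have hη0 : 0 < η := by positivity
  obtain ⟨m0, hm0⟩ := exists_nat_gt (κ / (η * ε))
  set m := m0 + 1 with hm
  have hm1 : 1 ≤ m := by omega
  have hmr : κ / (η * ε) ≤ m := by
    rw [hm]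
    push_cast
    linarith
  have hmp : (0 : ℝ) < m := by exact_mod_cast hm1
  set K := (2 + κ) * (2 / θ.π 0 + 2 / θ.π 1) + 4 * κ with hK
  have hπ0 := hb.pi_pos 0
  have hπ1 := hb.pi_pos 1
  have hK0 : 0 ≤ K := by positivity
  refine ⟨1 + 2 * HH m + K + 40 / ε + 8, fun n => ?_⟩
  have hr : ∀ n, ∑ i ∈ range n, x2 θ i / ((i : ℝ) + 1) ≤ HH n := by
    intro n
    refine sum_le_sum fun i _ => ?_
    exact div_le_div_of_nonneg_right (x2_le hb i) (by positivity)
  have hH0 := HH_nonneg m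
  rcases le_total n m with hnm | hnm
  · have h1 := hr n
    have h2 : HH n ≤ HH m := sum_le_sum_of_subset_of_nonneg (range_subset_range.2 hnm) fun i _ _ => by positivity
    have h3 := mul_nonneg hε.le (HH_nonneg n)
    have h4 : 0 ≤ 40 / ε := by positivity
    linarith
  · have h1 := growth_upper hb m n hm1 hnm hη0
    have h2 := growth_lower (B := B) m n hm1 hnm (show 0 < ε / 2 by linarith)
    have h3 : ∀ n, (Ex θ n fun h _ => LD m n h) = Ex B.param n fun h _ => LD m n h := by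
      intro n
      rw [Ex_hist, Ex_hist]
      exact sum_congr rfl fun h _ => by rw [hlaw]
    rw [h3, h3] at h1
    have h4 := TT_le hb n
    have h5 := TT_nonneg hb m
    have h6 : ∑ i ∈ Ico m n, 1 / (2 * (i : ℝ) + 2) = (HH n - HH m) / 2 := by
      rw [← sum_Ico_HH hnm, sum_div]
      refine sum_congr rfl fun i _ => ?_
      field_simp
    have h7 : ∑ i ∈ Ico m n, 1 / (2 * (i : ℝ) + 2) * (1 + 4 * x2 θ i) =
        (HH n - HH m) / 2 + 2 * ∑ i ∈ Ico m n, x2 θ i / ((i : ℝ) + 1) := by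
      rw [← h6, mul_sum, ← sum_add_distrib]
      refine sum_congr rfl fun i _ => ?_
      field_simp
      ring
    have h8 : κ * (η + 1 / (4 * η * m)) ≤ ε / 2 := by
      have e1 : κ * η = ε / 4 := by
        rw [hη]
        field_simp
      have e2 : κ * (1 / (4 * η * m)) ≤ ε / 4 := by
        rw [mul_one_div, div_le_iff₀ (by positivity)]
        rw [div_le_iff₀ (by positivity)] at hmr
        nlinarith
      rw [mul_add, e1]
      linarith
    have h9 := mul_le_mul_of_nonneg_right h8 (HH_nonneg n)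
    have h10 : ∑ i ∈ range n, x2 θ i / ((i : ℝ) + 1) = ∑ i ∈ range m, x2 θ i / ((i : ℝ) + 1) +
        ∑ i ∈ Ico m n, x2 θ i / ((i : ℝ) + 1) := (sum_range_add_sum_Ico _ hnm).symm
    have h11 := hr m
    rw [h6] at h2
    rw [h7] at h1
    have h12 : 20 / (ε / 2) = 40 / ε := by
      field_simp
      norm_num
    rw [h12] at h2
    rw [h10]
    have h13 := mul_nonneg hε.le (HH_nonneg n)
    have h14 : 0 ≤ 40 / ε := by positivity
    linarith

/-- the mean deviation -/
theorem LN_dev (B : Bal) (hlaw : ∀ n h, law θ n h = law B.param n h) :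
    LN (fun n => Ex θ n fun h l => |AA n h l 0 / (2 * n + 2) - θ.π 0|) := by
  intro ε hε
  obtain ⟨C, hC⟩ := LN_x2 hb B hlaw (ε ^ 2) (by positivity)
  refine ⟨1 / (2 * ε) * C, fun n => ?_⟩
  have h1 : ∀ i : ℕ, (Ex θ i fun h l => |AA i h l 0 / (2 * i + 2) - θ.π 0|) ≤ ε / 2 + 1 / (2 * ε) * x2 θ i := by
    intro i
    have h2 := Ex_mono hb.valid (n := i) (F := fun h l => |AA i h l 0 / (2 * i + 2) - θ.π 0|)
      (F' := fun h l => ε / 2 + 1 / (2 * ε) * (AA i h l 0 / (2 * i + 2) - θ.π 0) ^ 2) fun h l => by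
        set u := AA i h l 0 / (2 * i + 2) - θ.π 0 with hu
        have h5 : ε / 2 + 1 / (2 * ε) * u ^ 2 - |u| = (|u| - ε) ^ 2 / (2 * ε) := by
          rw [← sq_abs u]
          field_simp
          ring
        have h6 : 0 ≤ (|u| - ε) ^ 2 / (2 * ε) := by positivity
        linarith
    rw [Ex_add, Ex_const hb.valid, Ex_const_mul] at h2
    exact h2
  have h2 : ∑ i ∈ range n, (Ex θ i fun h l => |AA i h l 0 / (2 * i + 2) - θ.π 0|) / ((i : ℝ) + 1) ≤
      ∑ i ∈ range n, (ε / 2 * (1 / ((i : ℝ) + 1)) + 1 / (2 * ε) * (x2 θ i / ((i : ℝ) + 1))) := by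
    refine sum_le_sum fun i _ => ?_
    refine (div_le_div_of_nonneg_right (h1 i) (by positivity)).trans (le_of_eq ?_)
    ring
  rw [sum_add_distrib, ← mul_sum, ← mul_sum] at h2
  have h3 := mul_le_mul_of_nonneg_left (hC n) (show 0 ≤ 1 / (2 * ε) by positivity)
  have h4 : 1 / (2 * ε) * (C + ε ^ 2 * HH n) = 1 / (2 * ε) * C + ε / 2 * HH n := by
    field_simp
  have h5 : ∑ i ∈ range n, 1 / ((i : ℝ) + 1) = HH n := rfl
  rw [h5] at h2
  linarith

end

end Pool.Agent.H1.HP
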