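import Mathlib

/-!
# The hierarchical preferential attachment model: definitions

Nodes are `0, 1, 2, …`. A history of `n + 1` nodes is a history of `n` nodes together with the node `t ≤ n` to which the
node `n` links (`t = n` is a loop).
-/

set_option autoImplicit false

namespace Pool.Agent.H1.HP

open Finset

/-- the observed histories of `n` nodes: for each node `k < n` the node `t ≤ k` it links to (`t = k`: a loop) -/
def Hist : ℕ → Type
  | 0 => Unit
  | (n + 1) => Hist n × Fin (n + 1)

/-- the label vectors of `n` nodes -/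
def Lab (K : ℕ) : ℕ → Type
  | 0 => Unit
  | (n + 1) => Lab K n × Fin K

instance instFintypeHist : (n : ℕ) → Fintype (Hist n)
  | 0 => inferInstanceAs (Fintype Unit)
  | (n + 1) => by
      haveI := instFintypeHist n
      exact inferInstanceAs (Fintype (Hist n × Fin (n + 1)))

instance instFintypeLab (K : ℕ) : (n : ℕ) → Fintype (Lab K n)
  | 0 => inferInstanceAs (Fintype Unit)
  | (n + 1) => by
      haveI := instFintypeLab K n
      exact inferInstanceAs (Fintype (Lab K n × Fin K))

/-- the degree of the node `v` (a loop counts twice; `0` if `v` is not among the `n` nodes) -/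
def deg : (n : ℕ) → Hist n → ℕ → ℕ
  | 0, _, _ => 0
  | (n + 1), h, v => deg n h.1 v + (if v = n then 1 else 0) + (if v = (h.2 : ℕ) then 1 else 0)

/-- the label of the node `v` (a fixed junk value if `v` is not among the `n` nodes) -/
def label {K : ℕ} [NeZero K] : (n : ℕ) → Lab K n → ℕ → Fin K
  | 0, _, _ => 0
  | (n + 1), l, v => if v = n then l.2 else label n l.1 v

/-- `N_j`: the summed degree of the nodes of label `j` -/
def total {K : ℕ} [NeZero K] (n : ℕ) (h : Hist n) (l : Lab K n) (j : Fin K) : ℕ :=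
  ∑ v ∈ range n, if label n l v = j then deg n h v else 0

/-- a pair `(π, γ)` -/
structure Param (K : ℕ) where
  π : Fin K → ℝ
  γ : Fin K → Fin K → ℝ

/-- `π` is a probability vector, `γ` is symmetric with positive entries -/
structure Param.Valid {K : ℕ} (θ : Param K) : Prop where
  nonneg : ∀ j, 0 ≤ θ.π j
  sum_eq_one : ∑ j, θ.π j = 1
  symm : ∀ i j, θ.γ i j = θ.γ j i
  pos : ∀ i j, 0 < θ.γ i j

/-- `D_(n+1)` for a new node of label `k` after `n` steps -/
noncomputable def den {K : ℕ} [NeZero K] (θ : Param K) (n : ℕ) (h : Hist n) (l : Lab K n) (k : Fin K) : ℝ :=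
  θ.γ k k + ∑ j, θ.γ k j * (total n h l j : ℝ)

/-- The joint law of the history and the labels in the model: the new node `n` has the label `k` with probability
`π k`, and then links to the node `t < n` with probability `γ k (label t) * deg t / D` and to itself with probability
`γ k k / D`. -/
noncomputable def joint {K : ℕ} [NeZero K] (θ : Param K) : (n : ℕ) → Hist n → Lab K n → ℝ
  | 0, _, _ => 1
  | (n + 1), h, l => joint θ n h.1 l.1 * (θ.π l.2 * (θ.γ l.2 (label (n + 1) l h.2) *
      (if (h.2 : ℕ) = n then 1 else (deg n h.1 h.2 : ℝ)) / den θ n h.1 l.1 l.2))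

/-- the product of the `π γ / D` in the definition of `L_n` -/
noncomputable def steps {K : ℕ} [NeZero K] (θ : Param K) : (n : ℕ) → Hist n → Lab K n → ℝ
  | 0, _, _ => 1
  | (n + 1), h, l => steps θ n h.1 l.1 * (θ.π l.2 * θ.γ l.2 (label (n + 1) l h.2) / den θ n h.1 l.1 l.2)

/-- `L_n(l; π, γ)` of the problem -/
noncomputable def L {K : ℕ} [NeZero K] (θ : Param K) (n : ℕ) (h : Hist n) (l : Lab K n) : ℝ :=
  (∏ v ∈ range n, ((deg n h v - 1).factorial : ℝ)) * steps θ n h l

/-- the marginal likelihood `G_n(π, γ)` of the history `h` -/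
noncomputable def G {K : ℕ} [NeZero K] (θ : Param K) (n : ℕ) (h : Hist n) : ℝ := ∑ l, L θ n h l

/-- the law of the observed history of `n` nodes -/
noncomputable def law {K : ℕ} [NeZero K] (θ : Param K) (n : ℕ) (h : Hist n) : ℝ := ∑ l, joint θ n h l

/-- `θ'` arises from `θ` by a relabelling and a scaling of `γ` -/
def Equivalent {K : ℕ} (θ' θ : Param K) : Prop :=
  ∃ (σ : Equiv.Perm (Fin K)) (c : ℝ), 0 < c ∧ (∀ i, θ'.π i = θ.π (σ i)) ∧ ∀ i j, θ'.γ i j = c * θ.γ (σ i) (σ j)

/-- identifiable true parameters -/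
def Identifiable {K : ℕ} [NeZero K] (θ : Param K) : Prop :=
  θ.Valid ∧ (∀ j, 0 < θ.π j) ∧
    ∀ θ' : Param K, θ'.Valid → (∀ n h, law θ' n h = law θ n h) → Equivalent θ' θ

/-- `θ'` is `ε`-close to the orbit of `θ` under relabelling and scaling of `γ` -/
def CloseToOrbit {K : ℕ} (ε : ℝ) (θ' θ : Param K) : Prop :=
  ∃ (σ : Equiv.Perm (Fin K)) (c : ℝ), 0 < c ∧ (∀ i, |θ'.π i - θ.π (σ i)| < ε) ∧
    ∀ i j, |c * θ'.γ i j - θ.γ (σ i) (σ j)| < ε

open Classical in
/-- the probability that the estimate `T` from the history of `n` nodes is not `ε`-close to the orbit of the true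
parameters `θ` -/
noncomputable def err {K : ℕ} [NeZero K] (ε : ℝ) {n : ℕ} (T : Hist n → Param K) (θ : Param K) : ℝ :=
  ∑ h ∈ univ.filter (fun h => ¬ CloseToOrbit ε (T h) θ), law θ n h

/-- the sequence of estimators `T` is (weakly) consistent at the true parameters `θ`: it converges to the orbit of `θ`
in probability -/
def Consistent {K : ℕ} [NeZero K] (T : (n : ℕ) → Hist n → Param K) (θ : Param K) : Prop :=
  ∀ ε : ℝ, 0 < ε → Filter.Tendsto (fun n => err ε (T n) θ) Filter.atTop (nhds 0)

/-- the two label model with `π = (p, 1 - p)`, `γ₀₀ = 1 + τ (1 - p) / p`, `γ₀₁ = γ₁₀ = 1 - τ`,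
`γ₁₁ = 1 + τ p / (1 - p)` -/
noncomputable def model (τ p : ℝ) : Param 2 where
  π := ![p, 1 - p]
  γ := ![![1 + τ * (1 - p) / p, 1 - τ], ![1 - τ, 1 + τ * p / (1 - p)]]

end Pool.Agent.H1.HP
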