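import Pool.Agent.H1.HP.Drift

/-!
# The one step inequality of the two replica process
-/

set_option autoImplicit false

namespace Pool.Agent.H1.HP

open Finset

/-- the exponential is at most its quadratic bound -/
theorem exp_le_quadratic {u v : ℝ} (huv : u ≤ v) (hv : |v| ≤ 1) : Real.exp u ≤ 1 + v + v ^ 2 := by
  have h1 := Real.exp_le_exp.2 huv
  have h2 := Real.abs_exp_sub_one_sub_id_le hv
  have h3 := (abs_le.1 h2).2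
  linarith

/-- the function `U` -/
noncomputable def UU (Y1 Y2 Y3 z d1 d2 d3 : ℝ) : ℝ :=
  (3 * Y1 * |Y1| * d1 + 3 * |Y1| * d1 ^ 2 + |d1| ^ 3) + (3 * Y2 * |Y2| * d2 + 3 * |Y2| * d2 ^ 2 + |d2| ^ 3) +
    (3 * Y3 * |Y3| * d3 + 3 * |Y3| * d3 ^ 2 + |d3| ^ 3) - (4 * z + 4) / z ^ 2 * (|Y1| ^ 3 + |Y2| ^ 3 + |Y3| ^ 3)

theorem term_abs {Y d : ℝ} (hd : |d| ≤ 8) :
    |3 * Y * |Y| * d + 3 * |Y| * d ^ 2 + |d| ^ 3| ≤ 24 * |Y| ^ 2 + (192 * |Y| + 512) := by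
  have h0 := abs_nonneg Y
  have h1 := abs_nonneg d
  have h2 : |3 * Y * |Y| * d| ≤ 24 * |Y| ^ 2 := by
    rw [abs_mul, abs_mul, abs_mul, abs_abs, abs_of_pos (by norm_num : (0:ℝ) < 3)]
    have : 0 ≤ |Y| ^ 2 := by positivity
    nlinarith
  have h3 : d ^ 2 ≤ 64 := by
    rw [← sq_abs]
    nlinarith
  have h4 : |d| ^ 3 ≤ 512 := by
    have := pow_le_pow_left₀ h1 hd 3
    norm_num at this
    exact this
  have h5 : 0 ≤ 3 * |Y| * d ^ 2 := by positivity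
  have h6 : 0 ≤ |d| ^ 3 := by positivity
  have h7 : 3 * |Y| * d ^ 2 ≤ 192 * |Y| := by nlinarith
  have h8 := abs_add_le (3 * Y * |Y| * d) (3 * |Y| * d ^ 2 + |d| ^ 3)
  rw [abs_of_nonneg (add_nonneg h5 h6)] at h8
  have e : 3 * Y * |Y| * d + 3 * |Y| * d ^ 2 + |d| ^ 3 = 3 * Y * |Y| * d + (3 * |Y| * d ^ 2 + |d| ^ 3) := by ring
  rw [e]
  linarith

theorem UU_abs {Y1 Y2 Y3 z d1 d2 d3 : ℝ} (hz : 0 < z) (h1 : |d1| ≤ 8) (h2 : |d2| ≤ 8) (h3 : |d3| ≤ 8) :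
    |UU Y1 Y2 Y3 z d1 d2 d3| ≤ 24 * (|Y1| ^ 2 + |Y2| ^ 2 + |Y3| ^ 2) + (192 * (|Y1| + |Y2| + |Y3|) + 1536) +
      (4 * z + 4) / z ^ 2 * (|Y1| ^ 3 + |Y2| ^ 3 + |Y3| ^ 3) := by
  unfold UU
  have t1 := term_abs (Y := Y1) h1
  have t2 := term_abs (Y := Y2) h2
  have t3 := term_abs (Y := Y3) h3
  have c0 : 0 ≤ (4 * z + 4) / z ^ 2 * (|Y1| ^ 3 + |Y2| ^ 3 + |Y3| ^ 3) := by positivity
  have s1 := abs_sub ((3 * Y1 * |Y1| * d1 + 3 * |Y1| * d1 ^ 2 + |d1| ^ 3) +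
    (3 * Y2 * |Y2| * d2 + 3 * |Y2| * d2 ^ 2 + |d2| ^ 3) + (3 * Y3 * |Y3| * d3 + 3 * |Y3| * d3 ^ 2 + |d3| ^ 3))
    ((4 * z + 4) / z ^ 2 * (|Y1| ^ 3 + |Y2| ^ 3 + |Y3| ^ 3))
  have s2 := abs_add_le ((3 * Y1 * |Y1| * d1 + 3 * |Y1| * d1 ^ 2 + |d1| ^ 3) +
    (3 * Y2 * |Y2| * d2 + 3 * |Y2| * d2 ^ 2 + |d2| ^ 3)) (3 * Y3 * |Y3| * d3 + 3 * |Y3| * d3 ^ 2 + |d3| ^ 3)
  have s3 := abs_add_le (3 * Y1 * |Y1| * d1 + 3 * |Y1| * d1 ^ 2 + |d1| ^ 3)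
    (3 * Y2 * |Y2| * d2 + 3 * |Y2| * d2 ^ 2 + |d2| ^ 3)
  rw [abs_of_nonneg c0] at s1
  linarith

/-- the exponent is bounded by `lam y U` -/
theorem exponent_le {Y1 Y2 Y3 z d1 d2 d3 lam : ℝ} (hz : 0 < z) (hlam : 0 < lam) :
    lam * (|Y1 + d1| ^ 3 + |Y2 + d2| ^ 3 + |Y3 + d3| ^ 3) / (z + 2) ^ 2 -
      lam * (|Y1| ^ 3 + |Y2| ^ 3 + |Y3| ^ 3) / z ^ 2 ≤ lam * (1 / (z + 2) ^ 2) * UU Y1 Y2 Y3 z d1 d2 d3 := by
  have c1 := cube_add Y1 d1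
  have c2 := cube_add Y2 d2
  have c3 := cube_add Y3 d3
  have hz2 : 0 < (z + 2) ^ 2 := by positivity
  have e : lam * (1 / (z + 2) ^ 2) * UU Y1 Y2 Y3 z d1 d2 d3 =
      lam * ((|Y1| ^ 3 + 3 * Y1 * |Y1| * d1 + 3 * |Y1| * d1 ^ 2 + |d1| ^ 3) +
        (|Y2| ^ 3 + 3 * Y2 * |Y2| * d2 + 3 * |Y2| * d2 ^ 2 + |d2| ^ 3) +
        (|Y3| ^ 3 + 3 * Y3 * |Y3| * d3 + 3 * |Y3| * d3 ^ 2 + |d3| ^ 3)) / (z + 2) ^ 2 -
        lam * (|Y1| ^ 3 + |Y2| ^ 3 + |Y3| ^ 3) / z ^ 2 := by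
    unfold UU
    field_simp
    ring
  rw [e]
  refine sub_le_sub_right ?_ _
  refine div_le_div_of_nonneg_right ?_ hz2.le
  refine mul_le_mul_of_nonneg_left ?_ hlam.le
  linarith

theorem sum3_add {ι : Type*} [Fintype ι] (F G : ι → Fin 2 → Fin 2 → ℝ) :
    ∑ a, ∑ k, ∑ k', (F a k k' + G a k k') = ∑ a, ∑ k, ∑ k', F a k k' + ∑ a, ∑ k, ∑ k', G a k k' := by
  simp only [sum_add_distrib]

theorem sum3_mul {ι : Type*} [Fintype ι] (c : ℝ) (F : ι → Fin 2 → Fin 2 → ℝ) :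
    ∑ a, ∑ k, ∑ k', c * F a k k' = c * ∑ a, ∑ k, ∑ k', F a k k' := by
  simp only [mul_sum]

theorem sum3_le {ι : Type*} [Fintype ι] {F G : ι → Fin 2 → Fin 2 → ℝ} (h : ∀ a k k', F a k k' ≤ G a k k') :
    ∑ a, ∑ k, ∑ k', F a k k' ≤ ∑ a, ∑ k, ∑ k', G a k k' :=
  sum_le_sum fun a _ => sum_le_sum fun k _ => sum_le_sum fun k' _ => h a k k'

/-- **The one step inequality.** -/
theorem one_step (B : Bal) {ι : Type*} [Fintype ι] (μ x x' e : ι → ℝ) (ψ ψ' ω z q lam : ℝ)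
    (hμ0 : ∀ a, 0 ≤ μ a) (hμ1 : ∑ a, μ a = 1) (hx : ∀ a, |x a| ≤ 2) (hx' : ∀ a, |x' a| ≤ 2)
    (hψ : ∑ a, μ a * x a = ψ) (hψ' : ∑ a, μ a * x' a = ψ') (hω : ∑ a, μ a * (x a * x' a) = ω)
    (he0 : ∀ a, 0 ≤ e a) (he1 : ∀ a, e a ≤ 1) (hd : ∑ a, μ a * e a ≤ 3 / z) (hq : 1 ≤ q) (hz : z = q ^ 2)
    (hlam : lam = 1 / 10 ^ 10) :
    ∑ a, ∑ k, ∑ k', wt B μ x x' ψ ψ' a k k' *
      Real.exp (lam * (|z * ψ + (x a + B.f k + e a * (B.f k - x a))| ^ 3 +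
        |z * ψ' + (x' a + B.f k' + e a * (B.f k' - x' a))| ^ 3 +
        |z * ω + (x a * x' a + B.f k * B.f k' + e a * (B.f k * B.f k' - x a * x' a))| ^ 3) / (z + 2) ^ 2 -
        lam * (|z * ψ| ^ 3 + |z * ψ'| ^ 3 + |z * ω| ^ 3) / z ^ 2) ≤
      1 + 25000000 * lam * (1 / (z + 2) ^ 2 * q) := by
  have h1 := psi_le hμ0 hμ1 hx hψ
  have h2 := psi_le hμ0 hμ1 hx' hψ'
  have h3 := omega_le hμ0 hμ1 hx hx' hω
  have hz1 : 1 ≤ z := by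
    rw [hz]
    nlinarith
  have hz0 : 0 < z := by linarith
  have hl0 : 0 < lam := by
    rw [hlam]
    positivity
  have w0 : ∀ a k k', 0 ≤ wt B μ x x' ψ ψ' a k k' := fun a k k' =>
    mul_nonneg (hμ0 a) (mul_nonneg (B.r_nonneg h1 (hx a) k) (B.r_nonneg h2 (hx' a) k'))
  set d1 : ι → Fin 2 → Fin 2 → ℝ := fun a k _ => x a + B.f k + e a * (B.f k - x a) with hd1
  set d2 : ι → Fin 2 → Fin 2 → ℝ := fun a _ k' => x' a + B.f k' + e a * (B.f k' - x' a) with hd2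
  set d3 : ι → Fin 2 → Fin 2 → ℝ := fun a k k' => x a * x' a + B.f k * B.f k' + e a * (B.f k * B.f k' - x a * x' a)
    with hd3
  have conv : ∀ {u v c w : ℝ}, 0 ≤ w → w ≤ 1 → |u| ≤ c → |v| ≤ c → |u + v + w * (v - u)| ≤ 2 * c := by
    intro u v c w hw0 hw1 hu hv
    have e1 : u + v + w * (v - u) = (1 - w) * u + (1 + w) * v := by ring
    rw [e1]
    refine (abs_add_le _ _).trans ?_
    rw [abs_mul, abs_mul, abs_of_nonneg (by linarith : 0 ≤ 1 - w), abs_of_nonneg (by linarith : 0 ≤ 1 + w)]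
    have m1 : (1 - w) * |u| ≤ (1 - w) * c := mul_le_mul_of_nonneg_left hu (by linarith)
    have m2 : (1 + w) * |v| ≤ (1 + w) * c := mul_le_mul_of_nonneg_left hv (by linarith)
    linarith
  have b1 : ∀ a k k', |d1 a k k'| ≤ 8 := by
    intro a k k'
    have := conv (he0 a) (he1 a) (hx a) (B.f_le k)
    show |x a + B.f k + e a * (B.f k - x a)| ≤ 8
    linarith
  have b2 : ∀ a k k', |d2 a k k'| ≤ 8 := by
    intro a k k'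
    have := conv (he0 a) (he1 a) (hx' a) (B.f_le k')
    show |x' a + B.f k' + e a * (B.f k' - x' a)| ≤ 8
    linarith
  have b3 : ∀ a k k', |d3 a k k'| ≤ 8 := by
    intro a k k'
    have m1 : |x a * x' a| ≤ 4 := by
      rw [abs_mul]
      have := mul_le_mul (hx a) (hx' a) (abs_nonneg _) (by norm_num)
      linarith
    have m2 : |B.f k * B.f k'| ≤ 4 := by
      rw [abs_mul]
      have := mul_le_mul (B.f_le k) (B.f_le k') (abs_nonneg _) (by norm_num)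
      linarith
    have := conv (he0 a) (he1 a) m1 m2
    show |x a * x' a + B.f k * B.f k' + e a * (B.f k * B.f k' - x a * x' a)| ≤ 8
    linarith
  set Y1 := z * ψ with hY1
  set Y2 := z * ψ' with hY2
  set Y3 := z * ω with hY3
  set y := 1 / (z + 2) ^ 2 with hy
  have hy0 : 0 < y := by
    rw [hy]
    positivity
  have hy1 : y * z ^ 2 ≤ 1 := by
    rw [hy, div_mul_eq_mul_div, one_mul, div_le_one (by positivity)]
    nlinarith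
  have hy2 : 1 ≤ 9 * y * z ^ 2 := by
    rw [hy]
    have : 9 * (1 / (z + 2) ^ 2) * z ^ 2 = 9 * z ^ 2 / (z + 2) ^ 2 := by ring
    rw [this, le_div_iff₀ (by positivity)]
    nlinarith
  have aY1 : |Y1| ≤ 4 * z := by
    rw [hY1, abs_mul, abs_of_pos hz0]
    nlinarith [abs_nonneg ψ]
  have aY2 : |Y2| ≤ 4 * z := by
    rw [hY2, abs_mul, abs_of_pos hz0]
    nlinarith [abs_nonneg ψ']
  have aY3 : |Y3| ≤ 4 * z := by
    rw [hY3, abs_mul, abs_of_pos hz0]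
    nlinarith [abs_nonneg ω]
  -- size of U
  have hUabs : ∀ a k k', |UU Y1 Y2 Y3 z (d1 a k k') (d2 a k k') (d3 a k k')| ≤
      24 * (|Y1| ^ 2 + |Y2| ^ 2 + |Y3| ^ 2) + (192 * (|Y1| + |Y2| + |Y3|) + 1536) +
      (4 * z + 4) / z ^ 2 * (|Y1| ^ 3 + |Y2| ^ 3 + |Y3| ^ 3) :=
    fun a k k' => UU_abs hz0 (b1 a k k') (b2 a k k') (b3 a k k')
  have hUsize : 24 * (|Y1| ^ 2 + |Y2| ^ 2 + |Y3| ^ 2) + (192 * (|Y1| + |Y2| + |Y3|) + 1536) +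
      (4 * z + 4) / z ^ 2 * (|Y1| ^ 3 + |Y2| ^ 3 + |Y3| ^ 3) ≤ 6528 * z ^ 2 := by
    have s1 := S_le (abs_nonneg Y1) (abs_nonneg Y2) (abs_nonneg Y3) aY1 aY2 aY3
    have s2 : (4 * z + 4) / z ^ 2 * (|Y1| ^ 3 + |Y2| ^ 3 + |Y3| ^ 3) ≤ (4 * z + 4) / z ^ 2 * (192 * z ^ 3) :=
      mul_le_mul_of_nonneg_left s1 (by positivity)
    have s3 : (4 * z + 4) / z ^ 2 * (192 * z ^ 3) = 768 * z ^ 2 + 768 * z := by
      field_simp
      ring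
    have p1 := pow_le_pow_left₀ (abs_nonneg Y1) aY1 2
    have p2 := pow_le_pow_left₀ (abs_nonneg Y2) aY2 2
    have p3 := pow_le_pow_left₀ (abs_nonneg Y3) aY3 2
    have e1 : (4 * z) ^ 2 = 16 * z ^ 2 := by ring
    rw [e1] at p1 p2 p3
    have m1 : z ≤ z ^ 2 := by nlinarith
    have m2 : 1 ≤ z ^ 2 := by nlinarith
    rw [s3] at s2
    linarith
  have hv : ∀ a k k', |lam * y * UU Y1 Y2 Y3 z (d1 a k k') (d2 a k k') (d3 a k k')| ≤ 1 := by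
    intro a k k'
    rw [abs_mul, abs_of_pos (mul_pos hl0 hy0)]
    have m1 := (hUabs a k k').trans hUsize
    have m2 : lam * y * |UU Y1 Y2 Y3 z (d1 a k k') (d2 a k k') (d3 a k k')| ≤ lam * y * (6528 * z ^ 2) :=
      mul_le_mul_of_nonneg_left m1 (mul_pos hl0 hy0).le
    have m3 : lam * y * (6528 * z ^ 2) = (6528 * lam) * (y * z ^ 2) := by ring
    have m4 : (6528 * lam) * (y * z ^ 2) ≤ (6528 * lam) * 1 := mul_le_mul_of_nonneg_left hy1 (by positivity)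
    have m5 : (6528 * lam) * 1 ≤ 1 := by
      rw [hlam]
      norm_num
    linarith
  -- pointwise bound of the exponential
  have hpt : ∀ a k k', wt B μ x x' ψ ψ' a k k' *
      Real.exp (lam * (|Y1 + d1 a k k'| ^ 3 + |Y2 + d2 a k k'| ^ 3 + |Y3 + d3 a k k'| ^ 3) / (z + 2) ^ 2 -
        lam * (|Y1| ^ 3 + |Y2| ^ 3 + |Y3| ^ 3) / z ^ 2) ≤
      wt B μ x x' ψ ψ' a k k' + (lam * y) * (wt B μ x x' ψ ψ' a k k' *
        UU Y1 Y2 Y3 z (d1 a k k') (d2 a k k') (d3 a k k')) +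
        (lam ^ 2 * y ^ 2) * (wt B μ x x' ψ ψ' a k k' *
        UU Y1 Y2 Y3 z (d1 a k k') (d2 a k k') (d3 a k k') ^ 2) := by
    intro a k k'
    have m1 := exp_le_quadratic (exponent_le (Y1 := Y1) (Y2 := Y2) (Y3 := Y3) (d1 := d1 a k k') (d2 := d2 a k k')
      (d3 := d3 a k k') hz0 hl0) (hv a k k')
    have m2 := mul_le_mul_of_nonneg_left m1 (w0 a k k')
    refine m2.trans (le_of_eq ?_)
    ring
  set E1 := ∑ a, ∑ k, ∑ k', wt B μ x x' ψ ψ' a k k' with hE1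
  set EU := ∑ a, ∑ k, ∑ k', wt B μ x x' ψ ψ' a k k' * UU Y1 Y2 Y3 z (d1 a k k') (d2 a k k') (d3 a k k') with hEU
  set EU2 := ∑ a, ∑ k, ∑ k', wt B μ x x' ψ ψ' a k k' * UU Y1 Y2 Y3 z (d1 a k k') (d2 a k k') (d3 a k k') ^ 2
    with hEU2
  have hsum := sum3_le hpt
  rw [sum3_add, sum3_add, sum3_mul, sum3_mul] at hsum
  have hE1b : |E1 - 1| ≤ 50 * B.t ^ 4 * (|Y1| ^ 3 + |Y2| ^ 3 + |Y3| ^ 3) / z ^ 3 := by
    have m1 := mass_bound B hμ0 hμ1 hx hx' hψ hψ' hω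
    refine m1.trans (le_of_eq ?_)
    rw [hY1, hY2, hY3, abs_mul, abs_mul, abs_mul, abs_of_pos hz0]
    field_simp
  have hEU2b : EU2 ≤ E1 * (3 * ((24 * (|Y1| ^ 2 + |Y2| ^ 2 + |Y3| ^ 2)) ^ 2 +
      (192 * (|Y1| + |Y2| + |Y3|) + 1536) ^ 2 + ((4 * z + 4) / z ^ 2 * (|Y1| ^ 3 + |Y2| ^ 3 + |Y3| ^ 3)) ^ 2)) := by
    have m1 : ∀ a k k', wt B μ x x' ψ ψ' a k k' * UU Y1 Y2 Y3 z (d1 a k k') (d2 a k k') (d3 a k k') ^ 2 ≤
        (3 * ((24 * (|Y1| ^ 2 + |Y2| ^ 2 + |Y3| ^ 2)) ^ 2 +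
      (192 * (|Y1| + |Y2| + |Y3|) + 1536) ^ 2 + ((4 * z + 4) / z ^ 2 * (|Y1| ^ 3 + |Y2| ^ 3 + |Y3| ^ 3)) ^ 2)) *
        wt B μ x x' ψ ψ' a k k' := by
      intro a k k'
      rw [mul_comm]
      refine mul_le_mul_of_nonneg_right ?_ (w0 a k k')
      have m2 := pow_le_pow_left₀ (abs_nonneg _) (hUabs a k k') 2
      rw [sq_abs] at m2
      refine m2.trans ?_
      generalize 24 * (|Y1| ^ 2 + |Y2| ^ 2 + |Y3| ^ 2) = P
      generalize 192 * (|Y1| + |Y2| + |Y3|) + 1536 = Q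
      generalize (4 * z + 4) / z ^ 2 * (|Y1| ^ 3 + |Y2| ^ 3 + |Y3| ^ 3) = R
      nlinarith [sq_nonneg (P - Q), sq_nonneg (Q - R), sq_nonneg (P - R)]
    have m3 := sum3_le m1
    rw [sum3_mul] at m3
    rw [hEU2, hE1]
    linarith
  -- the mean of U
  have hD1 := drift_one B hμ0 hμ1 hx hx' hψ hψ' he0 hd
  have hD2 : |∑ a, ∑ k, ∑ k', wt B μ x x' ψ ψ' a k k' * d2 a k k' - ψ'| ≤
      50 * B.t ^ 2 * (|ψ| + |ψ'|) + 3 / z * 3 := by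
    have m1 := drift_one B hμ0 hμ1 hx' hx hψ' hψ he0 hd
    have m2 : ∑ a, ∑ k, ∑ k', wt B μ x' x ψ' ψ a k k' * (x' a + B.f k + e a * (B.f k - x' a)) =
        ∑ a, ∑ k, ∑ k', wt B μ x x' ψ ψ' a k k' * d2 a k k' := by
      refine sum_congr rfl fun a _ => ?_
      rw [sum_comm]
      refine sum_congr rfl fun k _ => sum_congr rfl fun k' _ => ?_
      unfold wt
      rw [hd2]
      ring
    rw [m2, add_comm |ψ'| |ψ|] at m1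
    exact m1
  have hD3 := drift_three B hμ0 hμ1 hx hx' hψ hψ' hω he0 hd
  set D1 := ∑ a, ∑ k, ∑ k', wt B μ x x' ψ ψ' a k k' * d1 a k k' with hDD1
  set D2 := ∑ a, ∑ k, ∑ k', wt B μ x x' ψ ψ' a k k' * d2 a k k' with hDD2
  set D3 := ∑ a, ∑ k, ∑ k', wt B μ x x' ψ ψ' a k k' * d3 a k k' with hDD3
  change |D1 - ψ| ≤ _ at hD1
  change |D3 - ω| ≤ _ at hD3
  have hEUb : EU ≤ 3 * (|Y1| ^ 3 + |Y2| ^ 3 + |Y3| ^ 3) / z + 3 * (|Y1| ^ 2 + |Y2| ^ 2 + |Y3| ^ 2) *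
      (150 * B.t ^ 2 * (|Y1| + |Y2| + |Y3|) + 20) / z + E1 * (192 * (|Y1| + |Y2| + |Y3|) + 1536) -
      (4 * z + 4) / z ^ 2 * (|Y1| ^ 3 + |Y2| ^ 3 + |Y3| ^ 3) * E1 := by
    have m1 : ∀ a k k', wt B μ x x' ψ ψ' a k k' * UU Y1 Y2 Y3 z (d1 a k k') (d2 a k k') (d3 a k k') ≤
        (3 * Y1 * |Y1|) * (wt B μ x x' ψ ψ' a k k' * d1 a k k') +
        (3 * Y2 * |Y2|) * (wt B μ x x' ψ ψ' a k k' * d2 a k k') +
        (3 * Y3 * |Y3|) * (wt B μ x x' ψ ψ' a k k' * d3 a k k') +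
        ((192 * (|Y1| + |Y2| + |Y3|) + 1536) - (4 * z + 4) / z ^ 2 * (|Y1| ^ 3 + |Y2| ^ 3 + |Y3| ^ 3)) *
          wt B μ x x' ψ ψ' a k k' := by
      intro a k k'
      have t1 : ∀ {Y d : ℝ}, |d| ≤ 8 → 3 * |Y| * d ^ 2 + |d| ^ 3 ≤ 192 * |Y| + 512 := by
        intro Y d hd
        have h3 : d ^ 2 ≤ 64 := by
          rw [← sq_abs]
          nlinarith [abs_nonneg d]
        have h4 : |d| ^ 3 ≤ 512 := by
          have := pow_le_pow_left₀ (abs_nonneg d) hd 3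
          norm_num at this
          exact this
        nlinarith [abs_nonneg Y]
      have u1 := t1 (Y := Y1) (b1 a k k')
      have u2 := t1 (Y := Y2) (b2 a k k')
      have u3 := t1 (Y := Y3) (b3 a k k')
      have u4 : UU Y1 Y2 Y3 z (d1 a k k') (d2 a k k') (d3 a k k') ≤ (3 * Y1 * |Y1|) * d1 a k k' +
          (3 * Y2 * |Y2|) * d2 a k k' + (3 * Y3 * |Y3|) * d3 a k k' +
          ((192 * (|Y1| + |Y2| + |Y3|) + 1536) - (4 * z + 4) / z ^ 2 * (|Y1| ^ 3 + |Y2| ^ 3 + |Y3| ^ 3)) := by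
        unfold UU
        linarith
      have u5 := mul_le_mul_of_nonneg_left u4 (w0 a k k')
      refine u5.trans (le_of_eq ?_)
      ring
    have m2 := sum3_le m1
    rw [sum3_add, sum3_add, sum3_add, sum3_mul, sum3_mul, sum3_mul, sum3_mul] at m2
    have key : ∀ {Y D φ : ℝ}, Y = z * φ → |D - φ| ≤ (150 * B.t ^ 2 * (|Y1| + |Y2| + |Y3|) + 20) / z →
        3 * Y * |Y| * D ≤ 3 * |Y| ^ 3 / z + 3 * |Y| ^ 2 * (150 * B.t ^ 2 * (|Y1| + |Y2| + |Y3|) + 20) / z := by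
      intro Y D φ hY hDφ
      have n1 : 3 * Y * |Y| * D = 3 * Y * |Y| * φ + 3 * Y * |Y| * (D - φ) := by ring
      have n2 : 3 * Y * |Y| * φ = 3 * |Y| ^ 3 / z := by
        have : |Y| ^ 3 = Y * (Y * |Y|) := by
          rw [← mul_assoc, ← abs_mul_abs_self Y]
          ring
        rw [this]
        have h5 : φ = Y / z := by
          rw [hY]
          field_simp
        rw [h5]
        ring
      have n3 : 3 * Y * |Y| * (D - φ) ≤ |3 * Y * |Y| * (D - φ)| := le_abs_self _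
      have n4 : |3 * Y * |Y| * (D - φ)| = 3 * |Y| ^ 2 * |D - φ| := by
        rw [abs_mul, abs_mul, abs_mul, abs_abs, abs_of_pos (by norm_num : (0:ℝ) < 3)]
        ring
      have n5 : 3 * |Y| ^ 2 * |D - φ| ≤ 3 * |Y| ^ 2 * ((150 * B.t ^ 2 * (|Y1| + |Y2| + |Y3|) + 20) / z) :=
        mul_le_mul_of_nonneg_left hDφ (by positivity)
      rw [n1, n2]
      have n6 : 3 * |Y| ^ 2 * ((150 * B.t ^ 2 * (|Y1| + |Y2| + |Y3|) + 20) / z) =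
        3 * |Y| ^ 2 * (150 * B.t ^ 2 * (|Y1| + |Y2| + |Y3|) + 20) / z := by ring
      linarith
    have errform : (150 * B.t ^ 2 * (|Y1| + |Y2| + |Y3|) + 20) / z = 150 * B.t ^ 2 * (|ψ| + |ψ'| + |ω|) + 20 / z := by
      rw [hY1, hY2, hY3, abs_mul, abs_mul, abs_mul, abs_of_pos hz0]
      field_simp
    have hz3 : 3 / z * 3 = 9 / z := by ring
    have hz5 : 3 / z * 5 = 15 / z := by ring
    have hzz : 0 < 1 / z := by positivity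
    have e9 : 9 / z = 9 * (1 / z) := by ring
    have e15 : 15 / z = 15 * (1 / z) := by ring
    have e20 : 20 / z = 20 * (1 / z) := by ring
    have p1 : 0 ≤ B.t ^ 2 * |ψ| := by positivity
    have p2 : 0 ≤ B.t ^ 2 * |ψ'| := by positivity
    have p3 : 0 ≤ B.t ^ 2 * |ω| := by positivity
    have q1 : |D1 - ψ| ≤ (150 * B.t ^ 2 * (|Y1| + |Y2| + |Y3|) + 20) / z := by
      rw [errform]
      linarith
    have q2 : |D2 - ψ'| ≤ (150 * B.t ^ 2 * (|Y1| + |Y2| + |Y3|) + 20) / z := by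
      rw [errform]
      linarith
    have q3 : |D3 - ω| ≤ (150 * B.t ^ 2 * (|Y1| + |Y2| + |Y3|) + 20) / z := by
      rw [errform]
      linarith
    have k1 := key hY1 q1
    have k2 := key hY2 q2
    have k3 := key hY3 q3
    have k4 : 3 * (|Y1| ^ 3 + |Y2| ^ 3 + |Y3| ^ 3) / z + 3 * (|Y1| ^ 2 + |Y2| ^ 2 + |Y3| ^ 2) *
      (150 * B.t ^ 2 * (|Y1| + |Y2| + |Y3|) + 20) / z =
      (3 * |Y1| ^ 3 / z + 3 * |Y1| ^ 2 * (150 * B.t ^ 2 * (|Y1| + |Y2| + |Y3|) + 20) / z) +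
      (3 * |Y2| ^ 3 / z + 3 * |Y2| ^ 2 * (150 * B.t ^ 2 * (|Y1| + |Y2| + |Y3|) + 20) / z) +
      (3 * |Y3| ^ 3 / z + 3 * |Y3| ^ 2 * (150 * B.t ^ 2 * (|Y1| + |Y2| + |Y3|) + 20) / z) := by ring
    rw [k4]
    have k5 : E1 * (192 * (|Y1| + |Y2| + |Y3|) + 1536) -
      (4 * z + 4) / z ^ 2 * (|Y1| ^ 3 + |Y2| ^ 3 + |Y3| ^ 3) * E1 =
      ((192 * (|Y1| + |Y2| + |Y3|) + 1536) - (4 * z + 4) / z ^ 2 * (|Y1| ^ 3 + |Y2| ^ 3 + |Y3| ^ 3)) * E1 := by ring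
    linarith
  have hfin := final_ineq (abs_nonneg Y1) (abs_nonneg Y2) (abs_nonneg Y3) hq hz aY1 aY2 aY3 hy0 hy1 hy2 B.t_pos.le
    B.t_le hlam hE1b hEUb hEU2b
  refine le_trans ?_ hfin
  refine le_trans (le_of_eq ?_) hsum
  rfl

end Pool.Agent.H1.HP
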