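import Mathlib

/-!
# Sequences and harmonic sums
-/

set_option autoImplicit false

namespace Pool.Agent.H1.HP

open Finset

/-- the harmonic sum -/
noncomputable def HH (n : ℕ) : ℝ := ∑ i ∈ range n, 1 / ((i : ℝ) + 1)

theorem HH_nonneg (n : ℕ) : 0 ≤ HH n := sum_nonneg fun i _ => by positivity

theorem log_le_HH (n : ℕ) : Real.log (n + 1) ≤ HH n := by
  induction n with
  | zero => simp [HH]
  | succ n ih =>
    unfold HH
    rw [sum_range_succ]
    have h0 : (0 : ℝ) < n + 1 := by positivity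
    have h1 : Real.log ((n : ℝ) + 1 + 1) = Real.log (n + 1) + Real.log (1 + 1 / ((n : ℝ) + 1)) := by
      rw [← Real.log_mul (by positivity) (by positivity)]
      congr 1
      field_simp
    have h2 : Real.log (1 + 1 / ((n : ℝ) + 1)) ≤ 1 / ((n : ℝ) + 1) := by
      have := Real.log_le_sub_one_of_pos (show 0 < 1 + 1 / ((n : ℝ) + 1) by positivity)
      linarith
    push_cast
    rw [h1]
    unfold HH at ih
    linarith

theorem HH_tendsto : Filter.Tendsto HH Filter.atTop Filter.atTop := by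
  refine Filter.tendsto_atTop_mono log_le_HH ?_
  have h1 : Filter.Tendsto (fun n : ℕ => (n : ℝ) + 1) Filter.atTop Filter.atTop :=
    Filter.tendsto_atTop_add_const_right _ _ tendsto_natCast_atTop_atTop
  exact Real.tendsto_log_atTop.comp h1

theorem sum_sq_le (n : ℕ) : ∑ i ∈ range n, 1 / ((i : ℝ) + 1) ^ 2 ≤ 2 := by
  have h : ∀ n : ℕ, ∑ i ∈ range (n + 1), 1 / ((i : ℝ) + 1) ^ 2 ≤ 2 - 1 / ((n : ℝ) + 1) := by
    intro n
    induction n with
    | zero => simp; norm_num
    | succ n ih =>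
      rw [sum_range_succ]
      have h1 : 1 / (((n + 1 : ℕ) : ℝ) + 1) ^ 2 ≤ 1 / ((n : ℝ) + 1) - 1 / (((n + 1 : ℕ) : ℝ) + 1) := by
        push_cast
        have h2 : (0 : ℝ) < n + 1 := by positivity
        rw [div_sub_div _ _ (by positivity) (by positivity), div_le_div_iff₀ (by positivity) (by positivity)]
        nlinarith
      linarith
  cases n with
  | zero => simp
  | succ n =>
    have := h n
    have h2 : 0 ≤ 1 / ((n : ℝ) + 1) := by positivity
    linarith

/-- telescoping -/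
theorem le_of_step {u w : ℕ → ℝ} {m : ℕ} (h : ∀ i, m ≤ i → u (i + 1) ≤ u i + w i) {n : ℕ} (hn : m ≤ n) :
    u n ≤ u m + ∑ i ∈ Ico m n, w i := by
  induction n, hn using Nat.le_induction with
  | base => simp
  | succ n hn ih =>
    rw [sum_Ico_succ_top hn]
    have := h n hn
    linarith

/-- summability from a decreasing quantity -/
theorem sum_le_of_step {a b : ℕ → ℝ} {c d : ℝ} (hc : 0 < c) (hd : 0 ≤ d) {m : ℕ} (ha : ∀ i, 0 ≤ a i)
    (h : ∀ i, m ≤ i → a (i + 1) ≤ a i - c * b i + d / ((i : ℝ) + 1) ^ 2) {n : ℕ} (hn : m ≤ n) :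
    ∑ i ∈ Ico m n, b i ≤ (a m + 2 * d) / c := by
  have h1 := le_of_step (u := a) (w := fun i => - c * b i + d / ((i : ℝ) + 1) ^ 2) (m := m)
    (fun i hi => by
      have := h i hi
      linarith) hn
  rw [sum_add_distrib, ← mul_sum] at h1
  have h2 : ∑ i ∈ Ico m n, d / ((i : ℝ) + 1) ^ 2 ≤ 2 * d := by
    have h3 : ∑ i ∈ Ico m n, d / ((i : ℝ) + 1) ^ 2 ≤ ∑ i ∈ range n, d / ((i : ℝ) + 1) ^ 2 := by
      refine sum_le_sum_of_subset_of_nonneg ?_ fun i _ _ => by positivity
      intro i hi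
      rw [mem_Ico] at hi
      exact mem_range.2 hi.2
    have h4 : ∑ i ∈ range n, d / ((i : ℝ) + 1) ^ 2 = d * ∑ i ∈ range n, 1 / ((i : ℝ) + 1) ^ 2 := by
      rw [mul_sum]
      exact sum_congr rfl fun i _ => by ring
    have h5 := mul_le_mul_of_nonneg_left (sum_sq_le n) hd
    linarith
  have h3 := ha n
  rw [le_div_iff₀ hc]
  linarith

theorem sum_Ico_HH {m n : ℕ} (hn : m ≤ n) : ∑ i ∈ Ico m n, 1 / ((i : ℝ) + 1) = HH n - HH m := by
  unfold HH
  rw [sum_Ico_eq_sub _ hn]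

theorem log_one_add_ge {u : ℝ} (hu : 0 ≤ u) : u - u ^ 2 / 2 ≤ Real.log (1 + u) := by
  refine le_trans ?_ (Real.le_log_one_add_of_nonneg hu)
  rw [le_div_iff₀ (by linarith)]
  have : 0 ≤ u ^ 3 := by positivity
  nlinarith

end Pool.Agent.H1.HP
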