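import Mathlib

/-!
# One step of the two replica process
-/

set_option autoImplicit false

namespace Pool.Agent.H1.HP

open Finset

/-- data of a balanced model with two labels -/
structure Bal where
  p : Fin 2 → ℝ
  f : Fin 2 → ℝ
  t : ℝ
  s : ℝ
  m : ℝ
  p_pos : ∀ k, 0 < p k
  p_sum : p 0 + p 1 = 1
  pf : p 0 * f 0 + p 1 * f 1 = 0
  ff : ∀ k, f k ^ 2 = s + m * f k
  f_le : ∀ k, |f k| ≤ 2
  m_le : |m| ≤ 1
  s_nonneg : 0 ≤ s
  s_le : s ≤ 2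
  t_pos : 0 < t
  t_le : t ≤ 1 / 10000

namespace Bal

variable (B : Bal)

/-- the function `C` -/
noncomputable def C (ψ : ℝ) : ℝ := ∑ k, B.p k * B.f k ^ 2 / (1 + B.t * B.f k * ψ)

/-- the transition weight to the label `k` -/
noncomputable def r (ψ x : ℝ) (k : Fin 2) : ℝ := B.p k * (1 + B.t * B.f k * x) / (1 + B.t * B.f k * ψ)

/-- the sum of the transition weights -/
noncomputable def g (ψ x : ℝ) : ℝ := 1 - B.t ^ 2 * ψ * B.C ψ * (x - ψ)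

/-- the sum of the transition weights times `f` -/
noncomputable def h (ψ x : ℝ) : ℝ := B.t * B.C ψ * (x - ψ)

variable {B}

theorem small {ψ : ℝ} (hψ : |ψ| ≤ 2) (k : Fin 2) : |B.t * B.f k * ψ| ≤ 1 / 100 := by
  rw [abs_mul, abs_mul, abs_of_pos B.t_pos]
  have h1 := B.f_le k
  have h2 := B.t_le
  have h3 := B.t_pos
  have h4 : B.t * |B.f k| ≤ (1 / 10000) * 2 := mul_le_mul h2 h1 (abs_nonneg _) (by norm_num)
  have h5 : B.t * |B.f k| * |ψ| ≤ (1 / 10000) * 2 * 2 := mul_le_mul h4 hψ (abs_nonneg _) (by norm_num)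
  linarith

theorem den_ge {ψ : ℝ} (hψ : |ψ| ≤ 2) (k : Fin 2) : 99 / 100 ≤ 1 + B.t * B.f k * ψ := by
  have := abs_le.1 (B.small hψ k)
  linarith [this.1]

theorem C_nonneg {ψ : ℝ} (hψ : |ψ| ≤ 2) : 0 ≤ B.C ψ := by
  refine sum_nonneg fun k _ => div_nonneg (mul_nonneg (B.p_pos k).le (sq_nonneg _)) ?_
  linarith [B.den_ge hψ k]

theorem C_le {ψ : ℝ} (hψ : |ψ| ≤ 2) : B.C ψ ≤ 5 := by
  unfold C
  have h1 : ∀ k, B.p k * B.f k ^ 2 / (1 + B.t * B.f k * ψ) ≤ B.p k * 5 := by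
    intro k
    have hd := B.den_ge hψ k
    rw [div_le_iff₀ (by linarith)]
    have hf : B.f k ^ 2 ≤ 4 := by
      have := B.f_le k
      rw [← sq_abs]
      nlinarith [abs_nonneg (B.f k)]
    have hp := B.p_pos k
    have h2 : B.f k ^ 2 ≤ 5 * (1 + B.t * B.f k * ψ) := by linarith
    calc B.p k * B.f k ^ 2 ≤ B.p k * (5 * (1 + B.t * B.f k * ψ)) := mul_le_mul_of_nonneg_left h2 hp.le
      _ = _ := by ring
  refine (sum_le_sum fun k _ => h1 k).trans ?_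
  rw [Fin.sum_univ_two]
  linarith [B.p_sum]

theorem r_nonneg {ψ x : ℝ} (hψ : |ψ| ≤ 2) (hx : |x| ≤ 2) (k : Fin 2) : 0 ≤ B.r ψ x k := by
  refine div_nonneg (mul_nonneg (B.p_pos k).le ?_) ?_
  · linarith [B.den_ge hx k]
  · linarith [B.den_ge hψ k]

theorem r_eq {ψ x : ℝ} (hψ : |ψ| ≤ 2) (k : Fin 2) :
    B.r ψ x k = B.p k + B.t * (x - ψ) * (B.p k * B.f k / (1 + B.t * B.f k * ψ)) := by
  have hd : (1 + B.t * B.f k * ψ) ≠ 0 := by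
    have := B.den_ge hψ k
    linarith
  unfold r
  field_simp
  ring

theorem sum_f_div {ψ : ℝ} (hψ : |ψ| ≤ 2) :
    B.p 0 * B.f 0 / (1 + B.t * B.f 0 * ψ) + B.p 1 * B.f 1 / (1 + B.t * B.f 1 * ψ) = - B.t * ψ * B.C ψ := by
  have h0 : (1 + B.t * B.f 0 * ψ) ≠ 0 := by
    have := B.den_ge hψ 0
    linarith
  have h1 : (1 + B.t * B.f 1 * ψ) ≠ 0 := by
    have := B.den_ge hψ 1
    linarith
  have e : ∀ k : Fin 2, (1 + B.t * B.f k * ψ) ≠ 0 → B.p k * B.f k / (1 + B.t * B.f k * ψ) =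
      B.p k * B.f k - B.t * ψ * (B.p k * B.f k ^ 2 / (1 + B.t * B.f k * ψ)) := by
    intro k hk
    have e1 : B.p k * B.f k / (1 + B.t * B.f k * ψ) + B.t * ψ * (B.p k * B.f k ^ 2 / (1 + B.t * B.f k * ψ)) =
        B.p k * B.f k := by
      rw [← mul_div_assoc, ← add_div, div_eq_iff hk]
      ring
    linarith
  rw [e 0 h0, e 1 h1]
  unfold C
  rw [Fin.sum_univ_two]
  linear_combination B.pf

theorem sum_r {ψ : ℝ} (hψ : |ψ| ≤ 2) (x : ℝ) : B.r ψ x 0 + B.r ψ x 1 = B.g ψ x := by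
  rw [B.r_eq hψ, B.r_eq hψ]
  unfold g
  linear_combination B.p_sum + B.t * (x - ψ) * B.sum_f_div hψ

theorem sum_rf {ψ : ℝ} (hψ : |ψ| ≤ 2) (x : ℝ) : B.r ψ x 0 * B.f 0 + B.r ψ x 1 * B.f 1 = B.h ψ x := by
  rw [B.r_eq hψ, B.r_eq hψ]
  unfold h C
  rw [Fin.sum_univ_two]
  linear_combination B.pf

theorem g_sub {ψ x : ℝ} (hψ : |ψ| ≤ 2) (hx : |x| ≤ 2) : |B.g ψ x - 1| ≤ 20 * B.t ^ 2 * |ψ| := by
  have e : B.g ψ x - 1 = - (B.t ^ 2 * ψ * B.C ψ * (x - ψ)) := by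
    unfold g
    ring
  rw [e, abs_neg, abs_mul, abs_mul, abs_mul, abs_of_nonneg (B.C_nonneg hψ), abs_of_nonneg (sq_nonneg B.t)]
  have h1 : |x - ψ| ≤ 4 := by
    have := abs_sub x ψ
    linarith
  have h2 : B.C ψ * |x - ψ| ≤ 5 * 4 := mul_le_mul (B.C_le hψ) h1 (abs_nonneg _) (by norm_num)
  have h3 : 0 ≤ B.t ^ 2 * |ψ| := mul_nonneg (sq_nonneg _) (abs_nonneg _)
  calc B.t ^ 2 * |ψ| * B.C ψ * |x - ψ| = B.t ^ 2 * |ψ| * (B.C ψ * |x - ψ|) := by ring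
    _ ≤ B.t ^ 2 * |ψ| * (5 * 4) := mul_le_mul_of_nonneg_left h2 h3
    _ = _ := by ring

theorem t_sq : B.t ^ 2 ≤ 1 / 100000000 := by
  have h1 := B.t_le
  have h2 := B.t_pos
  nlinarith

theorem g_abs {ψ x : ℝ} (hψ : |ψ| ≤ 2) (hx : |x| ≤ 2) : |B.g ψ x| ≤ 1001 / 1000 := by
  have h1 := B.g_sub hψ hx
  have h2 := B.t_sq
  have h3 : |B.g ψ x| ≤ |B.g ψ x - 1| + 1 := by
    have := abs_add_le (B.g ψ x - 1) 1
    simpa using this
  have h4 : 20 * B.t ^ 2 * |ψ| ≤ 20 * (1 / 100000000) * 2 := by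
    refine mul_le_mul ?_ hψ (abs_nonneg _) (by norm_num)
    linarith
  linarith

theorem h_abs {ψ x : ℝ} (hψ : |ψ| ≤ 2) (hx : |x| ≤ 2) : |B.h ψ x| ≤ 1 / 500 := by
  unfold h
  rw [abs_mul, abs_mul, abs_of_nonneg (B.C_nonneg hψ), abs_of_pos B.t_pos]
  have h1 : |x - ψ| ≤ 4 := by
    have := abs_sub x ψ
    linarith
  have h2 : B.t * B.C ψ ≤ (1 / 10000) * 5 := mul_le_mul B.t_le (B.C_le hψ) (B.C_nonneg hψ) (by norm_num)
  have h3 : B.t * B.C ψ * |x - ψ| ≤ (1 / 10000) * 5 * 4 := mul_le_mul h2 h1 (abs_nonneg _) (by norm_num)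
  linarith

end Bal

section weights

variable {ι : Type*} [Fintype ι] {μ : ι → ℝ}

theorem wsum_abs (h0 : ∀ a, 0 ≤ μ a) (h1 : ∑ a, μ a = 1) {φ : ι → ℝ} {c : ℝ} (h : ∀ a, |φ a| ≤ c) :
    |∑ a, μ a * φ a| ≤ c := by
  refine (abs_sum_le_sum_abs _ _).trans ?_
  have h2 : ∀ a, |μ a * φ a| ≤ μ a * c := by
    intro a
    rw [abs_mul, abs_of_nonneg (h0 a)]
    exact mul_le_mul_of_nonneg_left (h a) (h0 a)
  refine (sum_le_sum fun a _ => h2 a).trans ?_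
  rw [← sum_mul, h1, one_mul]

theorem wsum_abs' (h0 : ∀ a, 0 ≤ μ a) {e φ : ι → ℝ} {c d : ℝ} (he : ∀ a, 0 ≤ e a) (hd : ∑ a, μ a * e a ≤ d)
    (hc : 0 ≤ c) (h : ∀ a, |φ a| ≤ c) : |∑ a, μ a * (e a * φ a)| ≤ d * c := by
  refine (abs_sum_le_sum_abs _ _).trans ?_
  have h2 : ∀ a, |μ a * (e a * φ a)| ≤ μ a * e a * c := by
    intro a
    rw [← mul_assoc, abs_mul, abs_of_nonneg (mul_nonneg (h0 a) (he a))]
    exact mul_le_mul_of_nonneg_left (h a) (mul_nonneg (h0 a) (he a))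
  refine (sum_le_sum fun a _ => h2 a).trans ?_
  rw [← sum_mul]
  exact mul_le_mul_of_nonneg_right hd hc

end weights

end Pool.Agent.H1.HP
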