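import Pool.Agent.H1.HP.Basic
import Pool.Agent.H1.HP.Seq

/-!
# General models with two labels: the drift of the degree sums
-/

set_option autoImplicit false

namespace Pool.Agent.H1.HP

open Finset

/-- the indicator of the label `j` -/
noncomputable def ind (j : Fin 2) : Fin 2 → ℝ := fun k => if k = j then 1 else 0

theorem ind_nonneg (j k : Fin 2) : 0 ≤ ind j k := by
  unfold ind
  split_ifs <;> norm_num

theorem ind_le_one (j k : Fin 2) : ind j k ≤ 1 := by
  unfold ind
  split_ifs <;> norm_num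

theorem ind_add (k : Fin 2) : ind 0 k + ind 1 k = 1 := by
  unfold ind
  fin_cases k <;> simp

/-- `N_j` as a real number -/
noncomputable def NN (n : ℕ) (h : Hist n) (l : Lab 2 n) (j : Fin 2) : ℝ := tot n h l (ind j)

/-- `A_j = N_j + 1` -/
noncomputable def AA (n : ℕ) (h : Hist n) (l : Lab 2 n) (j : Fin 2) : ℝ := NN n h l j + 1

/-- the attachment rate of the label `j` -/
noncomputable def rate (θ : Param 2) (n : ℕ) (h : Hist n) (l : Lab 2 n) (j : Fin 2) : ℝ :=
  ∑ k, θ.π k * θ.γ k j / den θ n h l k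

/-- the expectation of a function of the new target and label -/
noncomputable def step (θ : Param 2) (n : ℕ) (h : Hist n) (l : Lab 2 n) (φ : ℕ → Fin 2 → ℝ) : ℝ :=
  ∑ t : Fin (n + 1), ∑ k, trans θ n h l t k * φ t k

theorem NN_nonneg (n : ℕ) (h : Hist n) (l : Lab 2 n) (j : Fin 2) : 0 ≤ NN n h l j :=
  tot_nonneg n h l (ind j) (ind_nonneg j)

theorem AA_ge (n : ℕ) (h : Hist n) (l : Lab 2 n) (j : Fin 2) : 1 ≤ AA n h l j := by
  unfold AA
  linarith [NN_nonneg n h l j]

theorem NN_add (n : ℕ) (h : Hist n) (l : Lab 2 n) : NN n h l 0 + NN n h l 1 = 2 * n := by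
  unfold NN tot
  rw [← sum_add_distrib]
  have : ∀ v, (deg n h v : ℝ) * ind 0 (label n l v) + (deg n h v : ℝ) * ind 1 (label n l v) = deg n h v := by
    intro v
    rw [← mul_add, ind_add, mul_one]
  rw [sum_congr rfl fun v _ => this v, ← Nat.cast_sum, sum_deg]
  push_cast
  ring

theorem AA_add (n : ℕ) (h : Hist n) (l : Lab 2 n) : AA n h l 0 + AA n h l 1 = 2 * n + 2 := by
  unfold AA
  linarith [NN_add n h l]

theorem den_two (θ : Param 2) (n : ℕ) (h : Hist n) (l : Lab 2 n) (k : Fin 2) :
    den θ n h l k = θ.γ k k + θ.γ k 0 * NN n h l 0 + θ.γ k 1 * NN n h l 1 := by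
  rw [den_eq]
  unfold NN tot
  rw [mul_sum, mul_sum, add_assoc, ← sum_add_distrib]
  congr 1
  refine sum_congr rfl fun v _ => ?_
  unfold ind
  rcases Fin.exists_fin_two.1 ⟨label n l v, rfl⟩ with h0 | h0 <;> rw [h0] <;> simp <;> ring

section

variable {θ : Param 2} (hθ : θ.Valid)

include hθ

theorem step_mono {n : ℕ} {h : Hist n} {l : Lab 2 n} {φ φ' : ℕ → Fin 2 → ℝ}
    (hφ : ∀ t : Fin (n + 1), ∀ k, φ t k ≤ φ' t k) : step θ n h l φ ≤ step θ n h l φ' :=
  sum_le_sum fun t _ => sum_le_sum fun k _ => mul_le_mul_of_nonneg_left (hφ t k) (trans_nonneg hθ n h l t k)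

omit hθ in
theorem step_add {n : ℕ} {h : Hist n} {l : Lab 2 n} (φ φ' : ℕ → Fin 2 → ℝ) :
    step θ n h l (fun t k => φ t k + φ' t k) = step θ n h l φ + step θ n h l φ' := by
  unfold step
  rw [← sum_add_distrib]
  refine sum_congr rfl fun t _ => ?_
  rw [← sum_add_distrib]
  exact sum_congr rfl fun k _ => by ring

omit hθ in
theorem step_mul {n : ℕ} {h : Hist n} {l : Lab 2 n} (c : ℝ) (φ : ℕ → Fin 2 → ℝ) :
    step θ n h l (fun t k => c * φ t k) = c * step θ n h l φ := by
  unfold step
  rw [mul_sum]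
  refine sum_congr rfl fun t _ => ?_
  rw [mul_sum]
  exact sum_congr rfl fun k _ => by ring

theorem step_const {n : ℕ} (h : Hist n) (l : Lab 2 n) (c : ℝ) : step θ n h l (fun _ _ => c) = c := by
  unfold step
  rw [sum_comm]
  have : ∀ k, ∑ t : Fin (n + 1), trans θ n h l t k * c = θ.π k * c := by
    intro k
    rw [← sum_mul, sum_trans_one hθ]
  rw [sum_congr rfl fun k _ => this k, ← sum_mul, hθ.sum_eq_one, one_mul]

/-- the new label -/
theorem step_label {n : ℕ} (h : Hist n) (l : Lab 2 n) (φ : Fin 2 → ℝ) :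
    step θ n h l (fun _ k => φ k) = ∑ k, θ.π k * φ k := by
  unfold step
  rw [sum_comm]
  refine sum_congr rfl fun k _ => ?_
  rw [← sum_mul, sum_trans_one hθ]

omit hθ in
/-- the label of the target -/
theorem step_target {n : ℕ} (h : Hist n) (l : Lab 2 n) (j : Fin 2) :
    step θ n h l (fun t k => ind j (label (n + 1) ((l, k) : Lab 2 (n + 1)) t)) =
      NN n h l j * rate θ n h l j + θ.π j * θ.γ j j / den θ n h l j := by
  unfold step
  rw [sum_comm]
  have h1 : ∀ k, ∑ t : Fin (n + 1), trans θ n h l t k * ind j (label (n + 1) ((l, k) : Lab 2 (n + 1)) t) =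
      NN n h l j * (θ.π k * θ.γ k j / den θ n h l k) + θ.π k * θ.γ k k / den θ n h l k * ind j k := by
    intro k
    rw [sum_trans θ n h l k (fun t => ind j (label (n + 1) ((l, k) : Lab 2 (n + 1)) t)), label_succ_self]
    have h2 : ∑ v ∈ range n, (deg n h v : ℝ) * (θ.γ k (label n l v) * ind j (label (n + 1)
        ((l, k) : Lab 2 (n + 1)) v)) = θ.γ k j * NN n h l j := by
      unfold NN tot
      rw [mul_sum]
      refine sum_congr rfl fun v hv => ?_
      rw [label_succ_of_lt n l k v (mem_range.1 hv)]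
      unfold ind
      split_ifs with h3
      · rw [h3]
        ring
      · ring
    rw [h2]
    ring
  rw [sum_congr rfl fun k _ => h1 k, sum_add_distrib, ← mul_sum]
  congr 1
  unfold ind
  have : ∀ k, θ.π k * θ.γ k k / den θ n h l k * (if k = j then 1 else 0) =
      if k = j then θ.π k * θ.γ k k / den θ n h l k else 0 := by
    intro k
    split_ifs <;> ring
  rw [sum_congr rfl fun k _ => this k, sum_ite_eq', if_pos (mem_univ _)]

omit hθ in
/-- attachment to a given old node -/
theorem step_node {n : ℕ} (h : Hist n) (l : Lab 2 n) {v : ℕ} (hv : v < n) (c : ℝ) :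
    step θ n h l (fun t _ => if t = v then c else 0) = deg n h v * rate θ n h l (label n l v) * c := by
  unfold step
  rw [sum_comm]
  have h1 : ∀ k, ∑ t : Fin (n + 1), trans θ n h l t k * (if (t : ℕ) = v then c else 0) =
      deg n h v * c * (θ.π k * θ.γ k (label n l v) / den θ n h l k) := by
    intro k
    rw [sum_trans θ n h l k (fun t => if t = v then c else 0), if_neg (by omega), mul_zero, add_zero]
    have h2 : ∑ w ∈ range n, (deg n h w : ℝ) * (θ.γ k (label n l w) * (if w = v then c else 0)) =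
        deg n h v * (θ.γ k (label n l v) * c) := by
      have h3 : ∀ w, (deg n h w : ℝ) * (θ.γ k (label n l w) * (if w = v then c else 0)) =
          if w = v then (deg n h w : ℝ) * (θ.γ k (label n l w) * c) else 0 := by
        intro w
        split_ifs <;> ring
      rw [sum_congr rfl fun w _ => h3 w, sum_ite_eq', if_pos (mem_range.2 hv)]
    rw [h2]
    ring
  rw [sum_congr rfl fun k _ => h1 k, ← mul_sum]
  unfold rate
  ring

omit hθ in
/-- loops -/
theorem step_loop {n : ℕ} (h : Hist n) (l : Lab 2 n) :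
    step θ n h l (fun t _ => if t = n then 1 else 0) = ∑ k, θ.π k * θ.γ k k / den θ n h l k := by
  unfold step
  rw [sum_comm]
  refine sum_congr rfl fun k _ => ?_
  rw [sum_trans θ n h l k (fun t => if t = n then 1 else 0), if_pos rfl]
  have h2 : ∑ w ∈ range n, (deg n h w : ℝ) * (θ.γ k (label n l w) * (if w = n then 1 else 0)) = 0 := by
    refine sum_eq_zero fun w hw => ?_
    rw [mem_range] at hw
    rw [if_neg (by omega)]
    ring
  rw [h2]
  ring

omit hθ in
theorem Ex_succ' (n : ℕ) (F : Hist (n + 1) → Lab 2 (n + 1) → ℝ) (φ : (h : Hist n) → Lab 2 n → ℕ → Fin 2 → ℝ)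
    (hF : ∀ (h : Hist n) (l : Lab 2 n) (t : Fin (n + 1)) (k : Fin 2), F (h, t) (l, k) = φ h l t k) :
    Ex θ (n + 1) F = Ex θ n fun h l => step θ n h l (φ h l) := by
  rw [Ex_succ]
  congr 1
  funext h l
  unfold step
  refine sum_congr rfl fun t _ => sum_congr rfl fun k _ => ?_
  rw [hF]

omit hθ in
theorem AA_succ (n : ℕ) (h : Hist n) (l : Lab 2 n) (t : Fin (n + 1)) (k j : Fin 2) :
    AA (n + 1) ((h, t) : Hist (n + 1)) ((l, k) : Lab 2 (n + 1)) j =
      AA n h l j + (ind j (label (n + 1) ((l, k) : Lab 2 (n + 1)) t) + ind j k) := by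
  unfold AA NN
  rw [tot_succ]
  ring

end

end Pool.Agent.H1.HP
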