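import Pool.Agent.H1.HP.Unknown

/-!
# General models with two labels: growth of the logarithms of the degrees
-/

set_option autoImplicit false

namespace Pool.Agent.H1.HP

open Finset

/-- the entries of `γ` are in `[c1, c2]` and the labels have positive probabilities -/
structure Bounds (θ : Param 2) (c1 c2 : ℝ) : Prop where
  valid : θ.Valid
  pi_pos : ∀ j, 0 < θ.π j
  c1_pos : 0 < c1
  lower : ∀ i j, c1 ≤ θ.γ i j
  upper : ∀ i j, θ.γ i j ≤ c2

theorem exists_bounds {θ : Param 2} (hθ : θ.Valid) (hπ : ∀ j, 0 < θ.π j) : ∃ c1 c2, Bounds θ c1 c2 := by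
  refine ⟨min (min (θ.γ 0 0) (θ.γ 0 1)) (min (θ.γ 1 0) (θ.γ 1 1)),
    max (max (θ.γ 0 0) (θ.γ 0 1)) (max (θ.γ 1 0) (θ.γ 1 1)), hθ, hπ, ?_, ?_, ?_⟩
  · exact lt_min (lt_min (hθ.pos _ _) (hθ.pos _ _)) (lt_min (hθ.pos _ _) (hθ.pos _ _))
  · intro i j
    fin_cases i <;> fin_cases j <;> simp
  · intro i j
    fin_cases i <;> fin_cases j <;> simp

section

variable {θ : Param 2} {c1 c2 : ℝ} (hb : Bounds θ c1 c2)

include hb

theorem pi_add : θ.π 0 + θ.π 1 = 1 := by
  have := hb.valid.sum_eq_one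
  rwa [Fin.sum_univ_two] at this

theorem pi_le_one (j : Fin 2) : θ.π j ≤ 1 := by
  have h1 := pi_add hb
  have h2 := hb.pi_pos 0
  have h3 := hb.pi_pos 1
  fin_cases j
  · show θ.π 0 ≤ 1
    linarith
  · show θ.π 1 ≤ 1
    linarith

theorem c2_pos : 0 < c2 := hb.c1_pos.trans_le ((hb.lower 0 0).trans (hb.upper 0 0))

theorem den_ge (n : ℕ) (h : Hist n) (l : Lab 2 n) (k : Fin 2) : c1 * (2 * n + 1) ≤ den θ n h l k := by
  rw [den_two]
  have h0 := NN_nonneg n h l 0
  have h1 := NN_nonneg n h l 1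
  have h2 := NN_add n h l
  have h3 := hb.lower k k
  have h4 := mul_le_mul_of_nonneg_right (hb.lower k 0) h0
  have h5 := mul_le_mul_of_nonneg_right (hb.lower k 1) h1
  have e : c1 * (2 * n + 1) = c1 + c1 * NN n h l 0 + c1 * NN n h l 1 := by
    linear_combination (- c1) * h2
  linarith

theorem rate_nonneg (n : ℕ) (h : Hist n) (l : Lab 2 n) (j : Fin 2) : 0 ≤ rate θ n h l j :=
  sum_nonneg fun k _ => div_nonneg (mul_nonneg (hb.pi_pos k).le (hb.valid.pos k j).le)
    (den_pos hb.valid n h l k).le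

theorem rate_le (n : ℕ) (h : Hist n) (l : Lab 2 n) (j : Fin 2) : rate θ n h l j ≤ c2 / c1 / (n + 1) := by
  unfold rate
  have hn : (0 : ℝ) ≤ n := Nat.cast_nonneg n
  have h1 : ∀ k, θ.π k * θ.γ k j / den θ n h l k ≤ θ.π k * (c2 / c1 / (n + 1)) := by
    intro k
    rw [mul_div_assoc]
    refine mul_le_mul_of_nonneg_left ?_ (hb.pi_pos k).le
    have h2 := den_ge hb n h l k
    have h3 := hb.upper k j
    have h4 := c2_pos hb
    have h5 := hb.c1_pos
    have h6 : c1 * (n + 1) ≤ den θ n h l k := by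
      have : c1 * (n + 1) ≤ c1 * (2 * n + 1) := mul_le_mul_of_nonneg_left (by linarith) h5.le
      linarith
    rw [div_div]
    exact div_le_div₀ h4.le h3 (by positivity) h6
  refine (sum_le_sum fun k _ => h1 k).trans (le_of_eq ?_)
  rw [← sum_mul, hb.valid.sum_eq_one, one_mul]

theorem step_inv (n : ℕ) (h : Hist n) (l : Lab 2 n) (j : Fin 2) :
    step θ n h l (fun t k => 1 / (AA n h l j + (ind j (label (n + 1) ((l, k) : Lab 2 (n + 1)) t) + ind j k))) ≤
      1 / AA n h l j - θ.π j / 2 * (1 / AA n h l j ^ 2) := by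
  have hA := AA_ge n h l j
  set A := AA n h l j with hAdef
  have h1 : step θ n h l (fun t k => 1 / (A + (ind j (label (n + 1) ((l, k) : Lab 2 (n + 1)) t) + ind j k))) ≤
      step θ n h l (fun _ k => 1 / A + (- (1 / (A * (A + 1)))) * ind j k) := by
    refine step_mono hb.valid fun t k => ?_
    have h2 := ind_nonneg j (label (n + 1) ((l, k) : Lab 2 (n + 1)) t)
    by_cases hk : k = j
    · have h3 : ind j k = 1 := by
        unfold ind
        rw [if_pos hk]
      rw [h3]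
      have h4 : 1 / A + (- (1 / (A * (A + 1)))) * 1 = 1 / (A + 1) := by
        field_simp
        ring
      rw [h4]
      exact one_div_le_one_div_of_le (by linarith) (by linarith)
    · have h3 : ind j k = 0 := by
        unfold ind
        rw [if_neg hk]
      rw [h3, mul_zero, add_zero, add_zero]
      exact one_div_le_one_div_of_le (by linarith) (by linarith)
  refine h1.trans ?_
  rw [step_add, step_const hb.valid, step_mul, step_label hb.valid]
  have h5 : ∑ k, θ.π k * ind j k = θ.π j := by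
    unfold ind
    simp
  rw [h5]
  have h6 : 1 / (2 * A ^ 2) ≤ 1 / (A * (A + 1)) := by
    refine one_div_le_one_div_of_le (by positivity) ?_
    nlinarith
  have h7 : θ.π j * (1 / (2 * A ^ 2)) ≤ θ.π j * (1 / (A * (A + 1))) :=
    mul_le_mul_of_nonneg_left h6 (hb.pi_pos j).le
  have h8 : θ.π j / 2 * (1 / A ^ 2) = θ.π j * (1 / (2 * A ^ 2)) := by
    field_simp
  rw [h8]
  linarith

theorem step_log (n : ℕ) (h : Hist n) (l : Lab 2 n) (j : Fin 2) :
    Real.log (AA n h l j) + (NN n h l j * rate θ n h l j + θ.π j) / AA n h l j - 2 / AA n h l j ^ 2 ≤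
      step θ n h l (fun t k => Real.log (AA n h l j + (ind j (label (n + 1) ((l, k) : Lab 2 (n + 1)) t) + ind j k))) := by
  have hA := AA_ge n h l j
  set A := AA n h l j with hAdef
  have h1 : step θ n h l (fun t k => (Real.log A - 2 / A ^ 2) +
      (1 / A) * (ind j (label (n + 1) ((l, k) : Lab 2 (n + 1)) t) + ind j k)) ≤
      step θ n h l (fun t k => Real.log (A + (ind j (label (n + 1) ((l, k) : Lab 2 (n + 1)) t) + ind j k))) := by
    refine step_mono hb.valid fun t k => ?_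
    have a1 := ind_nonneg j (label (n + 1) ((l, k) : Lab 2 (n + 1)) t)
    have a2 := ind_le_one j (label (n + 1) ((l, k) : Lab 2 (n + 1)) t)
    have a3 := ind_nonneg j k
    have a4 := ind_le_one j k
    set δ := ind j (label (n + 1) ((l, k) : Lab 2 (n + 1)) t) + ind j k with hδ
    have d0 : 0 ≤ δ := by rw [hδ]; linarith
    have d2 : δ ≤ 2 := by rw [hδ]; linarith
    have h2 := log_one_add_ge (u := δ / A) (by positivity)
    have h3 : Real.log (A + δ) = Real.log A + Real.log (1 + δ / A) := by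
      rw [← Real.log_mul (by positivity) (by positivity)]
      congr 1
      field_simp
    rw [h3]
    have h4 : (δ / A) ^ 2 / 2 ≤ 2 / A ^ 2 := by
      have : (δ / A) ^ 2 / 2 = (δ ^ 2 / 2) / A ^ 2 := by ring
      rw [this]
      refine div_le_div_of_nonneg_right ?_ (by positivity)
      nlinarith
    have h5 : 1 / A * δ = δ / A := by ring
    rw [h5]
    linarith
  refine le_trans ?_ h1
  rw [step_add, step_const hb.valid, step_mul, step_add, step_target, step_label hb.valid]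
  have h5 : ∑ k, θ.π k * ind j k = θ.π j := by
    unfold ind
    simp
  rw [h5]
  have h6 : 0 ≤ θ.π j * θ.γ j j / den θ n h l j :=
    div_nonneg (mul_nonneg (hb.pi_pos j).le (hb.valid.pos j j).le) (den_pos hb.valid n h l j).le
  have h7 : (NN n h l j * rate θ n h l j + θ.π j) / A ≤
      1 / A * (NN n h l j * rate θ n h l j + θ.π j * θ.γ j j / den θ n h l j + θ.π j) := by
    rw [div_eq_mul_inv, one_div, mul_comm]
    refine mul_le_mul_of_nonneg_left ?_ (by positivity)
    linarith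
  linarith

theorem rate_bound (n : ℕ) (h : Hist n) (l : Lab 2 n) (j : Fin 2) :
    θ.π j * rate θ n h l j ≤ θ.π j * (step θ n h l (fun t k => Real.log (AA n h l j +
      (ind j (label (n + 1) ((l, k) : Lab 2 (n + 1)) t) + ind j k))) - Real.log (AA n h l j)) -
      θ.π j ^ 2 / AA n h l j + (2 + c2 / c1) * (1 / AA n h l j ^ 2) + c2 / c1 * (1 / ((n : ℝ) + 1) ^ 2) := by
  have h1 := step_log hb n h l j
  have hA := AA_ge n h l j
  have hN : NN n h l j = AA n h l j - 1 := by
    unfold AA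
    ring
  rw [hN] at h1
  set A := AA n h l j with hAdef
  set r := rate θ n h l j with hr
  set s := step θ n h l (fun t k => Real.log (A + (ind j (label (n + 1) ((l, k) : Lab 2 (n + 1)) t) + ind j k)))
    with hs
  have hr0 : 0 ≤ r := rate_nonneg hb n h l j
  have hr1 : r ≤ c2 / c1 / (n + 1) := rate_le hb n h l j
  have hκ : 0 < c2 / c1 := div_pos (c2_pos hb) hb.c1_pos
  have h2 : r ≤ s - Real.log A - θ.π j / A + 2 / A ^ 2 + r / A := by
    have : ((A - 1) * r + θ.π j) / A = r - r / A + θ.π j / A := by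
      field_simp
    rw [this] at h1
    linarith
  have h3 : r / A ≤ c2 / c1 * (1 / ((n : ℝ) + 1) ^ 2 + 1 / A ^ 2) := by
    have h4 : r / A ≤ c2 / c1 / (n + 1) / A := div_le_div_of_nonneg_right hr1 (by linarith)
    have h5 : c2 / c1 / (n + 1) / A = c2 / c1 * (1 / ((n : ℝ) + 1) * (1 / A)) := by
      field_simp
    have h6 : 1 / ((n : ℝ) + 1) * (1 / A) ≤ 1 / ((n : ℝ) + 1) ^ 2 + 1 / A ^ 2 := by
      have e1 : 1 / ((n : ℝ) + 1) ^ 2 = (1 / ((n : ℝ) + 1)) ^ 2 := (one_div_pow _ _).symm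
      have e2 : 1 / A ^ 2 = (1 / A) ^ 2 := (one_div_pow _ _).symm
      rw [e1, e2]
      nlinarith [sq_nonneg (1 / ((n : ℝ) + 1) - 1 / A), sq_nonneg (1 / ((n : ℝ) + 1) + 1 / A)]
    rw [h5] at h4
    exact h4.trans (mul_le_mul_of_nonneg_left h6 hκ.le)
  have hπ0 := hb.pi_pos j
  have hπ1 := pi_le_one hb j
  have h7 : r ≤ s - Real.log A - θ.π j / A + ((2 + c2 / c1) * (1 / A ^ 2) + c2 / c1 * (1 / ((n : ℝ) + 1) ^ 2)) := by
    have : 2 / A ^ 2 = 2 * (1 / A ^ 2) := by ring
    linarith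
  have h8 : 0 ≤ (2 + c2 / c1) * (1 / A ^ 2) + c2 / c1 * (1 / ((n : ℝ) + 1) ^ 2) := by positivity
  have h9 := mul_le_mul_of_nonneg_left h7 hπ0.le
  have h10 : θ.π j * ((2 + c2 / c1) * (1 / A ^ 2) + c2 / c1 * (1 / ((n : ℝ) + 1) ^ 2)) ≤
      (2 + c2 / c1) * (1 / A ^ 2) + c2 / c1 * (1 / ((n : ℝ) + 1) ^ 2) := mul_le_of_le_one_left h8 hπ1
  have e : θ.π j * (s - Real.log A - θ.π j / A + ((2 + c2 / c1) * (1 / A ^ 2) + c2 / c1 * (1 / ((n : ℝ) + 1) ^ 2))) =
      θ.π j * (s - Real.log A) - θ.π j ^ 2 / A +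
        θ.π j * ((2 + c2 / c1) * (1 / A ^ 2) + c2 / c1 * (1 / ((n : ℝ) + 1) ^ 2)) := by ring
  linarith

/-- the proportion `X` -/
theorem convex_bound (n : ℕ) (h : Hist n) (l : Lab 2 n) :
    1 / (2 * (n : ℝ) + 2) * (1 + 4 * (AA n h l 0 / (2 * n + 2) - θ.π 0) ^ 2) ≤
      θ.π 0 ^ 2 / AA n h l 0 + θ.π 1 ^ 2 / AA n h l 1 := by
  have h0 := AA_ge n h l 0
  have h1 := AA_ge n h l 1
  have h2 := AA_add n h l
  have hπ := pi_add hb
  set a := AA n h l 0 with ha
  set b := AA n h l 1 with hb'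
  have hn : (2 * (n : ℝ) + 2) = a + b := h2.symm
  rw [hn]
  have hq : θ.π 1 = 1 - θ.π 0 := by linarith
  rw [hq]
  set p := θ.π 0 with hp
  have hs : 0 < a + b := by linarith
  have e : p ^ 2 / a + (1 - p) ^ 2 / b - 1 / (a + b) * (1 + 4 * (a / (a + b) - p) ^ 2) =
      (a / (a + b) - p) ^ 2 * ((a - b) ^ 2 / (a * b * (a + b))) := by
    field_simp
    ring
  have h3 : 0 ≤ (a / (a + b) - p) ^ 2 * ((a - b) ^ 2 / (a * b * (a + b))) := by positivity
  linarith

end

end Pool.Agent.H1.HP
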